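import Pool.Agent.W_be22fd_h39.Assembly
import Pool.Agent.W_be22fd_h97.GridNode
import Pool.Agent.W_be22fd_h13.GridRange
import Pool.Agent.W_be22fd_h54.Bridge
import Pool.Agent.W_be22fd_h24.MItem

/-!
MP_be22fd_co, lower bound `n ^ (2 - ε)`: the grid step satisfies `GridSpec`, and the final theorem.
-/

set_option autoImplicit false

namespace Pool.Agent.W_be22fd_h39

open Pool.Agent.W_MP_be22fd_co Pool.Agent.W_be22fd_h27 Pool.Agent.W_be22fd_h78
  Pool.Agent.W_be22fd_h16 Pool.Agent.W_be22fd_h37 Pool.Agent.W_be22fd_h13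
  Pool.Agent.W_be22fd_h54 Pool.Agent.W_be22fd_h97

theorem gridLike : GridLike grid :=
  ⟨fun _ _ => rfl, fun _ _ => rfl, fun B X L => @wt_grid B X L (GW.fin B X)⟩

theorem gridSpec : GridSpec grid logM where
  like := gridLike
  range := fun B X _ _ hd => rangeOK_grid B X hd
  pair := fun X d _ => (gridNode base X).pairOK d
  child := fun B X Y d hX _ => (gridNode (grid B X) Y).childOK d (by
    show 2 ≤ X * X + 1
    nlinarith)

theorem near_quadratic :
    ∀ ε : ℝ, 0 < ε → ∃ c : ℝ, 0 < c ∧ ∀ n d : ℕ, 2 ≤ n → AllStretchable n d →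
      c * (n : ℝ) ^ (2 - ε) ≤ d :=
  assembly gridSpec (by norm_num : (0 : ℝ) ≤ 70) (fun d => ⟨logM_nonneg d, logM_le d⟩)
    Pool.Agent.Be22.Ker.analysisTarget

end Pool.Agent.W_be22fd_h39
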