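import Pool.Agent.W_MP_be22fd_co_nlog.Counting

/-!
# The counting lower bound for the members of one explicit family
-/

set_option autoImplicit false

namespace Pool.Agent.W_be22fd_h39

open Filter Pool.Agent.W_MP_be22fd_co_nlog

/-- The counting inequality of `Pool.Agent.W_MP_be22fd_co_nlog`, using the hypothesis for the
members of the family only. -/
theorem counting_family {n q d D : ℕ} (hn : 8 * q ≤ n) (hn1 : 1 ≤ n) (hdD : d < D) (hodd : Odd D)
    (hall : ∀ be : Fin q × Fin q → Bool, IsStretchable d (fam n (4 * q) (bits q be))) :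
    2 ^ (q * q) ≤ (2 * ((n * n + n * (n * n)) * (2 * D) + 2) * (n * (D + 1))) ^ (n * (D + 1)) *
      (n.factorial * 2 ^ n) := by
  classical
  let f : (Fin q × Fin q → Bool) → Fin n → ℝ → ℝ := fun be => fam n (4 * q) (bits q be)
  have hcode := fun be : Fin q × Fin q → Bool => exists_code hdD hodd
    (fam_arrangement n (4 * q) (bits q be) (abs_bits q be))
    (fam_simple (abs_bits q be) (bits_ne q be))
    (hall be)
  choose s e u hu1 hu2 hu3 using hcode
  have hne : ∀ be x, MvPolynomial.eval (u be) (polyFam n D x) ≠ 0 := by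
    intro be x
    rcases x with ⟨i, j⟩ | ⟨i, j, k⟩
    · rw [polyFam_inl]
      split_ifs with h
      · exact hu1 be i j h
      · simp
    · rw [polyFam_inr]
      split_ifs with h
      · exact hu2 be i j k h.1 h.2.1 h.2.2
      · simp
  -- the code determines the bits
  have hinj : ∀ be be' : Fin q × Fin q → Bool, s be = s be' → e be = e be' →
      (∀ x, 0 < MvPolynomial.eval (u be) (polyFam n D x) *
        MvPolynomial.eval (u be') (polyFam n D x)) → be = be' := by
    intro be be' hs he hx
    funext rs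
    obtain ⟨r, t⟩ := rs
    have hr := r.2
    have ht := t.2
    let i : Fin n := ⟨2 * q + r, by omega⟩
    let j : Fin n := ⟨3 * q + t, by omega⟩
    let k : Fin n := ⟨(2 * q + r) + (3 * q + t) + 1, by omega⟩
    have hij : i ≠ j := by
      intro h; have := congrArg Fin.val h; simp only [i, j] at this; omega
    have hjk : j ≠ k := by
      intro h; have := congrArg Fin.val h; simp only [j, k] at this; omega
    have hik : i ≠ k := by
      intro h; have := congrArg Fin.val h; simp only [i, k] at this; omega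
    have hcr := fun b : Fin q × Fin q → Bool => fam_cross (n := n) (h := 4 * q) (g := bits q b)
      (i := i) (j := j) (k := k) (by simp only [i, j]; omega) (by simp only [j]; omega)
      (by simp only [k]; omega) (by simp only [i, j, k])
    set x : ℝ := (((i : ℕ) : ℝ) + 1) ^ 2 + (((i : ℕ) : ℝ) + 1) * (((j : ℕ) : ℝ) + 1) +
      (((j : ℕ) : ℝ) + 1) ^ 2 with hxdef
    have hb : ∀ b : Fin q × Fin q → Bool,
        bits q b ((i : ℕ) + 1) ((j : ℕ) + 1) = if b (r, t) then 1 else -1 := by
      intro b
      have := bits_at q b r t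
      rw [← this]
      congr 1
      · simp only [i]; omega
      · simp only [j]; omega
    have h1 := hu3 be i j k hij hjk hik x (hcr be).1
    have h2 := hu3 be' i j k hij hjk hik x (hcr be').1
    rw [(hcr be).2, hb be] at h1
    rw [(hcr be').2, hb be', ← hs, ← he] at h2
    have hsij : s be i ≠ s be j := fun h => hij ((s be).injective h)
    have hsjk : s be j ≠ s be k := fun h => hjk ((s be).injective h)
    have hsik : s be i ≠ s be k := fun h => hik ((s be).injective h)
    have h3 := hx (Sum.inl (s be i, s be j))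
    have h4 := hx (Sum.inr (s be i, s be j, s be k))
    rw [polyFam_inl, if_pos hsij] at h3
    rw [polyFam_inr, if_pos (show s be i ≠ s be j ∧ s be j ≠ s be k ∧ s be i ≠ s be k from
      ⟨hsij, hsjk, hsik⟩)] at h4
    set A1 := MvPolynomial.eval (u be) (lcP n D (s be i) (s be j))
    set A2 := MvPolynomial.eval (u be') (lcP n D (s be i) (s be j))
    set B1 := MvPolynomial.eval (u be) (resP n D (s be i) (s be j) (s be k))
    set B2 := MvPolynomial.eval (u be') (resP n D (s be i) (s be j) (s be k))
    have hamp := amp_pos (4 * q)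
    -- combine
    have h5 : 0 < ((if e be k then (1 : ℝ) else -1) * (amp (4 * q) *
        ((if be (r, t) then 1 else -1) / 4) * (A1 * B1))) *
        ((if e be k then (1 : ℝ) else -1) * (amp (4 * q) *
        ((if be' (r, t) then 1 else -1) / 4) * (A2 * B2))) := mul_pos h1 h2
    have h6 : 0 < (A1 * A2) * (B1 * B2) := mul_pos h3 h4
    cases hbe : be (r, t) <;> cases hbe' : be' (r, t)
    · rfl
    · exfalso
      rw [hbe, hbe'] at h5
      have h7 : ((if e be k then (1 : ℝ) else -1) * (amp (4 * q) *
        ((if false = true then 1 else -1) / 4) * (A1 * B1))) *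
        ((if e be k then (1 : ℝ) else -1) * (amp (4 * q) *
        ((if true = true then 1 else -1) / 4) * (A2 * B2))) =
        -(((if e be k then (1 : ℝ) else -1) * (amp (4 * q) / 4)) ^ 2 * ((A1 * A2) * (B1 * B2))) := by
        simp only [if_true, Bool.false_eq_true, if_false]
        ring
      rw [h7] at h5
      have h8 : 0 ≤ ((if e be k then (1 : ℝ) else -1) * (amp (4 * q) / 4)) ^ 2 *
        ((A1 * A2) * (B1 * B2)) := mul_nonneg (sq_nonneg _) h6.le
      linarith
    · exfalso
      rw [hbe, hbe'] at h5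
      have h7 : ((if e be k then (1 : ℝ) else -1) * (amp (4 * q) *
        ((if true = true then 1 else -1) / 4) * (A1 * B1))) *
        ((if e be k then (1 : ℝ) else -1) * (amp (4 * q) *
        ((if false = true then 1 else -1) / 4) * (A2 * B2))) =
        -(((if e be k then (1 : ℝ) else -1) * (amp (4 * q) / 4)) ^ 2 * ((A1 * A2) * (B1 * B2))) := by
        simp only [if_true, Bool.false_eq_true, if_false]
        ring
      rw [h7] at h5
      have h8 : 0 ≤ ((if e be k then (1 : ℝ) else -1) * (amp (4 * q) / 4)) ^ 2 *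
        ((A1 * A2) * (B1 * B2)) := mul_nonneg (sq_nonneg _) h6.le
      linarith
    · rfl
  -- fibres
  have hfib : ∀ se : Equiv.Perm (Fin n) × (Fin n → Bool),
      ((Finset.univ : Finset (Fin q × Fin q → Bool)).filter
        (fun be => (s be, e be) = se)).card ≤
      (2 * ((n * n + n * (n * n)) * (2 * D) + 2) * (n * (D + 1))) ^ (n * (D + 1)) := by
    intro se
    set Fb := (Finset.univ : Finset (Fin q × Fin q → Bool)).filter
        (fun be => (s be, e be) = se) with hFb
    have hmem : ∀ be ∈ Fb, s be = se.1 ∧ e be = se.2 := by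
      intro be hbe
      have := (Finset.mem_filter.mp hbe).2
      exact ⟨congrArg Prod.fst this, congrArg Prod.snd this⟩
    have hsq : ∀ be x, 0 < MvPolynomial.eval (u be) (polyFam n D x) *
        MvPolynomial.eval (u be) (polyFam n D x) := fun be x => mul_self_pos.mpr (hne be x)
    have hinjOn : Set.InjOn u Fb := by
      intro be hbe be' hbe' huu
      apply hinj be be' ((hmem be hbe).1.trans (hmem be' hbe').1.symm)
        ((hmem be hbe).2.trans (hmem be' hbe').2.symm)
      intro x
      rw [← huu]
      exact hsq be x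
    rw [← Finset.card_image_of_injOn hinjOn]
    have hD1 : 1 ≤ D := by omega
    have hbound := sign_patterns_bound (polyFam n D) (2 * D)
      (fun x k => degreeOf_polyFam hD1 x k)
      (by
        simp only [Fintype.card_prod, Fintype.card_fin]
        exact Nat.mul_pos (by omega) (by omega)) (Fb.image u)
      (by
        intro v hv x
        obtain ⟨be, _, rfl⟩ := Finset.mem_image.mp hv
        exact hne be x)
      (by
        intro v hv v' hv' hx
        obtain ⟨be, hbe, rfl⟩ := Finset.mem_image.mp hv
        obtain ⟨be', hbe', rfl⟩ := Finset.mem_image.mp hv'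
        rw [hinj be be' ((hmem be hbe).1.trans (hmem be' hbe').1.symm)
          ((hmem be hbe).2.trans (hmem be' hbe').2.symm) hx])
    simpa only [Fintype.card_sum, Fintype.card_prod, Fintype.card_fin] using hbound
  have hfinal := Finset.card_le_mul_card_image_of_maps_to
    (s := (Finset.univ : Finset (Fin q × Fin q → Bool)))
    (t := (Finset.univ : Finset (Equiv.Perm (Fin n) × (Fin n → Bool))))
    (f := fun be => (s be, e be)) (fun _ _ => Finset.mem_univ _) _ (fun se _ => hfib se)
  simpa only [Finset.card_univ, Fintype.card_fun, Fintype.card_prod, Fintype.card_fin,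
    Fintype.card_bool, Fintype.card_perm] using hfinal

/-- Clean numerical form of the counting inequality. -/
theorem counting_family_clean {n d : ℕ} (hn : 2 ≤ n) (hd : d < n)
    (hall : ∀ be : Fin (n / 8) × Fin (n / 8) → Bool,
      IsStretchable d (fam n (4 * (n / 8)) (bits (n / 8) be))) :
    2 ^ ((n / 8) * (n / 8)) ≤ n ^ (n * (24 * d + 26)) := by
  have h := counting_family (q := n / 8) (D := 2 * d + 1) (by omega) (by omega) (by omega)
    ⟨d, rfl⟩ hall
  refine h.trans ?_
  have h1 : 2 * ((n * n + n * (n * n)) * (2 * (2 * d + 1)) + 2) * (n * (2 * d + 1 + 1)) ≤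
      n ^ 12 := by
    have e1 : 2 * d + 1 ≤ 2 * n := by omega
    have e2 : n * n ≤ n * (n * n) := Nat.mul_le_mul_left n (by nlinarith)
    have e3 : (n * n + n * (n * n)) * (2 * (2 * d + 1)) ≤ (2 * n ^ 3) * (4 * n) := by
      apply Nat.mul_le_mul
      · calc n * n + n * (n * n) ≤ n * (n * n) + n * (n * n) := by omega
          _ = 2 * n ^ 3 := by ring
      · omega
    have e4 : 2 ≤ n ^ 4 := by
      calc 2 ≤ n := hn
        _ = n ^ 1 := (pow_one n).symm
        _ ≤ n ^ 4 := Nat.pow_le_pow_right (by omega) (by norm_num)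
    have e5 : 2 * ((n * n + n * (n * n)) * (2 * (2 * d + 1)) + 2) ≤ 18 * n ^ 4 := by
      have : (2 * n ^ 3) * (4 * n) = 8 * n ^ 4 := by ring
      omega
    have e6 : n * (2 * d + 1 + 1) ≤ 2 * n ^ 2 := by
      calc n * (2 * d + 1 + 1) ≤ n * (2 * n) := Nat.mul_le_mul_left n (by omega)
        _ = 2 * n ^ 2 := by ring
    calc 2 * ((n * n + n * (n * n)) * (2 * (2 * d + 1)) + 2) * (n * (2 * d + 1 + 1))
        ≤ (18 * n ^ 4) * (2 * n ^ 2) := Nat.mul_le_mul e5 e6
      _ = 36 * n ^ 6 := by ring
      _ ≤ n ^ 6 * n ^ 6 := by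
          apply Nat.mul_le_mul_right
          calc 36 ≤ 2 ^ 6 := by norm_num
            _ ≤ n ^ 6 := Nat.pow_le_pow_left hn 6
      _ = n ^ 12 := by ring
  have h2 : n.factorial ≤ n ^ n := Nat.factorial_le_pow n
  have h3 : 2 ^ n ≤ n ^ n := Nat.pow_le_pow_left hn n
  calc (2 * ((n * n + n * (n * n)) * (2 * (2 * d + 1)) + 2) * (n * (2 * d + 1 + 1))) ^
        (n * (2 * d + 1 + 1)) * (n.factorial * 2 ^ n)
      ≤ (n ^ 12) ^ (n * (2 * d + 1 + 1)) * (n ^ n * n ^ n) :=
        Nat.mul_le_mul (Nat.pow_le_pow_left h1 _) (Nat.mul_le_mul h2 h3)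
    _ = n ^ (n * (24 * d + 26)) := by
        rw [← pow_mul, ← pow_add, ← pow_add]
        congr 1
        ring

/-- **Lower bound for the degree.** -/
theorem degree_lower_bound_family :
    ∀ᶠ n : ℕ in atTop, ∀ d : ℕ,
      (∀ be : Fin (n / 8) × Fin (n / 8) → Bool,
        IsStretchable d (fam n (4 * (n / 8)) (bits (n / 8) be))) →
      (n : ℝ) / (20000 * Real.log n) ≤ d := by
  have hlim : Tendsto (fun n : ℕ => Real.log (n : ℝ) / (n : ℝ)) atTop (nhds 0) := by
    have h1 : Tendsto (fun x : ℝ => Real.log x / x) atTop (nhds 0) := by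
      have := Real.tendsto_pow_log_div_mul_add_atTop 1 0 1 one_ne_zero
      simpa using this
    exact h1.comp tendsto_natCast_atTop_atTop
  have hev : ∀ᶠ n : ℕ in atTop, Real.log (n : ℝ) / (n : ℝ) < 1 / 40000 :=
    hlim.eventually (gt_mem_nhds (by norm_num))
  filter_upwards [hev, eventually_ge_atTop 16] with n hlog hn d hall
  have hn2 : 2 ≤ n := by omega
  have hnR : (16 : ℝ) ≤ n := by exact_mod_cast hn
  have hnpos : (0 : ℝ) < n := by linarith
  have hlogpos : 0 < Real.log (n : ℝ) := Real.log_pos (by linarith)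
  have hlog1 : 1 ≤ Real.log (n : ℝ) := by
    rw [Real.le_log_iff_exp_le hnpos]
    have := Real.exp_one_lt_d9
    linarith
  rw [div_le_iff₀ (by positivity)]
  rcases lt_or_ge d n with hd | hd
  · have h1 := counting_family_clean hn2 hd hall
    have h2 : ((2 : ℝ)) ^ ((n / 8) * (n / 8)) ≤ (n : ℝ) ^ (n * (24 * d + 26)) := by
      exact_mod_cast h1
    have h3 := Real.log_le_log (by positivity) h2
    rw [Real.log_pow, Real.log_pow] at h3
    push_cast at h3
    have h4 : (n : ℝ) / 16 ≤ ((n / 8 : ℕ) : ℝ) := by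
      have e1 : n ≤ 16 * (n / 8) := by omega
      have e2 : (n : ℝ) ≤ 16 * ((n / 8 : ℕ) : ℝ) := by exact_mod_cast e1
      linarith
    have hlog2 : (0.69 : ℝ) ≤ Real.log 2 := by
      have := Real.log_two_gt_d9
      linarith
    have h5 : ((n : ℝ) / 16) * ((n : ℝ) / 16) * 0.69 ≤
        ((n / 8 : ℕ) : ℝ) * ((n / 8 : ℕ) : ℝ) * Real.log 2 := by
      apply mul_le_mul _ hlog2 (by norm_num) (by positivity)
      apply mul_le_mul h4 h4 (by positivity) (by positivity)
    have h6 : ((n : ℝ) / 16) * ((n : ℝ) / 16) * 0.69 ≤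
        n * (24 * d + 26) * Real.log n := h5.trans h3
    have h7 : (n : ℝ) * 0.69 / 256 ≤ (24 * d + 26) * Real.log n := by
      have e1 : (n : ℝ) * ((n : ℝ) * 0.69 / 256) ≤ n * ((24 * d + 26) * Real.log n) := by
        calc (n : ℝ) * ((n : ℝ) * 0.69 / 256) = ((n : ℝ) / 16) * ((n : ℝ) / 16) * 0.69 := by ring
          _ ≤ n * (24 * d + 26) * Real.log n := h6
          _ = _ := by ring
      exact le_of_mul_le_mul_left e1 hnpos
    have h8 : Real.log (n : ℝ) < 1 / 40000 * n := by
      rwa [div_lt_iff₀ hnpos] at hlog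
    nlinarith
  · have hdR : (n : ℝ) ≤ d := by exact_mod_cast hd
    nlinarith

end Pool.Agent.W_be22fd_h39
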