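import Pool.Agent.W_be22fd_h39.ClassDefs
import Pool.Agent.W_be22fd_h39.CountFamily

/-!
# The lines `y = t x - t ^ 3` and their resolutions
-/

namespace Pool.Agent.W_be22fd_h39

open Filter Polynomial
open Pool.Agent.W_MP_be22fd_co
open Pool.Agent.W_MP_be22fd_co_nlog (tv fam bits bump amp abs_bits bits_ne fam_arrangement
  fam_simple amp_bump_le amp_bump_lip cross_near tv_injective)

theorem slope_strictMono (n : ℕ) {i j : Fin n} (hij : i < j) : slope n i < slope n j := by
  have h : (i : ℕ) < (j : ℕ) := hij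
  unfold slope
  split_ifs <;> push_cast <;> omega

theorem slope_injective (n : ℕ) {i j : Fin n} (hij : i ≠ j) : slope n i ≠ slope n j := by
  rcases lt_or_gt_of_ne hij with h | h
  · exact (slope_strictMono n h).ne
  · exact (slope_strictMono n h).ne'

theorem ev_cubic (n : ℕ) (i : Fin n) (x : ℝ) :
    ev (cubicLines n) i x = (slope n i : ℝ) * x - (slope n i : ℝ) ^ 3 := by
  unfold ev cubicLines
  simp

theorem ev_cubic_sub (n : ℕ) (i j : Fin n) (x : ℝ) :
    ev (cubicLines n) j x - ev (cubicLines n) i x =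
      ((slope n j : ℝ) - slope n i) *
        (x - ((slope n i : ℝ) ^ 2 + slope n i * slope n j + (slope n j : ℝ) ^ 2)) := by
  rw [ev_cubic, ev_cubic]
  ring

theorem slope_sub_pos (n : ℕ) {i j : Fin n} (hij : i < j) :
    (1 : ℝ) ≤ (slope n j : ℝ) - slope n i := by
  have h := slope_strictMono n hij
  have h2 : (1 : ℤ) ≤ slope n j - slope n i := by omega
  exact_mod_cast h2

theorem cubic_eq_iff (n : ℕ) {i j : Fin n} (hij : i ≠ j) (x : ℝ) :
    ev (cubicLines n) i x = ev (cubicLines n) j x ↔
      x = (slope n i : ℝ) ^ 2 + slope n i * slope n j + (slope n j : ℝ) ^ 2 := by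
  have h1 := ev_cubic_sub n i j x
  have h2 : (slope n j : ℝ) - slope n i ≠ 0 := by
    rw [sub_ne_zero]
    exact_mod_cast (slope_injective n hij).symm
  constructor
  · intro h
    rw [h, sub_self] at h1
    rcases mul_eq_zero.1 h1.symm with h3 | h3
    · exact absurd h3 h2
    · linarith
  · intro h
    rw [← h, sub_self, mul_zero] at h1
    linarith

theorem base_cubicLines (n : ℕ) : Base (cubicLines n) := by
  have key : ∀ i j : Fin n, i < j →
      (∀ x, x < (slope n i : ℝ) ^ 2 + slope n i * slope n j + (slope n j : ℝ) ^ 2 →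
        ev (cubicLines n) j x < ev (cubicLines n) i x) ∧
      (∀ x, (slope n i : ℝ) ^ 2 + slope n i * slope n j + (slope n j : ℝ) ^ 2 < x →
        ev (cubicLines n) i x < ev (cubicLines n) j x) := by
    intro i j hij
    have hs := slope_sub_pos n hij
    constructor
    · intro x hx
      have h1 := ev_cubic_sub n i j x
      have h2 := mul_neg_of_pos_of_neg (show (0 : ℝ) < (slope n j : ℝ) - slope n i by linarith)
        (sub_neg.2 hx)
      linarith
    · intro x hx
      have h1 := ev_cubic_sub n i j x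
      have h2 := mul_pos (show (0 : ℝ) < (slope n j : ℝ) - slope n i by linarith)
        (sub_pos.2 hx)
      linarith
  refine ⟨⟨fun i => (cubicLines n i).continuous, fun i j hij => ?_⟩, fun i j hij => ?_,
    fun i j hij y _ => ?_⟩
  · rcases lt_or_gt_of_ne hij with h | h
    · exact ⟨_, (cubic_eq_iff n hij _).2 rfl, Or.inr (key i j h)⟩
    · refine ⟨_, ((cubic_eq_iff n hij.symm _).2 rfl).symm, Or.inl ⟨(key j i h).1, (key j i h).2⟩⟩
  · filter_upwards [eventually_lt_atBot
      ((slope n i : ℝ) ^ 2 + slope n i * slope n j + (slope n j : ℝ) ^ 2)] with x hx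
    exact (key i j hij).1 x hx
  · have h2 : (slope n i : ℝ) ≠ slope n j := by exact_mod_cast slope_injective n hij
    have h3 : ∀ l : Fin n, (cubicLines n l).derivative.eval y = slope n l := by
      intro l
      unfold cubicLines
      rw [derivative_sub, derivative_C, derivative_C_mul, derivative_X]
      simp
    rw [h3, h3]
    exact h2

theorem sum_zero_of_meet (n : ℕ) {i j k : Fin n} (hij : i ≠ j) (hik : i ≠ k) (hjk : j ≠ k)
    {y : ℝ} (h1 : ev (cubicLines n) i y = ev (cubicLines n) j y)
    (h2 : ev (cubicLines n) i y = ev (cubicLines n) k y) :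
    slope n i + slope n j + slope n k = 0 := by
  have e1 := (cubic_eq_iff n hij y).1 h1
  have e2 := (cubic_eq_iff n hik y).1 h2
  have e3 : ((slope n j : ℝ) - slope n k) * ((slope n i : ℝ) + slope n j + slope n k) = 0 := by
    linear_combination e2 - e1
  rcases mul_eq_zero.1 e3 with h | h
  · exfalso
    apply slope_injective n hjk
    exact_mod_cast sub_eq_zero.1 h
  · exact_mod_cast h

theorem noFour_cubicLines (n : ℕ) : NoFour (ev (cubicLines n)) := by
  rintro i j k l hij hik hil hjk hjl hkl y ⟨h1, h2, h3⟩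
  have e1 := sum_zero_of_meet n hij hik hjk h1 h2
  have e2 := sum_zero_of_meet n hij hil hjl h1 h3
  exact slope_injective n hkl (by omega)

theorem meet_of_sum_zero (n : ℕ) {i j k : Fin n} (hij : i ≠ j) (hjk : j ≠ k)
    (h : slope n i + slope n j + slope n k = 0) : ∃ y, Meet (ev (cubicLines n)) i j k y := by
  have h' : (slope n i : ℝ) + slope n j + slope n k = 0 := by exact_mod_cast h
  refine ⟨(slope n i : ℝ) ^ 2 + slope n i * slope n j + (slope n j : ℝ) ^ 2,
    (cubic_eq_iff n hij _).2 rfl, (cubic_eq_iff n hjk _).2 ?_⟩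
  have e : (slope n i : ℝ) = -(slope n j : ℝ) - slope n k := by linarith
  rw [e]
  ring

/-- the permutation reversing the first `4 ⌊n / 8⌋` indices -/
def rv (n : ℕ) (i : Fin n) : Fin n :=
  if h : (i : ℕ) < 4 * (n / 8) then ⟨4 * (n / 8) - 1 - i, by omega⟩ else i

theorem rv_rv (n : ℕ) (i : Fin n) : rv n (rv n i) = i := by
  unfold rv
  by_cases h : (i : ℕ) < 4 * (n / 8)
  · rw [dif_pos h]
    rw [dif_pos (by simp only; omega)]
    apply Fin.ext
    simp only
    omega
  · rw [dif_neg h, dif_neg h]

def rvPerm (n : ℕ) : Equiv.Perm (Fin n) := ⟨rv n, rv n, rv_rv n, rv_rv n⟩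

theorem rv_injective (n : ℕ) : Function.Injective (rv n) := (rvPerm n).injective

theorem tv_rv (n : ℕ) (i : Fin n) : tv (4 * (n / 8)) (rv n i) = slope n i := by
  unfold tv slope rv
  by_cases h : (i : ℕ) < 4 * (n / 8)
  · rw [dif_pos h, if_pos h, if_pos (by simp only; omega)]
    simp only
    omega
  · rw [dif_neg h, if_neg h, if_neg h]

/-- the relabelled family -/
noncomputable def famL (n : ℕ) (be : Fin (n / 8) × Fin (n / 8) → Bool) (i : Fin n) : ℝ → ℝ :=
  fam n (4 * (n / 8)) (bits (n / 8) be) (rv n i)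

variable {n : ℕ} {be : Fin (n / 8) × Fin (n / 8) → Bool}

theorem famL_eq (i : Fin n) (x : ℝ) :
    ∃ δ : ℝ, |δ| ≤ 1 / 64 ∧ famL n be i x = ev (cubicLines n) i x + δ := by
  refine ⟨amp (4 * (n / 8)) * bump (4 * (n / 8)) (bits (n / 8) be)
    (tv (4 * (n / 8)) (rv n i)) x, amp_bump_le (abs_bits _ _) _ _, ?_⟩
  rw [ev_cubic, ← tv_rv]
  rfl

theorem famL_arrangement : IsArrangement (famL n be) := by
  obtain ⟨h1, h2⟩ := fam_arrangement n (4 * (n / 8)) (bits (n / 8) be) (abs_bits (n / 8) be)
  refine ⟨fun i => h1 _, fun i j hij => ?_⟩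
  obtain ⟨x, hx, h⟩ := h2 (rv n i) (rv n j) (fun h => hij (rv_injective n h))
  exact ⟨x, hx, h⟩

theorem famL_simple : IsSimple (famL n be) := by
  intro i j k hij hjk hik x
  exact fam_simple (abs_bits (n / 8) be) (bits_ne (n / 8) be) (rv n i) (rv n j) (rv n k)
    (fun h => hij (rv_injective n h)) (fun h => hjk (rv_injective n h))
    (fun h => hik (rv_injective n h)) x

theorem famL_labelled : Labelled (famL n be) := by
  intro i j hij
  have hs := slope_sub_pos n hij
  filter_upwards [eventually_lt_atBot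
    ((slope n i : ℝ) ^ 2 + slope n i * slope n j + (slope n j : ℝ) ^ 2 - 1)] with x hx
  obtain ⟨δ, hδ, e1⟩ := famL_eq (be := be) i x
  obtain ⟨δ', hδ', e2⟩ := famL_eq (be := be) j x
  have h1 := ev_cubic_sub n i j x
  rw [abs_le] at hδ hδ'
  have h2 : ((slope n j : ℝ) - slope n i) *
      (x - ((slope n i : ℝ) ^ 2 + slope n i * slope n j + (slope n j : ℝ) ^ 2)) ≤ -1 := by
    nlinarith
  rw [e1, e2]
  linarith [hδ.1, hδ'.2]

theorem famL_side (i j k : Fin n) (hij : i < j) (hjk : j < k)
    (hm : ∀ y, ¬ Meet (ev (cubicLines n)) i j k y) :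
    SameSide (famL n be) (ev (cubicLines n)) i j k := by
  intro x u hx hu
  have hik := hij.trans hjk
  have hs1 := slope_sub_pos n hij
  have hs2 := slope_sub_pos n hjk
  have hs1z := slope_strictMono n hij
  have hs2z := slope_strictMono n hjk
  have hsum : slope n i + slope n j + slope n k ≠ 0 := by
    intro h
    obtain ⟨y, hy⟩ := meet_of_sum_zero n hij.ne hjk.ne h
    exact hm y hy
  have hu' := (cubic_eq_iff n hik.ne u).1 hu
  have hnear := cross_near (h := 4 * (n / 8)) (g := bits (n / 8) be) (abs_bits _ _)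
    (i := rv n i) (j := rv n k) (fun h => hik.ne (rv_injective n h)) x hx
  rw [tv_rv, tv_rv] at hnear
  have hcast : ((slope n i ^ 2 + slope n i * slope n k + slope n k ^ 2 : ℤ) : ℝ) =
      (slope n i : ℝ) ^ 2 + slope n i * slope n k + (slope n k : ℝ) ^ 2 := by push_cast; ring
  rw [hcast, ← hu', abs_le] at hnear
  obtain ⟨δ, hδ, e1⟩ := famL_eq (be := be) i x
  obtain ⟨δ', hδ', e2⟩ := famL_eq (be := be) j x
  rw [abs_le] at hδ hδ'
  have h1 := ev_cubic_sub n i j x
  have h2 := ev_cubic_sub n i j u
  set A : ℝ := (slope n j : ℝ) - slope n i with hA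
  set N : ℝ := u - ((slope n i : ℝ) ^ 2 + slope n i * slope n j + (slope n j : ℝ) ^ 2) with hN
  have hNz : N = (((slope n k - slope n j) * (slope n i + slope n j + slope n k) : ℤ) : ℝ) := by
    rw [hN, hu']
    push_cast
    ring
  have e3 : x - ((slope n i : ℝ) ^ 2 + slope n i * slope n j + (slope n j : ℝ) ^ 2) =
      (x - u) + N := by
    rw [hN]
    ring
  rw [e3] at h1
  have e4 : famL n be j x - famL n be i x = A * ((x - u) + N) + (δ' - δ) := by
    rw [e1, e2, ← h1]
    ring
  rcases lt_or_gt_of_ne hsum with h | h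
  · have hN1 : N ≤ -1 := by
      rw [hNz]
      have : (slope n k - slope n j) * (slope n i + slope n j + slope n k) ≤ -1 := by
        have h5 : 1 ≤ slope n k - slope n j := by omega
        have h6 : slope n i + slope n j + slope n k ≤ -1 := by omega
        nlinarith
      exact_mod_cast this
    have h3 : A * ((x - u) + N) ≤ -(31 / 32) := by nlinarith [hnear.1, hnear.2]
    have h4 : A * N < 0 := mul_neg_of_pos_of_neg (by linarith) (by linarith)
    constructor
    · intro h5
      exfalso
      linarith [hδ.1, hδ'.2]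
    · intro _
      linarith
  · have hN1 : 1 ≤ N := by
      rw [hNz]
      have : 1 ≤ (slope n k - slope n j) * (slope n i + slope n j + slope n k) := by
        have h5 : 1 ≤ slope n k - slope n j := by omega
        have h6 : 1 ≤ slope n i + slope n j + slope n k := by omega
        nlinarith
      exact_mod_cast this
    have h3 : 31 / 32 ≤ A * ((x - u) + N) := by nlinarith [hnear.1, hnear.2]
    have h4 : 0 < A * N := mul_pos (by linarith) (by linarith)
    constructor
    · intro _
      linarith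
    · intro h5
      exfalso
      linarith [hδ.2, hδ'.1]

theorem famL_resolves : Resolves (famL n be) (cubicLines n) :=
  ⟨famL_arrangement, famL_simple, famL_labelled, famL_side⟩

theorem isStretchable_of_famL {d : ℕ} (h : Stretchable d (famL n be)) :
    Pool.Agent.W_MP_be22fd_co_nlog.IsStretchable d
      (fam n (4 * (n / 8)) (bits (n / 8) be)) := by
  obtain ⟨p, hp, hA, Φ, σ, hσ⟩ := h
  refine ⟨p, hp, ⟨hA.cont, fun i j hij => ?_⟩, Φ, (rvPerm n).trans σ, fun i => ?_⟩
  · obtain ⟨x, hx, h⟩ := hA.cross i j hij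
    exact ⟨x, hx, h⟩
  · have h1 := hσ (rv n i)
    have h2 : famL n be (rv n i) = fam n (4 * (n / 8)) (bits (n / 8) be) i := by
      unfold famL
      rw [rv_rv]
    rw [h2] at h1
    exact h1

theorem lower_cubicLines : ∀ᶠ n : ℕ in atTop, ∀ d : ℕ,
    (∀ f : Fin n → ℝ → ℝ, Resolves f (cubicLines n) → Stretchable d f) →
      (n : ℝ) / (20000 * Real.log n) ≤ d := by
  filter_upwards [degree_lower_bound_family] with n hn d hd
  exact hn d fun be => isStretchable_of_famL (hd _ famL_resolves)

end Pool.Agent.W_be22fd_h39
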