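import Mathlib

/-!
MP_be22fd_co, lower bound `n ^ (2 - ε)`: number of wires, exponents and the final asymptotics.

The word is built from a list `[X_1, ..., X_J]` of natural numbers.  A wire which is created at
level `i` has slope at most `A_i = sum_{l ≤ i} (X_l ^ 2 + 1)` and is multiplied by at most
`(2 A_i + 1) X_j + 1` at every later level `j`; `2 X_i ^ 2 (ns_{i-1} + 1)` wires are created at
level `i`, `ns_{i-1} = X_{i-1} ^ 2 + 1`.  `sz 0 0 L` is the resulting bound for the number of inner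
wires.  With `X_i = floor (n ^ (θ / (J - i + 2)))` (`Lst n θ J`) one gets
`sz 0 0 L ≤ C n ^ (θ (S J + 2))`, `S J = 1/2 + ... + 1/(J+1)`, while the product of the gains is at
least `n ^ (2 θ S J) (c / log n) ^ J`.
-/

set_option autoImplicit false

namespace Pool.Agent.W_be22fd_h39

open Filter Topology

/-- Number of copies of a wire of slope `a` after the levels in the list. -/
def fac (a : ℕ) : List ℕ → ℕ
  | [] => 1
  | X :: L => ((2 * a + 1) * X + 1) * fac a L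

/-- Bound for the number of inner wires created at the levels in the list, if before these levels
the slopes are at most `A` and the number of outer syncs (of each kind) is `ns`. -/
def sz (A ns : ℕ) : List ℕ → ℕ
  | [] => 0
  | X :: L => X * X * (2 * ns + 2) * fac (A + X * X + 1) L + sz (A + X * X + 1) (X * X + 1) L

/-- Number of outer syncs of each kind after the levels in the list. -/
def nsL (ns : ℕ) : List ℕ → ℕ
  | [] => ns
  | X :: L => nsL (X * X + 1) L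

/-- `1/2 + ... + 1/(m+1)` -/
noncomputable def S : ℕ → ℝ
  | 0 => 0
  | m + 1 => S m + 1 / ((m : ℝ) + 2)

/-- The list `[floor (n ^ (θ / (m + 1))), ..., floor (n ^ (θ / 2))]`. -/
noncomputable def Lst (n : ℕ) (θ : ℝ) : ℕ → List ℕ
  | 0 => []
  | m + 1 => ⌊(n : ℝ) ^ (θ / ((m : ℝ) + 2))⌋₊ :: Lst n θ m

theorem S_nonneg (m : ℕ) : 0 ≤ S m := by
  induction m with
  | zero => exact le_refl _
  | succ m ih => unfold S; positivity

theorem S_mono_succ (m : ℕ) : S m ≤ S (m + 1) := by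
  have : (0 : ℝ) ≤ 1 / ((m : ℝ) + 2) := by positivity
  show S m ≤ S m + _
  linarith

theorem S_eq (m : ℕ) : S m = ∑ i ∈ Finset.range m, (1 / ((i : ℝ) + 2)) := by
  induction m with
  | zero => simp [S]
  | succ m ih => rw [Finset.sum_range_succ, ← ih]; rfl

theorem S_tendsto : Tendsto S atTop atTop := by
  have h0 := Real.tendsto_sum_range_one_div_nat_succ_atTop
  have h1 : ∀ m, S m = (∑ i ∈ Finset.range (m + 1), (1 / ((i : ℝ) + 1))) - 1 := by
    intro m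
    rw [Finset.sum_range_succ', S_eq]
    have h2 : ∀ i ∈ Finset.range m, (1 / ((i : ℝ) + 2)) = 1 / (((i + 1 : ℕ) : ℝ) + 1) := by
      intro i _
      push_cast
      ring_nf
    rw [Finset.sum_congr rfl h2]
    norm_num
  rw [show S = fun m => (∑ i ∈ Finset.range (m + 1), (1 / ((i : ℝ) + 1))) - 1 from funext h1]
  exact tendsto_atTop_add_const_right _ (-1) (h0.comp (tendsto_add_atTop_nat 1))

section size

variable {θ : ℝ} {n : ℕ}

theorem X_le (hn : 1 ≤ n) (m : ℕ) :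
    ((⌊(n : ℝ) ^ (θ / ((m : ℝ) + 2))⌋₊ : ℕ) : ℝ) ≤ (n : ℝ) ^ (θ / ((m : ℝ) + 2)) :=
  Nat.floor_le (Real.rpow_nonneg (Nat.cast_nonneg n) _)

theorem one_le_pw (hn : 1 ≤ n) {t : ℝ} (ht : 0 ≤ t) : (1 : ℝ) ≤ (n : ℝ) ^ t :=
  Real.one_le_rpow (by exact_mod_cast hn) ht

theorem pw_le (hn : 1 ≤ n) {s t : ℝ} (h : s ≤ t) : (n : ℝ) ^ s ≤ (n : ℝ) ^ t :=
  Real.rpow_le_rpow_of_exponent_le (by exact_mod_cast hn) h

theorem pw_add (hn : 1 ≤ n) (s t : ℝ) : (n : ℝ) ^ (s + t) = (n : ℝ) ^ s * (n : ℝ) ^ t :=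
  Real.rpow_add (by exact_mod_cast hn) s t

theorem fac_le (hn : 1 ≤ n) (hθ : 0 ≤ θ) (a m : ℕ) :
    (fac a (Lst n θ m) : ℝ) ≤ (2 * (a : ℝ) + 2) ^ m * (n : ℝ) ^ (θ * S m) := by
  induction m with
  | zero => simp [Lst, fac, S]
  | succ m ih =>
    have hX := X_le (θ := θ) hn m
    have h1 : (1 : ℝ) ≤ (n : ℝ) ^ (θ / ((m : ℝ) + 2)) := one_le_pw hn (by positivity)
    set P : ℝ := (n : ℝ) ^ (θ / ((m : ℝ) + 2)) with hP
    have h2 : (n : ℝ) ^ (θ * S (m + 1)) = (n : ℝ) ^ (θ * S m) * P := by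
      rw [hP, ← pw_add hn]
      congr 1
      show θ * (S m + 1 / ((m : ℝ) + 2)) = _
      ring
    have h3 : (((2 * a + 1) * ⌊(n : ℝ) ^ (θ / ((m : ℝ) + 2))⌋₊ + 1 : ℕ) : ℝ) ≤
        (2 * (a : ℝ) + 2) * P := by
      push_cast
      have : (2 * (a : ℝ) + 1) * (⌊(n : ℝ) ^ (θ / ((m : ℝ) + 2))⌋₊ : ℝ) ≤
          (2 * (a : ℝ) + 1) * P := mul_le_mul_of_nonneg_left hX (by positivity)
      nlinarith
    show ((((2 * a + 1) * ⌊(n : ℝ) ^ (θ / ((m : ℝ) + 2))⌋₊ + 1) * fac a (Lst n θ m) : ℕ) : ℝ) ≤ _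
    rw [Nat.cast_mul, h2]
    calc (((2 * a + 1) * ⌊(n : ℝ) ^ (θ / ((m : ℝ) + 2))⌋₊ + 1 : ℕ) : ℝ) *
          (fac a (Lst n θ m) : ℝ) ≤
        ((2 * (a : ℝ) + 2) * P) * ((2 * (a : ℝ) + 2) ^ m * (n : ℝ) ^ (θ * S m)) :=
          mul_le_mul h3 ih (Nat.cast_nonneg _) (by positivity)
      _ = _ := by ring

theorem sz_le (hθ : 0 ≤ θ) (m : ℕ) : ∀ a : ℝ, 0 ≤ a → ∃ C : ℝ, 0 ≤ C ∧ ∀ n : ℕ, 1 ≤ n →
    ∀ A ns : ℕ, (A : ℝ) ≤ a * (n : ℝ) ^ (2 * θ / ((m : ℝ) + 2)) →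
      (ns : ℝ) ≤ a * (n : ℝ) ^ (2 * θ / ((m : ℝ) + 2)) →
      (sz A ns (Lst n θ m) : ℝ) ≤ C * (n : ℝ) ^ (θ * (S m + 2)) := by
  induction m with
  | zero =>
    intro a _
    exact ⟨0, le_refl _, fun n hn A ns _ _ => by simp [Lst, sz]⟩
  | succ m ih =>
    intro a ha
    obtain ⟨C, hC, hih⟩ := ih (a + 2) (by linarith)
    refine ⟨(2 * a + 2) * (2 * (a + 2) + 2) ^ m + C, by positivity, ?_⟩
    intro n hn A ns hA hns
    push_cast at hA hns
    set X : ℕ := ⌊(n : ℝ) ^ (θ / ((m : ℝ) + 2))⌋₊ with hX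
    have hXle : (X : ℝ) ≤ (n : ℝ) ^ (θ / ((m : ℝ) + 2)) := X_le hn m
    have hm2 : (0 : ℝ) < (m : ℝ) + 2 := by positivity
    have hm3 : (0 : ℝ) < (m : ℝ) + 3 := by positivity
    set Q : ℝ := (n : ℝ) ^ (2 * θ / ((m : ℝ) + 2)) with hQ
    have hQ1 : 1 ≤ Q := one_le_pw hn (by positivity)
    have hXX : (X : ℝ) * X ≤ Q := by
      have : Q = (n : ℝ) ^ (θ / ((m : ℝ) + 2)) * (n : ℝ) ^ (θ / ((m : ℝ) + 2)) := by
        rw [hQ, ← pw_add hn]
        congr 1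
        ring
      rw [this]
      exact mul_le_mul hXle hXle (Nat.cast_nonneg _) (by positivity)
    have hQ3 : (n : ℝ) ^ (2 * θ / ((m : ℝ) + 1 + 2)) ≤ Q := by
      refine pw_le hn ?_
      apply div_le_div_of_nonneg_left (by positivity) hm2 (by linarith)
    have hA' : ((A + X * X + 1 : ℕ) : ℝ) ≤ (a + 2) * Q := by
      push_cast
      have := mul_le_mul_of_nonneg_left hQ3 ha
      nlinarith
    have hns' : ((X * X + 1 : ℕ) : ℝ) ≤ (a + 2) * Q := by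
      push_cast
      nlinarith
    have h1 := hih n hn (A + X * X + 1) (X * X + 1) hA' hns'
    have h2 : (C : ℝ) * (n : ℝ) ^ (θ * (S m + 2)) ≤ C * (n : ℝ) ^ (θ * (S (m + 1) + 2)) := by
      refine mul_le_mul_of_nonneg_left (pw_le hn ?_) hC
      have := S_mono_succ m
      nlinarith
    have hf := fac_le (θ := θ) hn hθ (A + X * X + 1) m
    have h3 : (2 * ((A + X * X + 1 : ℕ) : ℝ) + 2) ^ m ≤
        (2 * (a + 2) + 2) ^ m * (n : ℝ) ^ (2 * θ * m / ((m : ℝ) + 2)) := by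
      have h4 : (n : ℝ) ^ (2 * θ * m / ((m : ℝ) + 2)) = Q ^ m := by
        rw [hQ, ← Real.rpow_natCast, ← Real.rpow_mul (Nat.cast_nonneg n)]
        congr 1
        ring
      rw [h4, ← mul_pow]
      refine pow_le_pow_left₀ (by positivity) ?_ m
      nlinarith
    have h5 : (2 * (ns : ℝ) + 2) ≤ (2 * a + 2) * (n : ℝ) ^ (2 * θ / ((m : ℝ) + 3)) := by
      have h6 : (1 : ℝ) ≤ (n : ℝ) ^ (2 * θ / ((m : ℝ) + 3)) := one_le_pw hn (by positivity)
      have h7 : (m : ℝ) + 1 + 2 = (m : ℝ) + 3 := by ring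
      rw [h7] at hns
      nlinarith
    have h8 : ((X * X * (2 * ns + 2) * fac (A + X * X + 1) (Lst n θ m) : ℕ) : ℝ) ≤
        (2 * a + 2) * (2 * (a + 2) + 2) ^ m * (n : ℝ) ^ (θ * (S (m + 1) + 2)) := by
      push_cast
      have h9 : (n : ℝ) ^ (2 * θ / ((m : ℝ) + 2)) * (n : ℝ) ^ (2 * θ / ((m : ℝ) + 3)) *
          ((n : ℝ) ^ (2 * θ * m / ((m : ℝ) + 2)) * (n : ℝ) ^ (θ * S m)) ≤
          (n : ℝ) ^ (θ * (S (m + 1) + 2)) := by
        rw [← pw_add hn, ← pw_add hn, ← pw_add hn]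
        refine pw_le hn ?_
        show _ ≤ θ * (S m + 1 / ((m : ℝ) + 2) + 2)
        have h10 : 2 / ((m : ℝ) + 2) + 2 / ((m : ℝ) + 3) + 2 * m / ((m : ℝ) + 2) ≤
            1 / ((m : ℝ) + 2) + 2 := by
          rw [div_add_div _ _ hm2.ne' hm3.ne', div_add_div _ _ (by positivity) hm2.ne',
            div_add' _ _ _ hm2.ne', div_le_div_iff₀ (by positivity) hm2]
          have hm0 : (0 : ℝ) ≤ m := Nat.cast_nonneg m
          nlinarith [mul_nonneg hm0 hm0, mul_nonneg (mul_nonneg hm0 hm0) hm0]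
        have h11 := mul_le_mul_of_nonneg_left h10 hθ
        calc 2 * θ / ((m : ℝ) + 2) + 2 * θ / ((m : ℝ) + 3) +
              (2 * θ * m / ((m : ℝ) + 2) + θ * S m) =
            θ * (2 / ((m : ℝ) + 2) + 2 / ((m : ℝ) + 3) + 2 * m / ((m : ℝ) + 2)) + θ * S m := by
              ring
          _ ≤ θ * (1 / ((m : ℝ) + 2) + 2) + θ * S m := by linarith
          _ = _ := by ring
      calc (X : ℝ) * X * (2 * ns + 2) * (fac (A + X * X + 1) (Lst n θ m) : ℝ) ≤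
          Q * ((2 * a + 2) * (n : ℝ) ^ (2 * θ / ((m : ℝ) + 3))) *
            (((2 * (a + 2) + 2) ^ m * (n : ℝ) ^ (2 * θ * m / ((m : ℝ) + 2))) *
              (n : ℝ) ^ (θ * S m)) := by
            refine mul_le_mul (mul_le_mul hXX h5 (by positivity) (by positivity)) (hf.trans ?_)
              (Nat.cast_nonneg _) (by positivity)
            exact mul_le_mul_of_nonneg_right h3 (by positivity)
        _ = (2 * a + 2) * (2 * (a + 2) + 2) ^ m *
            ((n : ℝ) ^ (2 * θ / ((m : ℝ) + 2)) * (n : ℝ) ^ (2 * θ / ((m : ℝ) + 3)) *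
              ((n : ℝ) ^ (2 * θ * m / ((m : ℝ) + 2)) * (n : ℝ) ^ (θ * S m))) := by
            rw [hQ]; ring
        _ ≤ _ := mul_le_mul_of_nonneg_left h9 (by positivity)
    show ((X * X * (2 * ns + 2) * fac (A + X * X + 1) (Lst n θ m) +
      sz (A + X * X + 1) (X * X + 1) (Lst n θ m) : ℕ) : ℝ) ≤ _
    rw [Nat.cast_add, add_mul]
    linarith

theorem nsL_le (hn : 1 ≤ n) (hθ : 0 ≤ θ) (m : ℕ) : ∀ ns : ℕ, (ns : ℝ) ≤ 2 * (n : ℝ) ^ θ →
    (nsL ns (Lst n θ m) : ℝ) ≤ 2 * (n : ℝ) ^ θ := by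
  induction m with
  | zero => intro ns h; simpa [Lst, nsL] using h
  | succ m ih =>
    intro ns _
    refine ih _ ?_
    set X : ℕ := ⌊(n : ℝ) ^ (θ / ((m : ℝ) + 2))⌋₊ with hX
    have hXle : (X : ℝ) ≤ (n : ℝ) ^ (θ / ((m : ℝ) + 2)) := X_le hn m
    have h1 : (1 : ℝ) ≤ (n : ℝ) ^ θ := one_le_pw hn hθ
    have hXX : (X : ℝ) * X ≤ (n : ℝ) ^ θ := by
      calc (X : ℝ) * X ≤ (n : ℝ) ^ (θ / ((m : ℝ) + 2)) * (n : ℝ) ^ (θ / ((m : ℝ) + 2)) :=
            mul_le_mul hXle hXle (Nat.cast_nonneg _) (by positivity)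
        _ = (n : ℝ) ^ (2 * θ / ((m : ℝ) + 2)) := by
            rw [← pw_add hn]
            congr 1
            ring
        _ ≤ (n : ℝ) ^ θ := by
            refine pw_le hn ?_
            rw [div_le_iff₀ (by positivity)]
            nlinarith [(Nat.cast_nonneg m : (0 : ℝ) ≤ m), mul_nonneg hθ (Nat.cast_nonneg m : (0 : ℝ) ≤ m)]
    push_cast
    linarith

end size

end Pool.Agent.W_be22fd_h39
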