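import Pool.Agent.W_be22fd_h39.Final3
import Pool.Agent.W_be22fd_h78.Calc

/-!
MP_be22fd_co, lower bound `n ^ (2 - ε)`: the final asymptotics with the gain of `Calc.lean`,
`gain c C N M = c N / (1 + log N + log (2 + M)) - C`, `X ^ 2 / 2 ≤ N ≤ X ^ 2` (for example
`N = X ^ 2 - 2`), `0 ≤ M ≤ B (d + 1) ^ 2`.
-/

set_option autoImplicit false

namespace Pool.Agent.W_be22fd_h39

open Filter Topology Pool.Agent.W_be22fd_h78

theorem gain_ge {c B : ℝ} (hc : 0 < c) (hB : 0 ≤ B) (C : ℝ) {X d N : ℕ} {M : ℝ} (hX : 2 ≤ X)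
    (hN1 : (X : ℝ) ^ 2 / 2 ≤ N) (hN2 : (N : ℝ) ≤ (X : ℝ) ^ 2) (hM0 : 0 ≤ M)
    (hM : M ≤ B * ((d : ℝ) + 1) ^ 2) :
    (c / (2 * (4 + B))) * (X : ℝ) ^ 2 / (1 + Real.log X + Real.log ((d : ℝ) + 1)) - C ≤
      gain c C N M := by
  have hXr : (2 : ℝ) ≤ X := by exact_mod_cast hX
  have hd : (0 : ℝ) ≤ d := Nat.cast_nonneg d
  have hN0 : (2 : ℝ) ≤ N := by nlinarith
  have a1 : 0 ≤ Real.log (X : ℝ) := Real.log_nonneg (by linarith)
  have a2 : 0 ≤ Real.log ((d : ℝ) + 1) := Real.log_nonneg (by linarith)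
  have h1 : Real.log (N : ℝ) ≤ 2 * Real.log X := by
    calc Real.log (N : ℝ) ≤ Real.log ((X : ℝ) ^ 2) := Real.log_le_log (by linarith) hN2
      _ = 2 * Real.log X := by rw [Real.log_pow]; norm_num
  have h1' : 0 ≤ Real.log (N : ℝ) := Real.log_nonneg (by linarith)
  have h2 : Real.log (2 + M) ≤ (2 + B) + 2 * Real.log ((d : ℝ) + 1) := by
    have g1 : 2 + M ≤ (2 + B) * ((d : ℝ) + 1) ^ 2 := by nlinarith
    calc Real.log (2 + M) ≤ Real.log ((2 + B) * ((d : ℝ) + 1) ^ 2) :=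
          Real.log_le_log (by linarith) g1
      _ = Real.log (2 + B) + 2 * Real.log ((d : ℝ) + 1) := by
          rw [Real.log_mul (by positivity) (by positivity), Real.log_pow]; norm_num
      _ ≤ _ := by
          have : Real.log (2 + B) ≤ 2 + B := (Real.log_le_self (by linarith))
          linarith
  have h3 : 0 ≤ Real.log (2 + M) := Real.log_nonneg (by linarith)
  unfold gain
  refine sub_le_sub_right ?_ C
  rw [div_le_div_iff₀ (by linarith) (by linarith)]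
  have h4 : 1 + Real.log (N : ℝ) + Real.log (2 + M) ≤
      (4 + B) * (1 + Real.log X + Real.log ((d : ℝ) + 1)) := by nlinarith
  have hB4 : 0 < 4 + B := by linarith
  calc c / (2 * (4 + B)) * (X : ℝ) ^ 2 * (1 + Real.log (N : ℝ) + Real.log (2 + M)) ≤
        c / (2 * (4 + B)) * (X : ℝ) ^ 2 *
          ((4 + B) * (1 + Real.log X + Real.log ((d : ℝ) + 1))) :=
        mul_le_mul_of_nonneg_left h4 (by positivity)
    _ = c * ((X : ℝ) ^ 2 / 2) * (1 + Real.log X + Real.log ((d : ℝ) + 1)) := by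
        field_simp
    _ ≤ c * (N : ℝ) * (1 + Real.log X + Real.log ((d : ℝ) + 1)) := by
        refine mul_le_mul_of_nonneg_right ?_ (by linarith)
        exact mul_le_mul_of_nonneg_left hN1 hc.le

/-- The final asymptotics for the constants of a `ForceCalc`.  `Nf X` is the number of points of a
level with parameter `X`, `Mf d` the logarithmic range. -/
theorem final_calc (Good : ℕ → ℕ → Prop) {c0 c C C0 g0 B : ℝ} (hc0 : 0 < c0) (hc : 0 < c)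
    (hB : 0 ≤ B) (Nf : ℕ → ℕ) (Mf : ℕ → ℝ)
    (hN : ∀ X : ℕ, 2 ≤ X → (X : ℝ) ^ 2 / 2 ≤ Nf X ∧ (Nf X : ℝ) ≤ (X : ℝ) ^ 2)
    (hM : ∀ d : ℕ, 0 ≤ Mf d ∧ Mf d ≤ B * ((d : ℝ) + 1) ^ 2)
    (hword : ∀ (L : List ℕ) (n d : ℕ), L ≠ [] → 2 * (sz 0 0 L + 2 * nsL 0 L + 2) ≤ n →
      Good n d → (∀ X ∈ L, 2 ≤ X ∧ g0 ≤ gain c C (Nf X) (Mf d)) →
      c0 * (L.map fun X => gain c C (Nf X) (Mf d)).prod ≤ C0 * d) :
    ∀ ε : ℝ, 0 < ε → ∃ n0 : ℕ, ∀ n ≥ n0, ∀ d : ℕ, Good n d → (n : ℝ) ^ (2 - ε) ≤ d := by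
  refine final2 Good (fun X d => gain c C (Nf X) (Mf d)) (c0 := c / (2 * (4 + B))) (C0 := C)
    (g0 := g0) (K := C0 / c0) (by positivity) (fun X d hX =>
      gain_ge hc hB C hX (hN X hX).1 (hN X hX).2 (hM d).1 (hM d).2) ?_
  intro L n d h1 h2 h3 h4
  have := hword L n d h1 h2 h3 h4
  rw [div_mul_eq_mul_div, le_div_iff₀ hc0]
  linarith

/-- `N = X ^ 2 - 2` points are allowed. -/
theorem nf_sub_two (X : ℕ) (hX : 2 ≤ X) :
    (X : ℝ) ^ 2 / 2 ≤ ((X * X - 2 : ℕ) : ℝ) ∧ ((X * X - 2 : ℕ) : ℝ) ≤ (X : ℝ) ^ 2 := by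
  have hXr : (2 : ℝ) ≤ X := by exact_mod_cast hX
  have hXX : 2 ≤ X * X := by nlinarith
  have hN : ((X * X - 2 : ℕ) : ℝ) = (X : ℝ) * X - 2 := by
    rw [Nat.cast_sub hXX]; push_cast; ring
  rw [hN]
  constructor <;> nlinarith

/-- The range `log 2 + (6 d + 1) log (10 d)` is allowed. -/
theorem rng_ok (d : ℕ) : 0 ≤ Real.log 2 + (6 * (d : ℝ) + 1) * Real.log (10 * (d : ℝ)) ∧
    Real.log 2 + (6 * (d : ℝ) + 1) * Real.log (10 * (d : ℝ)) ≤ 61 * ((d : ℝ) + 1) ^ 2 := by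
  have hd : (0 : ℝ) ≤ d := Nat.cast_nonneg d
  have h1 : 0 ≤ Real.log 2 := Real.log_nonneg (by norm_num)
  rcases Nat.eq_zero_or_pos d with h | h
  · subst h
    simp only [Nat.cast_zero, mul_zero, Real.log_zero, add_zero]
    refine ⟨h1, ?_⟩
    linarith [Real.log_le_sub_one_of_pos (by norm_num : (0:ℝ) < 2)]
  · have h2 : (1 : ℝ) ≤ d := by exact_mod_cast h
    have h3 : 0 ≤ Real.log (10 * (d : ℝ)) := Real.log_nonneg (by linarith)
    refine ⟨by positivity, ?_⟩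
    have h4 : Real.log 2 ≤ 1 := by linarith [Real.log_le_sub_one_of_pos (by norm_num : (0:ℝ) < 2)]
    have h5 : Real.log (10 * (d : ℝ)) ≤ 10 * d := by
      linarith [Real.log_le_sub_one_of_pos (by linarith : (0:ℝ) < 10 * (d : ℝ))]
    have h6 : (6 * (d : ℝ) + 1) * Real.log (10 * (d : ℝ)) ≤ (6 * (d : ℝ) + 1) * (10 * d) :=
      mul_le_mul_of_nonneg_left h5 (by positivity)
    nlinarith

end Pool.Agent.W_be22fd_h39
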