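import Pool.Agent.W_MP_be22fd_co.Defs

/-!
MP_be22fd_co, lower bound `n ^ (2 - ε)`: small `n`.

`near_quadratic_of`: a bound for all large `n` gives a bound with a positive constant for all
`n ≥ 2`, because `1 ≤ d` for `n ≥ 2` (two constant polynomials do not cross).
-/

set_option autoImplicit false

namespace Pool.Agent.W_be22fd_h39

open Pool.Agent.W_MP_be22fd_co

/-- Every simple arrangement of `n` pseudolines is `d`-stretchable. -/
def AllStretchable (n d : ℕ) : Prop :=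
  ∀ f : Fin n → ℝ → ℝ, IsArrangement f → IsSimple f → Stretchable d f

/-- The lines `y = i x + i ^ 2`. -/
def parLines (n : ℕ) (i : Fin n) (x : ℝ) : ℝ := (i : ℝ) * x + (i : ℝ) ^ 2

theorem parLines_sub (n : ℕ) (i j : Fin n) (x : ℝ) :
    parLines n i x - parLines n j x = ((i : ℝ) - j) * (x + (i + j)) := by
  unfold parLines
  ring

theorem cast_lt {n : ℕ} {i j : Fin n} (h : i < j) : ((i : ℕ) : ℝ) < ((j : ℕ) : ℝ) := by
  exact_mod_cast h

theorem cross_of_lt {n : ℕ} {i j : Fin n} (h : i < j) :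
    CrossOnce (parLines n i) (parLines n j) ∧ CrossOnce (parLines n j) (parLines n i) := by
  have hij := cast_lt h
  have h0 : parLines n i (-((i : ℝ) + j)) = parLines n j (-((i : ℝ) + j)) := by
    have := parLines_sub n i j (-((i : ℝ) + j))
    have e : -((i : ℝ) + j) + (i + j) = 0 := by ring
    rw [e, mul_zero] at this
    linarith
  have h1 : ∀ x, x < -((i : ℝ) + j) → parLines n j x < parLines n i x := by
    intro x hx
    have := parLines_sub n i j x
    nlinarith
  have h2 : ∀ x, -((i : ℝ) + j) < x → parLines n i x < parLines n j x := by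
    intro x hx
    have := parLines_sub n i j x
    nlinarith
  exact ⟨⟨_, h0, Or.inr ⟨h1, h2⟩⟩, ⟨_, h0.symm, Or.inl ⟨h1, h2⟩⟩⟩

theorem parLines_arr (n : ℕ) : IsArrangement (parLines n) := by
  refine ⟨fun i => ?_, fun i j hij => ?_⟩
  · unfold parLines
    fun_prop
  · rcases lt_or_gt_of_ne hij with h | h
    · exact (cross_of_lt h).1
    · exact (cross_of_lt h).2

theorem parLines_eq {n : ℕ} {i j : Fin n} (hij : i ≠ j) {x : ℝ}
    (h : parLines n i x = parLines n j x) : x = -((i : ℝ) + j) := by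
  have h1 := parLines_sub n i j x
  rw [h, sub_self] at h1
  have h2 : ((i : ℕ) : ℝ) - ((j : ℕ) : ℝ) ≠ 0 := by
    intro h3
    apply hij
    have h4 : ((i : ℕ) : ℝ) = ((j : ℕ) : ℝ) := by linarith
    exact Fin.ext (by exact_mod_cast h4)
  rcases mul_eq_zero.1 h1.symm with h3 | h3
  · exact absurd h3 h2
  · linarith

theorem parLines_simple (n : ℕ) : IsSimple (parLines n) := by
  intro i j k hij hjk hik x ⟨h1, h2⟩
  have e1 := parLines_eq hij h1
  have e2 := parLines_eq hjk h2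
  apply hik
  have e3 : ((i : ℕ) : ℝ) = ((k : ℕ) : ℝ) := by linarith
  exact Fin.ext (by exact_mod_cast e3)

/-- For `n ≥ 2` the degree is positive. -/
theorem one_le_of_all {n d : ℕ} (hn : 2 ≤ n) (h : AllStretchable n d) : 1 ≤ d := by
  by_contra hd
  have hd0 : d = 0 := by omega
  subst hd0
  obtain ⟨p, hp, harr, -⟩ := h (parLines n) (parLines_arr n) (parLines_simple n)
  have hne : (⟨0, by omega⟩ : Fin n) ≠ ⟨1, by omega⟩ := by
    intro h
    have := congrArg Fin.val h
    simp at this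
  obtain ⟨t, ht, hside⟩ := harr.cross ⟨0, by omega⟩ ⟨1, by omega⟩ hne
  have hc : ∀ i x y, (p i).eval x = (p i).eval y := by
    intro i x y
    have h0 : (p i).natDegree = 0 := Nat.le_zero.1 (hp i)
    rw [Polynomial.eq_C_of_natDegree_eq_zero h0]
    simp
  rcases hside with ⟨h1, -⟩ | ⟨h1, -⟩
  · have h2 := h1 (t - 1) (by linarith)
    simp only at h2 ht
    rw [hc _ (t - 1) t, hc _ (t - 1) t, ht] at h2
    exact lt_irrefl _ h2
  · have h2 := h1 (t - 1) (by linarith)
    simp only at h2 ht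
    rw [hc _ (t - 1) t, hc _ (t - 1) t, ht] at h2
    exact lt_irrefl _ h2

/-- A bound for all large `n` gives a bound with a positive constant for all `n ≥ 2`. -/
theorem near_quadratic_of {ε : ℝ} (hε : 0 < ε)
    (h : ∃ n0 : ℕ, ∀ n ≥ n0, ∀ d : ℕ, AllStretchable n d → (n : ℝ) ^ (2 - ε) ≤ d) :
    ∃ c : ℝ, 0 < c ∧ ∀ n d : ℕ, 2 ≤ n → AllStretchable n d → c * (n : ℝ) ^ (2 - ε) ≤ d := by
  obtain ⟨n0, hn0⟩ := h
  have hpos : (0 : ℝ) < (n0 : ℝ) ^ 2 + 1 := by positivity
  refine ⟨1 / ((n0 : ℝ) ^ 2 + 1), by positivity, fun n d hn hd => ?_⟩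
  have hnr : (2 : ℝ) ≤ n := by exact_mod_cast hn
  have hp : 0 ≤ (n : ℝ) ^ (2 - ε) := by positivity
  rw [div_mul_eq_mul_div, one_mul, div_le_iff₀ hpos]
  rcases le_or_gt n0 n with h1 | h1
  · have h2 := hn0 n h1 d hd
    have h3 : (0 : ℝ) ≤ (d : ℝ) * (n0 : ℝ) ^ 2 := by positivity
    linarith
  · have h2 : (1 : ℝ) ≤ d := by exact_mod_cast one_le_of_all hn hd
    have h3 : (n : ℝ) ^ (2 - ε) ≤ (n : ℝ) ^ (2 : ℝ) :=
      Real.rpow_le_rpow_of_exponent_le (by linarith) (by linarith)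
    rw [Real.rpow_ofNat] at h3
    have h4 : (n : ℝ) ≤ n0 := by exact_mod_cast h1.le
    have h5 : (n : ℝ) ^ 2 ≤ (n0 : ℝ) ^ 2 := pow_le_pow_left₀ (by linarith) h4 2
    nlinarith

end Pool.Agent.W_be22fd_h39
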