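import Pool.Agent.W_be22fd_h16.Recur
import Pool.Agent.W_be22fd_h37.Size
import Pool.Agent.W_be22fd_h37.Base
import Pool.Agent.W_be22fd_h39.Final4
import Pool.Agent.W_be22fd_h39.Final5

/-!
MP_be22fd_co, lower bound `n ^ (2 - ε)`: assembly of the word half, the analysis half and the
asymptotics.  `GridSpec grid Mf` collects what is used about the grid step.
-/

set_option autoImplicit false

namespace Pool.Agent.W_be22fd_h39

open Pool.Agent.W_MP_be22fd_co Pool.Agent.W_be22fd_h27 Pool.Agent.W_be22fd_h78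
  Pool.Agent.W_be22fd_h16 Pool.Agent.W_be22fd_h37

/-- What is used about the grid step.  `Mf d` bounds the logarithmic range of the key times. -/
structure GridSpec (grid : Block → ℕ → Block) (Mf : ℕ → ℝ) : Prop where
  like : GridLike grid
  range : ∀ B X d, 2 ≤ X → 1 ≤ d → RangeOK (grid B X) d (Mf d)
  pair : ∀ X d, 2 ≤ X → PairOK (grid base X) d
  child : ∀ B X Y d, 2 ≤ X → 2 ≤ Y → ChildOK (grid B X) (grid (grid B X) Y) d

/-- The block of level `j` of the tower (the first element of the list is the lowest level). -/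
def lev (grid : Block → ℕ → Block) (L : List ℕ) (j : ℕ) : Block :=
  (L.take j).foldl grid base

section

variable {grid : Block → ℕ → Block} {Mf : ℕ → ℝ}

theorem lev_succ (L : List ℕ) {j : ℕ} (hj : j < L.length) :
    lev grid L (j + 1) = grid (lev grid L j) L[j] := by
  unfold lev
  rw [← List.take_concat_get' L j hj, List.foldl_append]
  rfl

theorem prod_list (G : ℕ → ℝ) (L : List ℕ) :
    (L.map G).prod = ∏ j ∈ Finset.range L.length, G (L.getD j 0) := by
  induction L with
  | nil => simp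
  | cons X L ih =>
    rw [List.map_cons, List.prod_cons, List.length_cons, Finset.prod_range_succ', ih, mul_comm]
    simp

/-- The word half. -/
theorem word_half (hg : GridSpec grid Mf) (hMf : ∀ d, 0 ≤ Mf d) {c0 c C C0 G0 : ℝ}
    (hc0 : 0 < c0) (hF : ∀ d : ℕ, 1 ≤ d → ∃ F, ForceCalc c0 c C C0 G0 d F)
    (L : List ℕ) (n d : ℕ) (hL : L ≠ []) (hn : 2 * (sz 0 0 L + 2 * nsL 0 L + 2) ≤ n)
    (hs : AllStretchable n d)
    (hX : ∀ X ∈ L, 2 ≤ X ∧ max 1 (G0 / c0) ≤ gain c C (X * X - 2) (Mf d)) :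
    c0 * (L.map fun X => gain c C (X * X - 2) (Mf d)).prod ≤ C0 * d := by
  have hd : 1 ≤ d := one_le_of_all (by omega) hs
  obtain ⟨F, hFF⟩ := hF d hd
  have hX2 : ∀ X ∈ L, 2 ≤ X := fun X h => (hX X h).1
  obtain ⟨J, hJ⟩ : ∃ J, L.length = J + 1 :=
    Nat.exists_eq_succ_of_ne_zero (by simpa using hL)
  have hget : ∀ j ≤ J, ∃ h : j < L.length, L.getD j 0 = L[j] ∧ L[j] ∈ L := by
    intro j hj
    have h : j < L.length := by omega
    exact ⟨h, List.getD_eq_getElem L 0 h, List.getElem_mem h⟩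
  have hlev : ∀ j ≤ J, lev grid L (j + 1) = grid (lev grid L j) (L.getD j 0) := by
    intro j hj
    obtain ⟨h, h1, -⟩ := hget j hj
    rw [h1, lev_succ L h]
  have hmem : ∀ j ≤ J, L.getD j 0 ∈ L := by
    intro j hj
    obtain ⟨h, h1, h2⟩ := hget j hj
    rw [h1]
    exact h2
  have h2X : ∀ j ≤ J, 2 ≤ L.getD j 0 := fun j hj => hX2 _ (hmem j hj)
  have hfull : lev grid L (J + 1) = L.foldl grid base := by
    unfold lev
    rw [List.take_of_length_le (by omega)]
  have key := tower (c0 := c0) (c := c) (C := C) (C0 := C0) (G0 := G0) (M := Mf d) (d := d)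
    (n := n) (J := J) (lev grid L)
    (fun j => L.getD (j - 1) 0 * L.getD (j - 1) 0) (hMf d) hc0.le
    (fun j hj => by
      rw [hlev j hj, hg.like.ns]
      rfl)
    (fun j hj => by
      have := h2X j hj
      show 3 ≤ L.getD j 0 * L.getD j 0
      nlinarith)
    (fun j hj => le_trans (le_max_left _ _) (hX _ (hmem j hj)).2)
    (by
      have h1 : G0 / c0 ≤ gain c C (L.getD 0 0 * L.getD 0 0 - 2) (Mf d) :=
        le_trans (le_max_right _ _) (hX _ (hmem 0 (Nat.zero_le _))).2
      rw [div_le_iff₀ hc0] at h1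
      show G0 ≤ c0 * gain c C (L.getD 0 0 * L.getD 0 0 - 2) (Mf d)
      linarith)
    (fun j hj => by
      rw [hlev j hj]
      exact hg.range _ _ _ (h2X j hj) hd)
    (by
      have := hlev 0 (Nat.zero_le _)
      rw [show (1 : ℕ) = 0 + 1 from rfl, this]
      exact hg.pair _ _ (h2X 0 (Nat.zero_le _)))
    (fun j hj => by
      have e1 := hlev j hj.le
      have e2 := hlev (j + 1) hj
      rw [show j + 2 = j + 1 + 1 from rfl, e2, e1]
      exact hg.child _ _ _ _ (h2X j hj.le) (h2X (j + 1) hj))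
    hFF
    (by
      rw [hfull]
      have := hg.like.card base base_A base_ns L
      omega)
    hs
  rw [prod_list, hJ]
  exact key

/-- The assembly. -/
theorem assembly (hg : GridSpec grid Mf) {B : ℝ} (hB : 0 ≤ B)
    (hMf : ∀ d : ℕ, 0 ≤ Mf d ∧ Mf d ≤ B * ((d : ℝ) + 1) ^ 2) (hA : AnalysisTarget) :
    ∀ ε : ℝ, 0 < ε → ∃ c : ℝ, 0 < c ∧ ∀ n d : ℕ, 2 ≤ n → AllStretchable n d →
      c * (n : ℝ) ^ (2 - ε) ≤ d := by
  obtain ⟨c0, c, C, C0, G0, hc0, hc, -, -, -, hF⟩ := hA
  intro ε hε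
  exact near_quadratic_of hε (final_calc AllStretchable hc0 hc hB (fun X => X * X - 2) Mf
    nf_sub_two hMf (fun L n d hL hn hs hX => word_half hg (fun d => (hMf d).1) hc0 hF L n d hL hn
      hs hX) ε hε)

end

end Pool.Agent.W_be22fd_h39
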