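import Mathlib
import Pool.Agent.W_MP_be22fd_co.Defs

/-!
# Resolutions of arrangements of graphs of polynomials: definitions

Curves are indexed by `Fin n` and labelled from top to bottom on the far left.
-/

namespace Pool.Agent.W_be22fd_h39

open Filter Polynomial
open Pool.Agent.W_MP_be22fd_co

/-- The curves are labelled from top to bottom on the far left. -/
def Labelled {n : ℕ} (f : Fin n → ℝ → ℝ) : Prop :=
  ∀ i j, i < j → ∀ᶠ x in atBot, f j x < f i x

/-- The curves `j` of the two families pass on the same side of the crossings of the curves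
`i` and `k` of the two families. -/
def SameSide {n : ℕ} (f h : Fin n → ℝ → ℝ) (i j k : Fin n) : Prop :=
  ∀ x u, f i x = f k x → h i u = h k u →
    (f i x < f j x → h i u < h j u) ∧ (f j x < f i x → h j u < h i u)

/-- The curves `i`, `j`, `k` pass through a common point with abscissa `y`. -/
def Meet {n : ℕ} (g : Fin n → ℝ → ℝ) (i j k : Fin n) (y : ℝ) : Prop :=
  g i y = g j y ∧ g j y = g k y

/-- The abscissas of the multiple points (at least three curves) on the curve `i`. -/
def multi {n : ℕ} (g : Fin n → ℝ → ℝ) (i : Fin n) : Set ℝ :=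
  {y | ∃ j k, j ≠ i ∧ k ≠ i ∧ j ≠ k ∧ g i y = g j y ∧ g i y = g k y}

/-- No four curves pass through a common point. -/
def NoFour {n : ℕ} (g : Fin n → ℝ → ℝ) : Prop :=
  ∀ i j k l : Fin n, i ≠ j → i ≠ k → i ≠ l → j ≠ k → j ≠ l → k ≠ l →
    ∀ y, ¬ (g i y = g j y ∧ g i y = g k y ∧ g i y = g l y)

/-- The graph of the polynomial `g i`, as a function. -/
noncomputable def ev {n : ℕ} (g : Fin n → ℝ[X]) : Fin n → ℝ → ℝ := fun i x => (g i).eval x

/-- The offsets `α` resolve the multiple points of `g` in the way prescribed by `f`: for every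
triple of curves of `g` through a common point with abscissa `y`, the lines
`u ↦ (g l)' (y) * u + α l y` have the orientation of the triple of `f`. -/
def LocalLines {n : ℕ} (f : Fin n → ℝ → ℝ) (g : Fin n → ℝ[X]) (α : Fin n → ℝ → ℝ) : Prop :=
  ∀ i j k, i < j → j < k → ∀ y, Meet (ev g) i j k y →
    SameSide f (fun l u => (g l).derivative.eval y * u + α l y) i j k

/-- The graphs of the polynomials `g i` form a labelled arrangement, possibly with multiple
points, in which any two curves cross transversally. -/
structure Base {n : ℕ} (g : Fin n → ℝ[X]) : Prop where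
  arr : IsArrangement (ev g)
  lab : Labelled (ev g)
  trans : ∀ i j, i ≠ j → ∀ y, (g i).eval y = (g j).eval y →
    (g i).derivative.eval y ≠ (g j).derivative.eval y

/-- `f` is a simple labelled arrangement which agrees with the arrangement `g` on all triples of
curves which do not pass through a common point in `g`. -/
structure Resolves {n : ℕ} (f : Fin n → ℝ → ℝ) (g : Fin n → ℝ[X]) : Prop where
  arr : IsArrangement f
  simple : IsSimple f
  lab : Labelled f
  side : ∀ i j k, i < j → j < k → (∀ y, ¬ Meet (ev g) i j k y) → SameSide f (ev g) i j k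

/-- The slopes `-h, ..., -1, h + 1, ..., n`, in increasing order, where `h = 4 ⌊n / 8⌋`. -/
def slope (n : ℕ) (i : Fin n) : ℤ :=
  if (i : ℕ) < 4 * (n / 8) then ((i : ℕ) : ℤ) - ((4 * (n / 8) : ℕ) : ℤ) else ((i : ℕ) : ℤ) + 1

/-- The straight lines `y = t x - t ^ 3`, where `t` runs through the slopes. -/
noncomputable def cubicLines (n : ℕ) (i : Fin n) : ℝ[X] :=
  C (slope n i : ℝ) * X - C ((slope n i : ℝ) ^ 3)

end Pool.Agent.W_be22fd_h39
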