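import Pool.Agent.W_be22fd_h39.Final2

/-!
MP_be22fd_co, lower bound `n ^ (2 - ε)`: the final asymptotics.

`final2`: if for every nonempty list `L` with `2 (sz 0 0 L + 2 nsL 0 L + 2) ≤ n` the product of the
gains `G X d`, `X ∈ L`, is at most `K d`, where
`G X d ≥ c0 X ^ 2 / (1 + log X + log (d + 1)) - C0`, then `n ^ (2 - ε) ≤ d` for all large `n`.
-/

set_option autoImplicit false

namespace Pool.Agent.W_be22fd_h39

open Filter Topology

theorem ev_log (K : ℝ) (r : ℕ) {t : ℝ} (ht : 0 < t) :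
    ∀ᶠ n : ℕ in atTop, K * (Real.log n) ^ r ≤ (n : ℝ) ^ t := by
  have h := (isLittleO_log_rpow_rpow_atTop (r : ℝ) ht).bound
    (c := 1 / (|K| + 1)) (by positivity)
  have h' := tendsto_natCast_atTop_atTop (R := ℝ) |>.eventually h
  filter_upwards [h', eventually_ge_atTop 1] with n hn hn1
  have hn1' : (1 : ℝ) ≤ n := by exact_mod_cast hn1
  have hl : 0 ≤ Real.log n := Real.log_nonneg hn1'
  rw [Real.rpow_natCast, Real.norm_of_nonneg (pow_nonneg hl r),
    Real.norm_of_nonneg (Real.rpow_nonneg (by linarith) t)] at hn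
  have hK : (0 : ℝ) < |K| + 1 := by positivity
  rw [div_mul_eq_mul_div, one_mul, le_div_iff₀ hK] at hn
  calc K * (Real.log n) ^ r ≤ (|K| + 1) * (Real.log n) ^ r :=
        mul_le_mul_of_nonneg_right (by linarith [le_abs_self K]) (pow_nonneg hl r)
    _ = (Real.log n) ^ r * (|K| + 1) := mul_comm _ _
    _ ≤ _ := hn

theorem ev_all_lt (J : ℕ) {p : ℕ → ℕ → Prop} (h : ∀ l < J, ∀ᶠ n in atTop, p l n) :
    ∀ᶠ n in atTop, ∀ l < J, p l n := by
  have h1 := (Filter.eventually_all_finset (Finset.range J) (l := (atTop : Filter ℕ))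
    (p := fun l n => p l n)).2 fun l hl => h l (Finset.mem_range.1 hl)
  filter_upwards [h1] with n hn l hl
  exact hn l (Finset.mem_range.2 hl)

theorem floor_half {x : ℝ} (hx : 1 ≤ x) : x / 2 ≤ (⌊x⌋₊ : ℝ) := by
  have h1 : x < ⌊x⌋₊ + 1 := Nat.lt_floor_add_one x
  have h2 : (1 : ℝ) ≤ ⌊x⌋₊ := by
    exact_mod_cast (Nat.one_le_floor_iff x).2 hx
  linarith

theorem prod_ge {n d : ℕ} (hn : 1 ≤ n) {θ b : ℝ} (hb : 0 ≤ b) (G : ℕ → ℕ → ℝ) (m : ℕ)
    (h : ∀ l < m, b * (n : ℝ) ^ (2 * θ / ((l : ℝ) + 2)) ≤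
      G ⌊(n : ℝ) ^ (θ / ((l : ℝ) + 2))⌋₊ d) :
    b ^ m * (n : ℝ) ^ (2 * θ * S m) ≤ ((Lst n θ m).map fun X => G X d).prod := by
  induction m with
  | zero => simp [Lst, S]
  | succ m ih =>
    have h1 := ih fun l hl => h l (by omega)
    have h2 := h m (by omega)
    show _ ≤ (((⌊(n : ℝ) ^ (θ / ((m : ℝ) + 2))⌋₊ :: Lst n θ m)).map fun X => G X d).prod
    rw [List.map_cons, List.prod_cons]
    have h3 : (n : ℝ) ^ (2 * θ * S (m + 1)) =
        (n : ℝ) ^ (2 * θ / ((m : ℝ) + 2)) * (n : ℝ) ^ (2 * θ * S m) := by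
      rw [← pw_add hn]
      congr 1
      show 2 * θ * (S m + 1 / ((m : ℝ) + 2)) = _
      ring
    rw [h3]
    calc b ^ (m + 1) * ((n : ℝ) ^ (2 * θ / ((m : ℝ) + 2)) * (n : ℝ) ^ (2 * θ * S m)) =
        (b * (n : ℝ) ^ (2 * θ / ((m : ℝ) + 2))) * (b ^ m * (n : ℝ) ^ (2 * θ * S m)) := by ring
      _ ≤ _ := mul_le_mul h2 h1 (by positivity)
        (le_trans (by positivity) h2)

theorem mem_Lst {n : ℕ} {θ : ℝ} {m X : ℕ} (h : X ∈ Lst n θ m) :
    ∃ l < m, X = ⌊(n : ℝ) ^ (θ / ((l : ℝ) + 2))⌋₊ := by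
  induction m with
  | zero => simp [Lst] at h
  | succ m ih =>
    rw [show Lst n θ (m + 1) = ⌊(n : ℝ) ^ (θ / ((m : ℝ) + 2))⌋₊ :: Lst n θ m from rfl,
      List.mem_cons] at h
    rcases h with h | h
    · exact ⟨m, by omega, h⟩
    · obtain ⟨l, hl, hX⟩ := ih h
      exact ⟨l, by omega, hX⟩

/-- The final asymptotics. -/
theorem final2 (Good : ℕ → ℕ → Prop) (G : ℕ → ℕ → ℝ) {c0 C0 g0 K : ℝ} (hc0 : 0 < c0)
    (hG : ∀ X d : ℕ, 2 ≤ X →
      c0 * (X : ℝ) ^ 2 / (1 + Real.log X + Real.log ((d : ℝ) + 1)) - C0 ≤ G X d)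
    (hword : ∀ (L : List ℕ) (n d : ℕ), L ≠ [] → 2 * (sz 0 0 L + 2 * nsL 0 L + 2) ≤ n →
      Good n d → (∀ X ∈ L, 2 ≤ X ∧ g0 ≤ G X d) → (L.map fun X => G X d).prod ≤ K * d) :
    ∀ ε : ℝ, 0 < ε → ∃ n0 : ℕ, ∀ n ≥ n0, ∀ d : ℕ, Good n d → (n : ℝ) ^ (2 - ε) ≤ d := by
  -- it is enough to treat `ε ≤ 1`
  have main : ∀ ε : ℝ, 0 < ε → ε ≤ 1 →
      ∀ᶠ n : ℕ in atTop, ∀ d : ℕ, Good n d → (n : ℝ) ^ (2 - ε) ≤ d := by
    intro ε hε hε1
    obtain ⟨J, hJ, hJ1⟩ := ((S_tendsto.eventually (eventually_ge_atTop (16 / ε))).and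
      (eventually_ge_atTop 1)).exists
    have hs0 : 0 ≤ S J := S_nonneg J
    set s : ℝ := S J with hs
    set θ : ℝ := (1 - ε / 8) / (s + 2) with hθ
    have hs2 : 0 < s + 2 := by linarith
    have hθ0 : 0 < θ := by
      apply div_pos <;> linarith
    have hθs : θ * (s + 2) = 1 - ε / 8 := div_mul_cancel₀ _ hs2.ne'
    have hθ1 : θ ≤ 1 / 2 := by
      rw [hθ, div_le_iff₀ hs2]
      linarith
    have h2θs : 2 - ε / 2 ≤ 2 * θ * s := by
      have h1 : 2 * θ * s = 2 * (1 - ε / 8) - 4 * θ := by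
        have : θ * s = (1 - ε / 8) - 2 * θ := by linarith
        linarith
      have h2 : θ ≤ ε / 16 := by
        have h3 : 16 ≤ ε * s := by
          rw [div_le_iff₀ hε] at hJ
          linarith
        rw [hθ, div_le_iff₀ hs2]
        nlinarith
      linarith
    obtain ⟨C, hC, hsz⟩ := sz_le hθ0.le J 0 (le_refl _)
    -- eventual inequalities
    have e1 := ev_log (2 * C + 20) 0 (t := ε / 8) (by linarith)
    have e2 : ∀ᶠ n : ℕ in atTop, ∀ l < J,
        (40 / c0 * (|C0| + |g0| + 1)) * (Real.log n) ^ 1 ≤ (n : ℝ) ^ (2 * θ / ((l : ℝ) + 2)) := by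
      refine ev_all_lt J ?_
      intro l _
      exact ev_log _ 1 (by positivity)
    have e3 := ev_log (2 * (|K| + 1) * (40 / c0) ^ J) J (t := ε / 2) (by linarith)
    have e4 : ∀ᶠ n : ℕ in atTop, ∀ l < J, 4 * (Real.log n) ^ 0 ≤ (n : ℝ) ^ (θ / ((l : ℝ) + 2)) := by
      refine ev_all_lt J ?_
      intro l _
      exact ev_log _ 0 (by positivity)
    have e5 : ∀ᶠ n : ℕ in atTop, (1 : ℝ) ≤ Real.log n :=
      (Real.tendsto_log_atTop.comp tendsto_natCast_atTop_atTop).eventually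
        (eventually_ge_atTop 1)
    filter_upwards [e1, e2, e3, e4, e5, eventually_ge_atTop 3] with n h1 h2 h3 h4 h5 hn3 d hd
    have hn1 : 1 ≤ n := by omega
    have hnr : (3 : ℝ) ≤ n := by exact_mod_cast hn3
    by_contra hcon
    rw [not_le] at hcon
    rw [pow_zero, mul_one] at h1
    -- size
    have hsize : 2 * (sz 0 0 (Lst n θ J) + 2 * nsL 0 (Lst n θ J) + 2) ≤ n := by
      have g1 := hsz n hn1 0 0 (by simp) (by simp)
      have g2 := nsL_le (θ := θ) hn1 hθ0.le J 0 (by simp; positivity)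
      have g3 : (n : ℝ) ^ θ ≤ (n : ℝ) ^ (1 - ε / 8) := pw_le hn1 (by linarith)
      have g4 : (1 : ℝ) ≤ (n : ℝ) ^ (1 - ε / 8) := one_le_pw hn1 (by linarith)
      have g5 : (n : ℝ) = (n : ℝ) ^ (ε / 8) * (n : ℝ) ^ (1 - ε / 8) := by
        rw [← pw_add hn1, show ε / 8 + (1 - ε / 8) = 1 by ring, Real.rpow_one]
      have g6 : ((2 * (sz 0 0 (Lst n θ J) + 2 * nsL 0 (Lst n θ J) + 2) : ℕ) : ℝ) ≤ n := by
        rw [g5]
        rw [← hs, hθs] at g1
        push_cast
        have g7 : (2 * C + 20) * (n : ℝ) ^ (1 - ε / 8) ≤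
            (n : ℝ) ^ (ε / 8) * (n : ℝ) ^ (1 - ε / 8) :=
          mul_le_mul_of_nonneg_right h1 (by positivity)
        nlinarith
      exact_mod_cast g6
    -- logarithms
    have hlog : ∀ l < J, 1 + Real.log (⌊(n : ℝ) ^ (θ / ((l : ℝ) + 2))⌋₊ : ℝ) +
        Real.log ((d : ℝ) + 1) ≤ 5 * Real.log n := by
      intro l _
      have g1 : Real.log ((d : ℝ) + 1) ≤ 3 * Real.log n := by
        have g2 : (d : ℝ) + 1 ≤ (n : ℝ) ^ (3 : ℕ) := by
          have g3 : (d : ℝ) < (n : ℝ) ^ (2 : ℝ) := hcon.trans_le (pw_le hn1 (by linarith))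
          rw [Real.rpow_ofNat] at g3
          nlinarith [sq_nonneg ((n : ℝ) - 1), pow_pos (by linarith : (0 : ℝ) < n) 2]
        calc Real.log ((d : ℝ) + 1) ≤ Real.log ((n : ℝ) ^ (3 : ℕ)) :=
              Real.log_le_log (by positivity) g2
          _ = 3 * Real.log n := by rw [Real.log_pow]; norm_num
      have g4 : Real.log (⌊(n : ℝ) ^ (θ / ((l : ℝ) + 2))⌋₊ : ℝ) ≤ Real.log n := by
        rcases Nat.eq_zero_or_pos ⌊(n : ℝ) ^ (θ / ((l : ℝ) + 2))⌋₊ with h0 | h0
        · rw [h0]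
          simp only [Nat.cast_zero, Real.log_zero]
          linarith
        · refine Real.log_le_log (by exact_mod_cast h0) ((X_le hn1 l).trans ?_)
          calc (n : ℝ) ^ (θ / ((l : ℝ) + 2)) ≤ (n : ℝ) ^ (1 : ℝ) := by
                refine pw_le hn1 ?_
                rw [div_le_iff₀ (by positivity)]
                have : (0 : ℝ) ≤ l := Nat.cast_nonneg l
                linarith
            _ = n := Real.rpow_one _
      linarith
    -- the gains
    have hgain : ∀ l < J, (c0 / (40 * Real.log n)) * (n : ℝ) ^ (2 * θ / ((l : ℝ) + 2)) ≤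
        G ⌊(n : ℝ) ^ (θ / ((l : ℝ) + 2))⌋₊ d ∧ 2 ≤ ⌊(n : ℝ) ^ (θ / ((l : ℝ) + 2))⌋₊ ∧
        g0 ≤ G ⌊(n : ℝ) ^ (θ / ((l : ℝ) + 2))⌋₊ d := by
      intro l hl
      have g0' := h4 l hl
      rw [pow_zero, mul_one] at g0'
      have g1 : 2 ≤ ⌊(n : ℝ) ^ (θ / ((l : ℝ) + 2))⌋₊ := Nat.le_floor (by push_cast; linarith)
      have g2 := hG _ d g1
      have g3 := floor_half (x := (n : ℝ) ^ (θ / ((l : ℝ) + 2))) (by linarith)
      set X : ℕ := ⌊(n : ℝ) ^ (θ / ((l : ℝ) + 2))⌋₊ with hX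
      have g4 : (n : ℝ) ^ (2 * θ / ((l : ℝ) + 2)) / 4 ≤ (X : ℝ) ^ 2 := by
        have : (n : ℝ) ^ (2 * θ / ((l : ℝ) + 2)) =
            (n : ℝ) ^ (θ / ((l : ℝ) + 2)) * (n : ℝ) ^ (θ / ((l : ℝ) + 2)) := by
          rw [← pw_add hn1]
          congr 1
          ring
        rw [this]
        have hp : 0 ≤ (n : ℝ) ^ (θ / ((l : ℝ) + 2)) := by positivity
        nlinarith
      have g5 := hlog l hl
      have hXr : (2 : ℝ) ≤ X := by exact_mod_cast g1
      have g6 : 0 < 1 + Real.log (X : ℝ) + Real.log ((d : ℝ) + 1) := by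
        have a1 : 0 ≤ Real.log (X : ℝ) := Real.log_nonneg (by linarith)
        have a2 : 0 ≤ Real.log ((d : ℝ) + 1) :=
          Real.log_nonneg (by linarith [(Nat.cast_nonneg d : (0 : ℝ) ≤ d)])
        linarith
      have hL : 0 < Real.log (n : ℝ) := by linarith
      set P : ℝ := (n : ℝ) ^ (2 * θ / ((l : ℝ) + 2)) with hP
      have hP0 : 0 < P := by positivity
      have g7 : c0 * P / (20 * Real.log n) ≤
          c0 * (X : ℝ) ^ 2 / (1 + Real.log X + Real.log ((d : ℝ) + 1)) := by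
        rw [div_le_div_iff₀ (by positivity) g6]
        calc c0 * P * (1 + Real.log X + Real.log ((d : ℝ) + 1)) ≤
              c0 * P * (5 * Real.log n) := mul_le_mul_of_nonneg_left g5 (by positivity)
          _ = c0 * (P / 4) * (20 * Real.log n) := by ring
          _ ≤ c0 * (X : ℝ) ^ 2 * (20 * Real.log n) := by
              refine mul_le_mul_of_nonneg_right ?_ (by positivity)
              exact mul_le_mul_of_nonneg_left g4 hc0.le
      have g8 := h2 l hl
      rw [pow_one] at g8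
      have g9 : |C0| + |g0| + 1 ≤ c0 * P / (40 * Real.log n) := by
        rw [le_div_iff₀ (by positivity)]
        have : 40 / c0 * (|C0| + |g0| + 1) * Real.log n * c0 ≤ P * c0 :=
          mul_le_mul_of_nonneg_right g8 hc0.le
        have e : 40 / c0 * (|C0| + |g0| + 1) * Real.log n * c0 =
            (|C0| + |g0| + 1) * (40 * Real.log n) := by
          field_simp
        linarith
      have g10 : c0 * P / (20 * Real.log n) = 2 * (c0 * P / (40 * Real.log n)) := by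
        field_simp
        ring
      have g11 : c0 / (40 * Real.log n) * P = c0 * P / (40 * Real.log n) := by ring
      have b1 := le_abs_self C0
      have b2 := le_abs_self g0
      have b3 := abs_nonneg C0
      have b4 := abs_nonneg g0
      refine ⟨?_, g1, ?_⟩
      · rw [g11]; linarith
      · linarith
    have hL : 0 < Real.log (n : ℝ) := by linarith
    have hprod := prod_ge (d := d) hn1 (θ := θ) (b := c0 / (40 * Real.log n)) (by positivity) G J
      fun l hl => (hgain l hl).1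
    have hne : Lst n θ J ≠ [] := by
      obtain ⟨J', rfl⟩ := Nat.exists_eq_succ_of_ne_zero (by omega : J ≠ 0)
      exact List.cons_ne_nil _ _
    have hfin := hword (Lst n θ J) n d hne hsize hd (by
      intro X hX
      obtain ⟨l, hl, rfl⟩ := mem_Lst hX
      exact (hgain l hl).2)
    have hK1 : (0 : ℝ) < |K| + 1 := by positivity
    have hlow : (|K| + 1) * (n : ℝ) ^ (2 - ε) <
        (c0 / (40 * Real.log n)) ^ J * (n : ℝ) ^ (2 * θ * S J) := by
      have k1 : (n : ℝ) ^ (2 - ε / 2) ≤ (n : ℝ) ^ (2 * θ * S J) := pw_le hn1 h2θs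
      have k2 : (n : ℝ) ^ (2 - ε / 2) = (n : ℝ) ^ (2 - ε) * (n : ℝ) ^ (ε / 2) := by
        rw [← pw_add hn1]
        congr 1
        ring
      have k3 : 0 < (n : ℝ) ^ (2 - ε) := by positivity
      have k4 : |K| + 1 < (c0 / (40 * Real.log n)) ^ J * (n : ℝ) ^ (ε / 2) := by
        have k5 : (c0 / (40 * Real.log n)) ^ J *
            (2 * (|K| + 1) * (40 / c0) ^ J * (Real.log n) ^ J) = 2 * (|K| + 1) := by
          have : (c0 / (40 * Real.log n)) ^ J *
              (2 * (|K| + 1) * (40 / c0) ^ J * (Real.log n) ^ J) =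
              2 * (|K| + 1) * ((c0 / (40 * Real.log n)) * (40 / c0) * Real.log n) ^ J := by
            rw [mul_pow, mul_pow]; ring
          rw [this]
          have e : (c0 / (40 * Real.log n)) * (40 / c0) * Real.log n = 1 := by
            field_simp
          rw [e, one_pow, mul_one]
        have k6 := mul_le_mul_of_nonneg_left h3
          (by positivity : 0 ≤ (c0 / (40 * Real.log n)) ^ J)
        rw [k5] at k6
        linarith
      calc (|K| + 1) * (n : ℝ) ^ (2 - ε) < (n : ℝ) ^ (2 - ε) *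
            ((c0 / (40 * Real.log n)) ^ J * (n : ℝ) ^ (ε / 2)) := by
            nlinarith
        _ = (c0 / (40 * Real.log n)) ^ J * (n : ℝ) ^ (2 - ε / 2) := by rw [k2]; ring
        _ ≤ _ := mul_le_mul_of_nonneg_left k1 (by positivity)
    have hKd : K * (d : ℝ) ≤ (|K| + 1) * (n : ℝ) ^ (2 - ε) := by
      have m1 : K * (d : ℝ) ≤ (|K| + 1) * d :=
        mul_le_mul_of_nonneg_right (by linarith [le_abs_self K]) (Nat.cast_nonneg d)
      have m2 : (|K| + 1) * (d : ℝ) ≤ (|K| + 1) * (n : ℝ) ^ (2 - ε) :=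
        mul_le_mul_of_nonneg_left hcon.le hK1.le
      linarith
    linarith
  intro ε hε
  have h := main (min ε 1) (lt_min hε one_pos) (min_le_right _ _)
  obtain ⟨n1, hn1⟩ := eventually_atTop.1 h
  refine ⟨max n1 1, fun n hn d hd => ?_⟩
  have hn' : n1 ≤ n := le_trans (le_max_left _ _) hn
  have hn'' : 1 ≤ n := le_trans (le_max_right _ _) hn
  refine le_trans (pw_le hn'' ?_) (hn1 n hn' d hd)
  have := min_le_left ε 1
  linarith

end Pool.Agent.W_be22fd_h39
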