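import Mathlib

/-!
# Interpolation between level curves

`LL m u h` is the piecewise linear interpolation of `u 0, ..., u m` (constant outside `[0, m]`),
`yy m u h` the same with slope `-1` outside `[0, m]`.  The map
`(x, h) ↦ (X, yy m (G · X) h)`, `X = LL m (φ · x) h`, is a quotient map of the plane, and its fibres
are determined by the coincidences of consecutive levels.
-/

namespace Pool.Agent.W_be22fd_h39

open Finset Topology

/-- the part of `(-∞, h]` in `[k, k + 1]` -/
noncomputable def cl (k : ℕ) (h : ℝ) : ℝ := max 0 (min 1 (h - k))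

theorem cl_cont (k : ℕ) : Continuous (cl k) := by
  unfold cl; fun_prop

theorem cl_mono (k : ℕ) {h h' : ℝ} (hh : h ≤ h') : cl k h ≤ cl k h' := by
  unfold cl
  exact max_le_max le_rfl (min_le_min le_rfl (by linarith))

theorem cl_zero {k : ℕ} {h : ℝ} (hh : h ≤ k) : cl k h = 0 := by
  unfold cl
  exact max_eq_left ((min_le_right _ _).trans (by linarith))

theorem cl_one {k : ℕ} {h : ℝ} (hh : (k : ℝ) + 1 ≤ h) : cl k h = 1 := by
  unfold cl
  rw [min_eq_left (by linarith)]
  norm_num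

theorem cl_mid {k : ℕ} {h : ℝ} (h1 : (k : ℝ) ≤ h) (h2 : h ≤ k + 1) : cl k h = h - k := by
  unfold cl
  rw [min_eq_right (by linarith), max_eq_right (by linarith)]

/-- piecewise linear interpolation of `u 0, ..., u m` -/
noncomputable def LL (m : ℕ) (u : ℕ → ℝ) (h : ℝ) : ℝ :=
  u 0 + ∑ k ∈ range m, (u (k + 1) - u k) * cl k h

theorem LL_low (m : ℕ) (u : ℕ → ℝ) {h : ℝ} (hh : h ≤ 0) : LL m u h = u 0 := by
  unfold LL
  rw [sum_eq_zero]
  · ring
  · intro k _
    rw [cl_zero (hh.trans (Nat.cast_nonneg k))]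
    ring

theorem LL_mid {m : ℕ} (u : ℕ → ℝ) {h : ℝ} {k : ℕ} (hk : k < m) (h1 : (k : ℝ) ≤ h)
    (h2 : h ≤ k + 1) : LL m u h = (1 - (h - k)) * u k + (h - k) * u (k + 1) := by
  unfold LL
  have h3 : ∀ j : ℕ, j ≤ k → u 0 + ∑ i ∈ range j, (u (i + 1) - u i) * cl i h = u j := by
    intro j
    induction j with
    | zero => intro _; simp
    | succ j ih =>
      intro hj
      have h5 : ((j : ℝ) + 1) ≤ k := by exact_mod_cast hj
      rw [sum_range_succ, ← add_assoc, ih (by omega), cl_one (by linarith)]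
      ring
  have h4 : ∀ j : ℕ, k + 1 ≤ j →
      u 0 + ∑ i ∈ range j, (u (i + 1) - u i) * cl i h = (1 - (h - k)) * u k + (h - k) * u (k + 1) := by
    intro j hj
    induction j, hj using Nat.le_induction with
    | base =>
      rw [sum_range_succ, ← add_assoc, h3 k le_rfl, cl_mid h1 h2]
      ring
    | succ j hj ih =>
      have h5 : ((k : ℝ) + 1) ≤ j := by exact_mod_cast hj
      rw [sum_range_succ, ← add_assoc, ih, cl_zero (by linarith)]
      ring
  exact h4 m hk

theorem LL_high (m : ℕ) (u : ℕ → ℝ) {h : ℝ} (hh : (m : ℝ) ≤ h) : LL m u h = u m := by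
  unfold LL
  have h3 : ∀ j : ℕ, j ≤ m → u 0 + ∑ i ∈ range j, (u (i + 1) - u i) * cl i h = u j := by
    intro j
    induction j with
    | zero => intro _; simp
    | succ j ih =>
      intro hj
      have h5 : ((j : ℝ) + 1) ≤ m := by exact_mod_cast hj
      rw [sum_range_succ, ← add_assoc, ih (by omega), cl_one (by linarith)]
      ring
  exact h3 m le_rfl

/-- the interpolation is a convex combination of two values, with coefficients independent of `u` -/
theorem LL_rep (m : ℕ) (h : ℝ) : ∃ (i j : ℕ) (t : ℝ), i ≤ m ∧ j ≤ m ∧ 0 ≤ t ∧ t ≤ 1 ∧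
    ∀ u : ℕ → ℝ, LL m u h = (1 - t) * u i + t * u j := by
  rcases le_total h 0 with h0 | h0
  · exact ⟨0, 0, 0, Nat.zero_le _, Nat.zero_le _, le_rfl, zero_le_one, fun u => by
      rw [LL_low m u h0]; ring⟩
  rcases le_total (m : ℝ) h with hm | hm
  · exact ⟨m, m, 0, le_rfl, le_rfl, le_rfl, zero_le_one, fun u => by
      rw [LL_high m u hm]; ring⟩
  have hfl : ((⌊h⌋₊ : ℕ) : ℝ) ≤ h := Nat.floor_le h0
  have hfl2 : h < (⌊h⌋₊ : ℕ) + 1 := Nat.lt_floor_add_one h
  rcases lt_or_ge ⌊h⌋₊ m with hk | hk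
  · exact ⟨⌊h⌋₊, ⌊h⌋₊ + 1, h - (⌊h⌋₊ : ℕ), hk.le, hk, by linarith, by linarith, fun u =>
      LL_mid u hk hfl hfl2.le⟩
  · have h1 : (m : ℝ) ≤ (⌊h⌋₊ : ℕ) := by exact_mod_cast hk
    exact ⟨m, m, 0, le_rfl, le_rfl, le_rfl, zero_le_one, fun u => by
      rw [LL_high m u (by linarith)]; ring⟩

/-- the slope `-1` part outside `[0, m]` -/
noncomputable def mm (m : ℕ) (h : ℝ) : ℝ := max (-h) 0 - max (h - m) 0

theorem mm_cont (m : ℕ) : Continuous (mm m) := by
  unfold mm; fun_prop

theorem mm_anti (m : ℕ) {h h' : ℝ} (hh : h ≤ h') : mm m h' ≤ mm m h := by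
  unfold mm
  have h1 : max (-h') 0 ≤ max (-h) 0 := max_le_max (by linarith) le_rfl
  have h2 : max (h - m) 0 ≤ max (h' - m) 0 := max_le_max (by linarith) le_rfl
  linarith

theorem mm_mid (m : ℕ) {h : ℝ} (h1 : 0 ≤ h) (h2 : h ≤ m) : mm m h = 0 := by
  unfold mm
  rw [max_eq_right (by linarith), max_eq_right (by linarith)]
  ring

theorem mm_low (m : ℕ) {h : ℝ} (h1 : h ≤ 0) : mm m h = -h := by
  unfold mm
  have hm : (0 : ℝ) ≤ m := Nat.cast_nonneg m
  rw [max_eq_left (by linarith), max_eq_right (by linarith)]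
  ring

theorem mm_high (m : ℕ) {h : ℝ} (h1 : (m : ℝ) ≤ h) : mm m h = m - h := by
  unfold mm
  have hm : (0 : ℝ) ≤ m := Nat.cast_nonneg m
  rw [max_eq_right (by linarith), max_eq_left (by linarith)]
  ring

/-- piecewise linear interpolation of `u 0, ..., u m` with slope `-1` outside `[0, m]` -/
noncomputable def yy (m : ℕ) (u : ℕ → ℝ) (h : ℝ) : ℝ := LL m u h + mm m h

theorem yy_cont (m : ℕ) (u : ℕ → ℝ) : Continuous (yy m u) := by
  unfold yy LL
  refine Continuous.add (Continuous.add continuous_const ?_) (mm_cont m)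
  exact continuous_finsetSum _ fun k _ => continuous_const.mul (cl_cont k)

theorem yy_anti {m : ℕ} {u : ℕ → ℝ} (hu : ∀ k, u (k + 1) ≤ u k) {h h' : ℝ} (hh : h ≤ h') :
    yy m u h' ≤ yy m u h := by
  unfold yy LL
  have h1 := mm_anti m hh
  have h2 : ∑ k ∈ range m, (u (k + 1) - u k) * cl k h' ≤
      ∑ k ∈ range m, (u (k + 1) - u k) * cl k h := by
    refine sum_le_sum fun k _ => ?_
    have h3 := cl_mono k hh
    have h4 := hu k
    nlinarith
  linarith

theorem yy_surj (m : ℕ) (u : ℕ → ℝ) (v : ℝ) : ∃ h, yy m u h = v := by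
  have h := mem_range_of_exists_le_of_exists_ge (f := yy m u) (c := v) (yy_cont m u)
    ⟨max m (m + u m - v), by
      have h1 : (m : ℝ) ≤ max (m : ℝ) (m + u m - v) := le_max_left _ _
      have h2 : (m : ℝ) + u m - v ≤ max (m : ℝ) (m + u m - v) := le_max_right _ _
      unfold yy
      rw [LL_high m u h1, mm_high m h1]
      linarith⟩
    ⟨min 0 (u 0 - v), by
      have h1 : min 0 (u 0 - v) ≤ 0 := min_le_left _ _
      have h2 : min 0 (u 0 - v) ≤ u 0 - v := min_le_right _ _
      unfold yy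
      rw [LL_low m u h1, mm_low m h1]
      linarith⟩
  exact h

theorem yy_const {m k : ℕ} {u : ℕ → ℝ} (hk : k < m) (h1 : u k = u (k + 1)) {h : ℝ}
    (h2 : (k : ℝ) ≤ h) (h3 : h ≤ k + 1) : yy m u h = u k := by
  unfold yy
  have hm : ((k : ℝ) + 1) ≤ m := by exact_mod_cast hk
  have h0 : (0 : ℝ) ≤ k := Nat.cast_nonneg k
  rw [LL_mid u hk h2 h3, mm_mid m (by linarith) (by linarith), ← h1]
  ring

/-- the fibres of the interpolation -/
theorem yy_fibre {m : ℕ} {u : ℕ → ℝ} (hu : ∀ k, u (k + 1) ≤ u k)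
    (hs : ∀ k, k + 2 ≤ m → ¬ (u k = u (k + 1) ∧ u (k + 1) = u (k + 2))) {h h' : ℝ}
    (hh : h < h') (he : yy m u h = yy m u h') :
    ∃ k, k < m ∧ (k : ℝ) ≤ h ∧ h' ≤ k + 1 ∧ u k = u (k + 1) := by
  have hL : ∀ a b : ℝ, a ≤ b → LL m u b ≤ LL m u a := by
    intro a b hab
    unfold LL
    have h2 : ∑ k ∈ range m, (u (k + 1) - u k) * cl k b ≤
        ∑ k ∈ range m, (u (k + 1) - u k) * cl k a := by
      refine sum_le_sum fun k _ => ?_
      have h3 := cl_mono k hab
      have h4 := hu k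
      nlinarith
    linarith
  have h0 : 0 ≤ h := by
    by_contra hcon
    rw [not_le] at hcon
    have h1 := hL h h' hh.le
    have h2 : mm m h' < mm m h := by
      rw [mm_low m hcon.le]
      rcases le_total h' 0 with h3 | h3
      · rw [mm_low m h3]; linarith
      · have := mm_anti m h3
        rw [mm_low m le_rfl] at this
        linarith
    unfold yy at he
    linarith
  have hm' : h' ≤ m := by
    by_contra hcon
    rw [not_le] at hcon
    have h1 := hL h h' hh.le
    have h2 : mm m h' < mm m h := by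
      rw [mm_high m hcon.le]
      rcases le_total (m : ℝ) h with h3 | h3
      · rw [mm_high m h3]; linarith
      · have := mm_anti m h3
        rw [mm_high m le_rfl] at this
        linarith
    unfold yy at he
    linarith
  have hfl : ((⌊h⌋₊ : ℕ) : ℝ) ≤ h := Nat.floor_le h0
  have hfl2 : h < (⌊h⌋₊ : ℕ) + 1 := Nat.lt_floor_add_one h
  set k := ⌊h⌋₊ with hk
  have hkm : k < m := by
    have : (k : ℝ) < m := by linarith
    exact_mod_cast this
  have hkm' : ((k : ℝ) + 1) ≤ m := by exact_mod_cast hkm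
  have hk0 : (0 : ℝ) ≤ k := Nat.cast_nonneg k
  rcases le_or_gt h' (k + 1) with h1 | h1
  · refine ⟨k, hkm, hfl, h1, ?_⟩
    unfold yy at he
    rw [LL_mid u hkm hfl hfl2.le, LL_mid u hkm (by linarith) h1, mm_mid m h0 (by linarith),
      mm_mid m (by linarith) hm'] at he
    have h2 : (u (k + 1) - u k) * (h' - h) = 0 := by linarith
    rcases mul_eq_zero.1 h2 with h3 | h3
    · linarith
    · linarith
  · exfalso
    have h2 := yy_anti (m := m) hu (h := h) (h' := k + 1) hfl2.le
    have h3 := yy_anti (m := m) hu (h := k + 1) (h' := h') h1.le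
    have e1 : yy m u h = yy m u (k + 1) := by linarith
    have e2 : yy m u (k + 1) = yy m u h' := by linarith
    have h4 : u k = u (k + 1) := by
      unfold yy at e1
      rw [LL_mid u hkm hfl hfl2.le, LL_mid u hkm (by linarith) le_rfl, mm_mid m h0 (by linarith),
        mm_mid m (by linarith) hkm'] at e1
      have h2 : (u (k + 1) - u k) * ((k : ℝ) + 1 - h) = 0 := by linarith
      rcases mul_eq_zero.1 h2 with h3 | h3
      · linarith
      · linarith
    have hk2 : k + 2 ≤ m := by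
      have : ((k + 1 : ℕ) : ℝ) < m := by push_cast; linarith
      have : k + 1 < m := by exact_mod_cast this
      omega
    have hkm2 : ((k : ℝ) + 1 + 1) ≤ m := by exact_mod_cast hk2
    apply hs k hk2
    refine ⟨h4, ?_⟩
    set t := min h' ((k : ℝ) + 1 + 1) with ht
    have ht1 : (k : ℝ) + 1 < t := lt_min h1 (by linarith)
    have ht2 : t ≤ h' := min_le_left _ _
    have ht3 : t ≤ (k : ℝ) + 1 + 1 := min_le_right _ _
    have h5 := yy_anti (m := m) hu (h := k + 1) (h' := t) ht1.le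
    have h6 := yy_anti (m := m) hu (h := t) (h' := h') ht2
    have e3 : yy m u (k + 1) = yy m u t := by linarith
    have hk1 : k + 1 < m := by omega
    have hc : (((k + 1 : ℕ)) : ℝ) = (k : ℝ) + 1 := by push_cast; ring
    unfold yy at e3
    rw [LL_mid u hk1 (by rw [hc]) (by rw [hc]; linarith), LL_mid u hk1 (by rw [hc]; exact ht1.le)
      (by rw [hc]; exact ht3), mm_mid m (by linarith) hkm', mm_mid m (by linarith) (by linarith),
      hc] at e3
    have h7 : (u (k + 1 + 1) - u (k + 1)) * (t - ((k : ℝ) + 1)) = 0 := by linarith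
    rcases mul_eq_zero.1 h7 with h8 | h8
    · have : u (k + 2) = u (k + 1 + 1) := rfl
      linarith
    · linarith

/-! ### the map of the plane -/

/-- `X (x, h)` -/
noncomputable def XX (m : ℕ) (φ : ℕ → ℝ → ℝ) (q : ℝ × ℝ) : ℝ := LL m (fun k => φ k q.1) q.2

/-- the map `(x, h) ↦ (X, yy (G · X) h)` -/
noncomputable def RR (m : ℕ) (φ G : ℕ → ℝ → ℝ) (q : ℝ × ℝ) : ℝ × ℝ :=
  (XX m φ q, yy m (fun k => G k (XX m φ q)) q.2)

/-- hypotheses on the levels -/
structure Levels (m : ℕ) (G : ℕ → ℝ → ℝ) : Prop where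
  cont : ∀ k, Continuous (G k)
  anti : ∀ k x, G (k + 1) x ≤ G k x
  simple : ∀ k x, k + 2 ≤ m → ¬ (G k x = G (k + 1) x ∧ G (k + 1) x = G (k + 2) x)

/-- hypotheses on the changes of abscissa -/
structure Times (φ : ℕ → ℝ → ℝ) : Prop where
  cont : ∀ k, Continuous (φ k)
  mono : ∀ k, StrictMono (φ k)
  above : ∀ k C, ∃ x, C < φ k x
  below : ∀ k C, ∃ x, φ k x < C

variable {m : ℕ} {φ G : ℕ → ℝ → ℝ}

theorem XX_cont (hφ : Times φ) : Continuous (XX m φ) := by
  unfold XX LL
  refine Continuous.add ((hφ.cont 0).comp continuous_fst) ?_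
  refine continuous_finsetSum _ fun k _ => ?_
  exact (((hφ.cont (k + 1)).comp continuous_fst).sub ((hφ.cont k).comp continuous_fst)).mul
    ((cl_cont k).comp continuous_snd)

theorem XX_mono (hφ : Times φ) (h : ℝ) : StrictMono fun x => XX m φ (x, h) := by
  intro x y hxy
  obtain ⟨i, j, t, -, -, h1, h2, h3⟩ := LL_rep m h
  show LL m (fun k => φ k x) h < LL m (fun k => φ k y) h
  rw [h3, h3]
  have h4 := hφ.mono i hxy
  have h5 := hφ.mono j hxy
  rcases eq_or_lt_of_le h1 with h6 | h6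
  · rw [← h6]; linarith
  · have h7 : t * φ j x < t * φ j y := mul_lt_mul_of_pos_left h5 h6
    have h8 : (1 - t) * φ i x ≤ (1 - t) * φ i y :=
      mul_le_mul_of_nonneg_left h4.le (by linarith)
    linarith

theorem exists_bounds (hφ : Times φ) (C : ℝ) : ∃ A B : ℝ, (∀ k ≤ m, ∀ x, B ≤ x → C < φ k x) ∧
    (∀ k ≤ m, ∀ x, x ≤ A → φ k x < -C) := by
  choose b hb using fun k => hφ.above k C
  choose a ha using fun k => hφ.below k (-C)
  have hne : (range (m + 1)).Nonempty := ⟨0, by simp⟩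
  refine ⟨(range (m + 1)).inf' hne a, (range (m + 1)).sup' hne b, ?_, ?_⟩
  · intro k hk x hx
    have h1 : b k ≤ (range (m + 1)).sup' hne b := le_sup' b (by simp; omega)
    exact lt_of_lt_of_le (hb k) ((hφ.mono k).monotone (h1.trans hx))
  · intro k hk x hx
    have h1 : (range (m + 1)).inf' hne a ≤ a k := inf'_le a (by simp; omega)
    exact lt_of_le_of_lt ((hφ.mono k).monotone (hx.trans h1)) (ha k)

theorem conv_gt {a b t C : ℝ} (h1 : 0 ≤ t) (h2 : t ≤ 1) (ha : C < a) (hb : C < b) :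
    C < (1 - t) * a + t * b := by
  rcases eq_or_lt_of_le h1 with h3 | h3
  · rw [← h3]; linarith
  · have h4 : t * C < t * b := mul_lt_mul_of_pos_left hb h3
    have h5 : (1 - t) * C ≤ (1 - t) * a := mul_le_mul_of_nonneg_left ha.le (by linarith)
    linarith

theorem conv_lt {a b t C : ℝ} (h1 : 0 ≤ t) (h2 : t ≤ 1) (ha : a < C) (hb : b < C) :
    (1 - t) * a + t * b < C := by
  have := conv_gt (a := -a) (b := -b) (C := -C) h1 h2 (by linarith) (by linarith)
  linarith

theorem XX_bounds (hφ : Times φ) (C : ℝ) : ∃ A B : ℝ, ∀ x h, |XX m φ (x, h)| ≤ C →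
    A ≤ x ∧ x ≤ B := by
  obtain ⟨A, B, h1, h2⟩ := exists_bounds (m := m) hφ C
  refine ⟨A, B, fun x h hC => ?_⟩
  obtain ⟨i, j, t, hi, hj, ht1, ht2, h3⟩ := LL_rep m h
  have h4 : XX m φ (x, h) = (1 - t) * φ i x + t * φ j x := h3 _
  rw [h4, abs_le] at hC
  constructor
  · by_contra hcon
    rw [not_le] at hcon
    have h7 := conv_lt ht1 ht2 (h2 i hi x hcon.le) (h2 j hj x hcon.le)
    linarith [hC.1]
  · by_contra hcon
    rw [not_le] at hcon
    have h7 := conv_gt ht1 ht2 (h1 i hi x hcon.le) (h1 j hj x hcon.le)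
    linarith [hC.2]

theorem XX_surj (hφ : Times φ) (h v : ℝ) : ∃ x, XX m φ (x, h) = v := by
  obtain ⟨A, B, h1, h2⟩ := exists_bounds (m := m) hφ |v|
  obtain ⟨i, j, t, hi, hj, ht1, ht2, h3⟩ := LL_rep m h
  have hc : Continuous fun x => XX m φ (x, h) :=
    (XX_cont hφ).comp (continuous_id.prodMk continuous_const)
  have hv := abs_nonneg v
  have hv1 := le_abs_self v
  have hv2 := neg_abs_le v
  have h := mem_range_of_exists_le_of_exists_ge (f := fun x => XX m φ (x, h)) (c := v) hc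
    ⟨A, by
      have h4 : XX m φ (A, h) = (1 - t) * φ i A + t * φ j A := h3 _
      have h5 := h2 i hi A le_rfl
      have h6 := h2 j hj A le_rfl
      show XX m φ (A, h) ≤ v
      rw [h4]
      have h7 := conv_lt ht1 ht2 h5 h6
      linarith⟩
    ⟨B, by
      have h4 : XX m φ (B, h) = (1 - t) * φ i B + t * φ j B := h3 _
      have h5 := h1 i hi B le_rfl
      have h6 := h1 j hj B le_rfl
      show v ≤ XX m φ (B, h)
      rw [h4]
      have h7 := conv_gt ht1 ht2 h5 h6
      linarith⟩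
  exact h

theorem RR_cont (hφ : Times φ) (hG : Levels m G) : Continuous (RR m φ G) := by
  have h1 := XX_cont (m := m) hφ
  unfold RR
  refine h1.prodMk ?_
  unfold yy LL
  refine Continuous.add (Continuous.add ((hG.cont 0).comp h1) ?_)
    ((mm_cont m).comp continuous_snd)
  refine continuous_finsetSum _ fun k _ => ?_
  exact (((hG.cont (k + 1)).comp h1).sub ((hG.cont k).comp h1)).mul
    ((cl_cont k).comp continuous_snd)

theorem RR_surj (hφ : Times φ) : Function.Surjective (RR m φ G) := by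
  rintro ⟨u, v⟩
  obtain ⟨h, hh⟩ := yy_surj m (fun k => G k u) v
  obtain ⟨x, hx⟩ := XX_surj (m := m) hφ h u
  refine ⟨(x, h), ?_⟩
  unfold RR
  rw [hx]
  show (u, yy m (fun k => G k u) h) = (u, v)
  rw [hh]

theorem RR_proper (hφ : Times φ) (hG : Levels m G) : IsProperMap (RR m φ G) := by
  rw [isProperMap_iff_isCompact_preimage]
  refine ⟨RR_cont hφ hG, fun K hK => ?_⟩
  refine Metric.isCompact_of_isClosed_isBounded (hK.isClosed.preimage (RR_cont hφ hG)) ?_
  obtain ⟨C, hC⟩ := hK.isBounded.subset_closedBall (0 : ℝ × ℝ)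
  obtain ⟨A, B, hAB⟩ := XX_bounds (m := m) hφ C
  have hb0 : Bornology.IsBounded ((G 0) '' Set.Icc (-C) C) :=
    (isCompact_Icc.image (hG.cont 0)).isBounded
  have hbm : Bornology.IsBounded ((G m) '' Set.Icc (-C) C) :=
    (isCompact_Icc.image (hG.cont m)).isBounded
  obtain ⟨D0, hD0⟩ := hb0.subset_closedBall (0 : ℝ)
  obtain ⟨D1, hD1⟩ := hbm.subset_closedBall (0 : ℝ)
  refine (Metric.isBounded_Icc (A, min 0 (-(C + D0))) (B, max (m : ℝ) (m + C + D1))).subset ?_
  rintro ⟨x, h⟩ hq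
  have h1 := hC hq
  rw [mem_closedBall_zero_iff] at h1
  have h2 : |XX m φ (x, h)| ≤ C := (norm_fst_le (RR m φ G (x, h))).trans h1
  have h3 : |yy m (fun k => G k (XX m φ (x, h))) h| ≤ C :=
    (norm_snd_le (RR m φ G (x, h))).trans h1
  obtain ⟨h4, h5⟩ := hAB x h h2
  rw [abs_le] at h2 h3
  have h6 : |G 0 (XX m φ (x, h))| ≤ D0 := by
    have := hD0 ⟨XX m φ (x, h), ⟨h2.1, h2.2⟩, rfl⟩
    rwa [mem_closedBall_zero_iff] at this
  have h7 : |G m (XX m φ (x, h))| ≤ D1 := by
    have := hD1 ⟨XX m φ (x, h), ⟨h2.1, h2.2⟩, rfl⟩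
    rwa [mem_closedBall_zero_iff] at this
  rw [abs_le] at h6 h7
  refine ⟨⟨h4, ?_⟩, ⟨h5, ?_⟩⟩
  · show min 0 (-(C + D0)) ≤ h
    rcases le_total 0 h with h8 | h8
    · exact (min_le_left _ _).trans h8
    · have h9 : yy m (fun k => G k (XX m φ (x, h))) h = G 0 (XX m φ (x, h)) + -h := by
        unfold yy; rw [LL_low m _ h8, mm_low m h8]
      rw [h9] at h3
      exact (min_le_right _ _).trans (by linarith)
  · show h ≤ max (m : ℝ) (m + C + D1)
    rcases le_total h m with h8 | h8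
    · exact h8.trans (le_max_left _ _)
    · have h9 : yy m (fun k => G k (XX m φ (x, h))) h = G m (XX m φ (x, h)) + (m - h) := by
        unfold yy; rw [LL_high m _ h8, mm_high m h8]
      rw [h9] at h3
      exact le_trans (by linarith) (le_max_right _ _)

theorem RR_quot (hφ : Times φ) (hG : Levels m G) : IsQuotientMap (RR m φ G) :=
  (RR_proper hφ hG).isClosedMap.isQuotientMap (RR_cont hφ hG) (RR_surj hφ)

/-- the fibres of the map -/
theorem RR_fibre (hG : Levels m G) (q q' : ℝ × ℝ) :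
    RR m φ G q = RR m φ G q' ↔ XX m φ q = XX m φ q' ∧ (q.2 = q'.2 ∨ ∃ k, k < m ∧
      (k : ℝ) ≤ q.2 ∧ q.2 ≤ k + 1 ∧ (k : ℝ) ≤ q'.2 ∧ q'.2 ≤ k + 1 ∧
        G k (XX m φ q) = G (k + 1) (XX m φ q)) := by
  constructor
  · intro h
    have h1 : XX m φ q = XX m φ q' := congrArg Prod.fst h
    have h2 : yy m (fun k => G k (XX m φ q)) q.2 = yy m (fun k => G k (XX m φ q')) q'.2 :=
      congrArg Prod.snd h
    refine ⟨h1, ?_⟩
    rw [← h1] at h2
    rcases lt_trichotomy q.2 q'.2 with h3 | h3 | h3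
    · obtain ⟨k, hk, h4, h5, h6⟩ := yy_fibre (fun k => hG.anti k _)
        (fun k hk => hG.simple k _ hk) h3 h2
      exact Or.inr ⟨k, hk, h4, by linarith, by linarith, h5, h6⟩
    · exact Or.inl h3
    · obtain ⟨k, hk, h4, h5, h6⟩ := yy_fibre (fun k => hG.anti k _)
        (fun k hk => hG.simple k _ hk) h3 h2.symm
      exact Or.inr ⟨k, hk, by linarith, h5, h4, by linarith, h6⟩
  · rintro ⟨h1, h2⟩
    show (XX m φ q, yy m (fun k => G k (XX m φ q)) q.2) =
      (XX m φ q', yy m (fun k => G k (XX m φ q')) q'.2)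
    rw [← h1]
    rcases h2 with h2 | ⟨k, hk, h3, h4, h5, h6, h7⟩
    · rw [h2]
    · rw [yy_const hk h7 h3 h4, yy_const hk h7 h5 h6]

theorem exists_homeo {Q Z : Type*} [TopologicalSpace Q] [TopologicalSpace Z] {P R : Q → Z}
    (hP : IsQuotientMap P) (hR : IsQuotientMap R) (h : ∀ q q', P q = P q' ↔ R q = R q') :
    ∃ Φ : Z ≃ₜ Z, ∀ q, Φ (P q) = R q := by
  have h1 : ∀ z, P (Function.surjInv hP.surjective z) = z := Function.surjInv_eq hP.surjective
  have h2 : ∀ z, R (Function.surjInv hR.surjective z) = z := Function.surjInv_eq hR.surjective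
  have h3 : ∀ q, R (Function.surjInv hP.surjective (P q)) = R q := fun q => (h _ _).1 (h1 _)
  have h4 : ∀ q, P (Function.surjInv hR.surjective (R q)) = P q := fun q => (h _ _).2 (h2 _)
  refine ⟨{ toFun := fun z => R (Function.surjInv hP.surjective z)
            invFun := fun z => P (Function.surjInv hR.surjective z)
            left_inv := ?_
            right_inv := ?_
            continuous_toFun := ?_
            continuous_invFun := ?_ }, ?_⟩
  · intro z
    show P (Function.surjInv hR.surjective (R (Function.surjInv hP.surjective z))) = z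
    rw [h4, h1]
  · intro z
    show R (Function.surjInv hP.surjective (P (Function.surjInv hR.surjective z))) = z
    rw [h3, h2]
  · rw [hP.continuous_iff]
    have : (fun z => R (Function.surjInv hP.surjective z)) ∘ P = R := by
      funext q; exact h3 q
    rw [this]
    exact hR.continuous
  · rw [hR.continuous_iff]
    have : (fun z => P (Function.surjInv hR.surjective z)) ∘ R = P := by
      funext q; exact h4 q
    rw [this]
    exact hP.continuous
  · intro q
    exact h3 q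

/-- two families of level curves with corresponding crossings are equivalent by a homeomorphism -/
theorem exists_levels_homeo {F : ℕ → ℝ → ℝ} (hF : Levels m F) (hG : Levels m G) (hφ : Times φ)
    (h1 : ∀ k < m, ∀ x, F k x = F (k + 1) x →
      φ k x = φ (k + 1) x ∧ G k (φ k x) = G (k + 1) (φ k x))
    (h2 : ∀ k < m, ∀ X, G k X = G (k + 1) X →
      ∃ x, φ k x = X ∧ φ (k + 1) x = X ∧ F k x = F (k + 1) x) :
    ∃ Φ : (ℝ × ℝ) ≃ₜ (ℝ × ℝ), ∀ k ≤ m, ∀ x, Φ (x, F k x) = (φ k x, G k (φ k x)) := by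
  have hid : Times (fun (_ : ℕ) (x : ℝ) => x) :=
    ⟨fun _ => continuous_id, fun _ => strictMono_id, fun _ C => ⟨C + 1, by linarith⟩,
      fun _ C => ⟨C - 1, by linarith⟩⟩
  have hX : ∀ q : ℝ × ℝ, XX m (fun (_ : ℕ) (x : ℝ) => x) q = q.1 := by
    intro q
    unfold XX LL
    simp
  have hXc : ∀ k < m, ∀ x h, (k : ℝ) ≤ h → h ≤ k + 1 → φ k x = φ (k + 1) x →
      XX m φ (x, h) = φ k x := by
    intro k hk x h h3 h4 h5
    unfold XX
    rw [LL_mid _ hk h3 h4]
    show (1 - (h - k)) * φ k x + (h - k) * φ (k + 1) x = φ k x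
    rw [← h5]; ring
  obtain ⟨Φ, hΦ⟩ := exists_homeo (RR_quot hid hF) (RR_quot hφ hG) (by
    intro q q'
    rw [RR_fibre hF, RR_fibre hG, hX, hX]
    obtain ⟨x, h⟩ := q
    obtain ⟨x', h'⟩ := q'
    constructor
    · rintro ⟨h3, h4⟩
      have h3' : x = x' := h3
      subst h3'
      rcases h4 with h4 | ⟨k, hk, h5, h6, h7, h8, h9⟩
      · have h4' : h = h' := h4
        subst h4'
        exact ⟨rfl, Or.inl rfl⟩
      · obtain ⟨h10, h11⟩ := h1 k hk x h9
        have e1 := hXc k hk x h h5 h6 h10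
        have e2 := hXc k hk x h' h7 h8 h10
        refine ⟨by rw [e1, e2], Or.inr ⟨k, hk, h5, h6, h7, h8, ?_⟩⟩
        rw [e1]
        exact h11
    · rintro ⟨h3, h4⟩
      rcases h4 with h4 | ⟨k, hk, h5, h6, h7, h8, h9⟩
      · have h4' : h = h' := h4
        subst h4'
        exact ⟨(XX_mono (m := m) hφ h).injective h3, Or.inl rfl⟩
      · obtain ⟨x0, h10, h11, h12⟩ := h2 k hk _ h9
        have e1 := hXc k hk x0 h h5 h6 (by rw [h10, h11])
        have e2 := hXc k hk x0 h' h7 h8 (by rw [h10, h11])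
        have e3 : x = x0 := (XX_mono (m := m) hφ h).injective (by
          show XX m φ (x, h) = XX m φ (x0, h)
          rw [e1, h10])
        have e4 : x' = x0 := (XX_mono (m := m) hφ h').injective (by
          show XX m φ (x', h') = XX m φ (x0, h')
          rw [e2, h10, ← h3])
        subst e3
        subst e4
        exact ⟨rfl, Or.inr ⟨k, hk, h5, h6, h7, h8, h12⟩⟩)
  refine ⟨Φ, fun k hk x => ?_⟩
  have h3 : ∀ (ψ H : ℕ → ℝ → ℝ), RR m ψ H (x, (k : ℝ)) = (ψ k x, H k (ψ k x)) := by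
    intro ψ H
    have hL : ∀ u : ℕ → ℝ, LL m u (k : ℝ) = u k := by
      intro u
      rcases eq_or_lt_of_le hk with rfl | hk'
      · exact LL_high k u le_rfl
      · rw [LL_mid u hk' le_rfl (by linarith)]
        ring
    have hX2 : XX m ψ (x, (k : ℝ)) = ψ k x := hL _
    have hkm : (k : ℝ) ≤ m := by exact_mod_cast hk
    unfold RR
    rw [hX2]
    show (ψ k x, yy m (fun j => H j (ψ k x)) (k : ℝ)) = _
    unfold yy
    rw [hL, mm_mid m (Nat.cast_nonneg k) hkm, add_zero]
  have h4 := hΦ (x, (k : ℝ))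
  rw [h3, h3] at h4
  exact h4

end Pool.Agent.W_be22fd_h39
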