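import Pool.Agent.W_be22fd_h39.OrdStat
import Pool.Agent.W_be22fd_h39.Strip
import Pool.Agent.W_MP_be22fd_co.Defs

/-!
# Simple arrangements with the same orientations of triples are isomorphic
-/

namespace Pool.Agent.W_be22fd_h39

open Finset Topology Filter
open Pool.Agent.W_MP_be22fd_co

/-- crossing data of a simple arrangement whose curves are labelled from top to bottom on the
far left; `a i j` is the abscissa of the crossing of the curves `i` and `j` -/
structure Cross {n : ℕ} (f : Fin n → ℝ → ℝ) (a : Fin n → Fin n → ℝ) : Prop where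
  cont : ∀ i, Continuous (f i)
  symm : ∀ i j, a i j = a j i
  left : ∀ i j, i < j → ∀ x, x < a i j → f j x < f i x
  meet : ∀ i j, i ≠ j → f i (a i j) = f j (a i j)
  right : ∀ i j, i < j → ∀ x, a i j < x → f i x < f j x
  simple : ∀ i j k, i ≠ j → j ≠ k → i ≠ k → ∀ x, ¬ (f i x = f j x ∧ f j x = f k x)

variable {n : ℕ} {f g : Fin n → ℝ → ℝ} {a b : Fin n → Fin n → ℝ}

theorem Cross.lt_iff (hf : Cross f a) {i j : Fin n} (hij : i < j) (x : ℝ) :
    f i x < f j x ↔ a i j < x := by
  constructor
  · intro h
    by_contra hcon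
    rw [not_lt] at hcon
    rcases eq_or_lt_of_le hcon with h1 | h1
    · rw [h1, hf.meet i j hij.ne] at h
      exact lt_irrefl _ h
    · exact absurd (hf.left i j hij x h1) (not_lt.2 h.le)
  · exact hf.right i j hij x

theorem Cross.gt_iff (hf : Cross f a) {i j : Fin n} (hij : i < j) (x : ℝ) :
    f j x < f i x ↔ x < a i j := by
  constructor
  · intro h
    by_contra hcon
    rw [not_lt] at hcon
    rcases eq_or_lt_of_le hcon with h1 | h1
    · rw [← h1, hf.meet i j hij.ne] at h
      exact lt_irrefl _ h
    · exact absurd (hf.right i j hij x h1) (not_lt.2 h.le)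
  · exact hf.left i j hij x

theorem Cross.eq_iff (hf : Cross f a) {i j : Fin n} (hij : i ≠ j) (x : ℝ) :
    f i x = f j x ↔ x = a i j := by
  constructor
  · intro h
    rcases lt_or_gt_of_ne hij with h1 | h1
    · rcases lt_trichotomy x (a i j) with h2 | h2 | h2
      · exact absurd h (hf.left i j h1 x h2).ne'
      · exact h2
      · exact absurd h (hf.right i j h1 x h2).ne
    · rw [hf.symm]
      rcases lt_trichotomy x (a j i) with h2 | h2 | h2
      · exact absurd h (hf.left j i h1 x h2).ne
      · exact h2
      · exact absurd h (hf.right j i h1 x h2).ne'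
  · rintro rfl
    exact hf.meet i j hij

/-- the three crossings of a triple are met in one of the two lexicographic orders -/
theorem Cross.tri (hf : Cross f a) {i j k : Fin n} (hij : i < j) (hjk : j < k) :
    (a i j < a i k ∧ a i k < a j k ∧ a i j < a j k) ∨
      (a j k < a i k ∧ a i k < a i j ∧ a j k < a i j) := by
  have hik := hij.trans hjk
  have hm := hf.meet i k hik.ne
  rcases lt_trichotomy (a i j) (a j k) with h | h | h
  · left
    refine ⟨?_, ?_, h⟩
    · by_contra hcon
      rw [not_lt] at hcon
      have h1 : f k (a i k) < f j (a i k) := hf.left j k hjk _ (by linarith)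
      have h2 : f j (a i k) ≤ f i (a i k) := by
        by_contra h3
        rw [not_le] at h3
        have := (hf.lt_iff hij _).1 h3
        linarith
      linarith
    · by_contra hcon
      rw [not_lt] at hcon
      have h1 : f i (a i k) < f j (a i k) := hf.right i j hij _ (by linarith)
      have h2 : f j (a i k) ≤ f k (a i k) := by
        by_contra h3
        rw [not_le] at h3
        have := (hf.gt_iff hjk _).1 h3
        linarith
      linarith
  · exfalso
    refine hf.simple i j k hij.ne hjk.ne hik.ne (a i j) ⟨hf.meet i j hij.ne, ?_⟩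
    rw [h]
    exact hf.meet j k hjk.ne
  · right
    refine ⟨?_, ?_, h⟩
    · by_contra hcon
      rw [not_lt] at hcon
      have h1 : f j (a i k) < f i (a i k) := hf.left i j hij _ (by linarith)
      have h2 : f k (a i k) ≤ f j (a i k) := by
        by_contra h3
        rw [not_le] at h3
        have := (hf.lt_iff hjk _).1 h3
        linarith
      linarith
    · by_contra hcon
      rw [not_lt] at hcon
      have h1 : f j (a i k) < f k (a i k) := hf.right j k hjk _ (by linarith)
      have h2 : f i (a i k) ≤ f j (a i k) := by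
        by_contra h3
        rw [not_le] at h3
        have := (hf.gt_iff hij _).1 h3
        linarith
      linarith

/-- the crossings on one curve are met in the same order -/
theorem order_iff (hf : Cross f a) (hg : Cross g b)
    (ho : ∀ i j k, i < j → j < k → (a i j < a j k ↔ b i j < b j k)) (i j k : Fin n)
    (hji : j ≠ i) (hki : k ≠ i) : a i j < a i k ↔ b i j < b i k := by
  -- the statement for sorted triples
  have key : ∀ p q r : Fin n, p < q → q < r →
      (a p q < a p r ↔ b p q < b p r) ∧ (a p r < a p q ↔ b p r < b p q) ∧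
      (a q p < a q r ↔ b q p < b q r) ∧ (a q r < a q p ↔ b q r < b q p) ∧
      (a r p < a r q ↔ b r p < b r q) ∧ (a r q < a r p ↔ b r q < b r p) := by
    intro p q r hpq hqr
    have h1 := hf.tri hpq hqr
    have h2 := hg.tri hpq hqr
    have h3 := ho p q r hpq hqr
    rw [hf.symm q p, hg.symm q p, hf.symm r p, hg.symm r p, hf.symm r q, hg.symm r q]
    rcases h1 with ⟨u1, u2, u3⟩ | ⟨u1, u2, u3⟩ <;> rcases h2 with ⟨v1, v2, v3⟩ | ⟨v1, v2, v3⟩
    · exact ⟨⟨fun _ => v1, fun _ => u1⟩, ⟨fun h => by linarith, fun h => by linarith⟩,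
        ⟨fun _ => v3, fun _ => u3⟩, ⟨fun h => by linarith, fun h => by linarith⟩,
        ⟨fun _ => v2, fun _ => u2⟩, ⟨fun h => by linarith, fun h => by linarith⟩⟩
    · exfalso
      have := h3.1 u3
      linarith
    · exfalso
      have := h3.2 v3
      linarith
    · exact ⟨⟨fun h => by linarith, fun h => by linarith⟩, ⟨fun _ => v2, fun _ => u2⟩,
        ⟨fun h => by linarith, fun h => by linarith⟩, ⟨fun _ => v3, fun _ => u3⟩,
        ⟨fun h => by linarith, fun h => by linarith⟩, ⟨fun _ => v1, fun _ => u1⟩⟩
  rcases eq_or_ne j k with rfl | hjk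
  · simp
  rcases lt_or_gt_of_ne hji with h1 | h1 <;> rcases lt_or_gt_of_ne hki with h2 | h2 <;>
    rcases lt_or_gt_of_ne hjk with h3 | h3
  · exact (key j k i h3 h2).2.2.2.2.1
  · exact (key k j i h3 h1).2.2.2.2.2
  · exact (key j i k h1 h2).2.2.1
  · exact absurd (h1.trans h2) (not_lt.2 h3.le)
  · exact absurd (h2.trans h1) (not_lt.2 h3.le)
  · exact (key k i j h2 h1).2.2.2.1
  · exact (key i j k h1 h3).1
  · exact (key i k j h2 h3).2.1

/-- a continuous function which is strictly increasing to the right of every point is strictly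
increasing -/
theorem strictMono_of_local {φ : ℝ → ℝ} (hc : Continuous φ)
    (h : ∀ x, ∀ᶠ y in 𝓝[>] x, φ x < φ y) : StrictMono φ := by
  intro p q hpq
  obtain ⟨c, hc1, hc2⟩ := isCompact_Icc.exists_isMaxOn (Set.nonempty_Icc.2 hpq.le)
    hc.continuousOn
  have hcq : c = q := by
    by_contra hne
    have hlt : c < q := lt_of_le_of_ne hc1.2 hne
    obtain ⟨y, h1, h2⟩ := ((h c).and (Ioo_mem_nhdsGT hlt)).exists
    have h3 := hc2 (show y ∈ Set.Icc p q from ⟨hc1.1.trans h2.1.le, h2.2.le⟩)
    exact absurd h1 (not_lt.2 h3)
  obtain ⟨y, h1, h2⟩ := ((h p).and (Ioo_mem_nhdsGT hpq)).exists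
  have h3 := hc2 (show y ∈ Set.Icc p q from ⟨h2.1.le, h2.2.le⟩)
  have h4 : φ y ≤ φ c := h3
  rw [hcq] at h4
  exact lt_of_lt_of_le h1 h4

/-- the `k`-th level curve -/
noncomputable def level {m : ℕ} (f : Fin (m + 1) → ℝ → ℝ) (k : ℕ) (x : ℝ) : ℝ :=
  lvl (fun i => f i x) k

theorem levels_of_cross {m : ℕ} {f : Fin (m + 1) → ℝ → ℝ} {a : Fin (m + 1) → Fin (m + 1) → ℝ}
    (hf : Cross f a) : Levels m (level f) := by
  refine ⟨fun k => lvl_continuous hf.cont k, fun k x => lvl_antitone_succ _ k, ?_⟩
  rintro k x hk ⟨h1, h2⟩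
  classical
  have e0 := (lvl_eq_iff (fun i => f i x) (k := k) (by omega) (level f k x)).1 rfl
  have e2 := (lvl_eq_iff (fun i => f i x) (k := k + 2) hk (level f k x)).1 (h1.trans h2).symm
  have hsub : (univ.filter fun i => level f k x ≤ f i x) ⊆
      (univ.filter fun i => level f k x < f i x) ∪ (univ.filter fun i => f i x = level f k x) := by
    intro i hi
    rw [mem_filter] at hi
    rw [mem_union, mem_filter, mem_filter]
    rcases eq_or_lt_of_le hi.2 with h | h
    · exact Or.inr ⟨mem_univ _, h.symm⟩
    · exact Or.inl ⟨mem_univ _, h⟩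
  have h3 := (card_le_card hsub).trans (card_union_le _ _)
  have h4 : 2 < (univ.filter fun i => f i x = level f k x).card := by
    have := e0.1
    have := e2.2
    omega
  rw [two_lt_card] at h4
  obtain ⟨p, hp, q, hq, r, hr, hpq, hpr, hqr⟩ := h4
  rw [mem_filter] at hp hq hr
  exact hf.simple p q r hpq hqr hpr x ⟨hp.2.trans hq.2.symm, hq.2.trans hr.2.symm⟩

/-- ISOMORPHISM THEOREM: two simple arrangements, labelled from top to bottom on the far left, in
which every triple has the same orientation, are isomorphic, by a homeomorphism which respects the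
labels. -/
theorem exists_homeo_of_orientation {m : ℕ} {f g : Fin (m + 1) → ℝ → ℝ}
    {a b : Fin (m + 1) → Fin (m + 1) → ℝ} (hf : Cross f a) (hg : Cross g b)
    (ho : ∀ i j k, i < j → j < k → (a i j < a j k ↔ b i j < b j k)) :
    ∃ Φ : (ℝ × ℝ) ≃ₜ (ℝ × ℝ), ∀ i, Φ '' curve (f i) = curve (g i) := by
  classical
  have hθ : ∀ i, ∃ θ : ℝ ≃o ℝ, ∀ j, j ≠ i → θ (a i j) = b i j := by
    intro i
    obtain ⟨θ, h⟩ := exists_orderIso (univ.erase i) (a i) (b i) (by
      intro j hj k hk
      exact order_iff hf hg ho i j k (ne_of_mem_erase hj) (ne_of_mem_erase hk))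
    exact ⟨θ, fun j hj => h j (mem_erase.2 ⟨hj, mem_univ _⟩)⟩
  choose θ hθ using hθ
  -- transport of the signs
  have hsign : ∀ i j x, i ≠ j → ((f i x < f j x ↔ g i (θ i x) < g j (θ i x)) ∧
      (f j x < f i x ↔ g j (θ i x) < g i (θ i x))) := by
    intro i j x hij
    have e : θ i (a i j) = b i j := hθ i j hij.symm
    have l1 : a i j < x ↔ b i j < θ i x := by rw [← e, (θ i).lt_iff_lt]
    have l2 : x < a i j ↔ θ i x < b i j := by rw [← e, (θ i).lt_iff_lt]
    rcases lt_or_gt_of_ne hij with h | h
    · rw [hf.lt_iff h, hg.lt_iff h, hf.gt_iff h, hg.gt_iff h]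
      exact ⟨l1, l2⟩
    · rw [hf.lt_iff h, hg.lt_iff h, hf.gt_iff h, hg.gt_iff h, hf.symm j i, hg.symm j i]
      exact ⟨l2, l1⟩
  have hlev : ∀ k, k ≤ m → ∀ i x, level f k x = f i x ↔ level g k (θ i x) = g i (θ i x) := by
    intro k hk i x
    unfold level
    rw [lvl_eq_iff _ hk, lvl_eq_iff _ hk]
    have e1 : (univ.filter fun j => f i x < f j x) =
        univ.filter fun j => g i (θ i x) < g j (θ i x) := by
      refine filter_congr fun j _ => ?_
      rcases eq_or_ne i j with rfl | hij
      · simp
      · exact (hsign i j x hij).1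
    have e2 : (univ.filter fun j => f i x ≤ f j x) =
        univ.filter fun j => g i (θ i x) ≤ g j (θ i x) := by
      refine filter_congr fun j _ => ?_
      rcases eq_or_ne i j with rfl | hij
      · simp
      · rw [← not_lt, ← not_lt]
        exact not_congr (hsign i j x hij).2
    rw [e1, e2]
  -- the change of abscissa on the level curves
  set φ : ℕ → ℝ → ℝ := fun k x => θ (idx (fun i => f i x) k) x with hφdef
  have hidx : ∀ k x, level f k x = f (idx (fun i => f i x) k) x := fun k x => rfl
  have hφ : ∀ k i x, level f k x = f i x → φ k x = θ i x := by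
    intro k i x h
    rw [hidx] at h
    show θ (idx (fun i => f i x) k) x = θ i x
    rcases eq_or_ne (idx (fun i => f i x) k) i with h1 | h1
    · rw [h1]
    · have h2 := (hf.eq_iff h1 x).1 h
      have h3 : θ (idx (fun i => f i x) k) x = b (idx (fun i => f i x) k) i := by
        have := hθ (idx (fun i => f i x) k) i h1.symm
        rwa [← h2] at this
      have h4 : θ i x = b i (idx (fun i => f i x) k) := by
        have := hθ i (idx (fun i => f i x) k) h1
        rwa [← hf.symm, ← h2] at this
      rw [h3, h4, hg.symm]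
  have hL := levels_of_cross hf
  have hM := levels_of_cross hg
  have hnear : ∀ k x0 i, f i x0 ≠ level f k x0 → ∀ᶠ x in 𝓝 x0, f i x ≠ level f k x := by
    intro k x0 i h
    exact ((hf.cont i).continuousAt).ne_iff_eventually_ne ((hL.cont k).continuousAt) |>.1 h
  have hcont : ∀ k, Continuous (φ k) := by
    intro k
    rw [continuous_iff_continuousAt]
    intro x0
    rw [Metric.continuousAt_iff']
    intro ε hε
    have h1 : ∀ i, ∀ᶠ x in 𝓝 x0, level f k x = f i x → dist (θ i x) (φ k x0) < ε := by
      intro i
      by_cases h : level f k x0 = f i x0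
      · have h2 : φ k x0 = θ i x0 := hφ k i x0 h
        rw [h2]
        filter_upwards [Metric.continuousAt_iff'.1 ((θ i).continuous.continuousAt (x := x0)) ε hε]
          with x hx _
        exact hx
      · filter_upwards [hnear k x0 i (fun hh => h hh.symm)] with x hx hx2
        exact absurd hx2.symm hx
    filter_upwards [eventually_all.2 h1] with x hx
    exact hx _ (hidx k x)
  have hloc : ∀ k x0, ∀ᶠ x in 𝓝[>] x0, φ k x0 < φ k x := by
    intro k x0
    have h1 : ∀ i, ∀ᶠ x in 𝓝[>] x0, level f k x = f i x → φ k x0 < θ i x := by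
      intro i
      by_cases h : level f k x0 = f i x0
      · have h2 : φ k x0 = θ i x0 := hφ k i x0 h
        rw [h2]
        filter_upwards [self_mem_nhdsWithin] with x hx _
        exact (θ i).strictMono hx
      · filter_upwards [nhdsWithin_le_nhds (hnear k x0 i (fun hh => h hh.symm))] with x hx hx2
        exact absurd hx2.symm hx
    filter_upwards [eventually_all.2 h1] with x hx
    exact hx _ (hidx k x)
  have hT : Times φ := by
    refine ⟨hcont, fun k => strictMono_of_local (hcont k) (hloc k), ?_, ?_⟩
    · intro k C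
      refine ⟨univ.sup' univ_nonempty (fun i => (θ i).symm C) + 1, ?_⟩
      set x := univ.sup' univ_nonempty (fun i => (θ i).symm C) + 1 with hx
      show C < θ (idx (fun i => f i x) k) x
      rw [← OrderIso.symm_apply_lt]
      have := le_sup' (fun i => (θ i).symm C) (mem_univ (idx (fun i => f i x) k))
      linarith
    · intro k C
      refine ⟨univ.inf' univ_nonempty (fun i => (θ i).symm C) - 1, ?_⟩
      set x := univ.inf' univ_nonempty (fun i => (θ i).symm C) - 1 with hx
      show θ (idx (fun i => f i x) k) x < C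
      rw [← OrderIso.lt_symm_apply]
      have := inf'_le (fun i => (θ i).symm C) (mem_univ (idx (fun i => f i x) k))
      linarith
  obtain ⟨Φ, hΦ⟩ := exists_levels_homeo hL hM hT
    (by
      intro k hk x h
      have h1 : level f (k + 1) x = f (idx (fun i => f i x) k) x := by rw [← h, hidx]
      have h2 := hφ (k + 1) _ x h1
      have h3 : φ k x = θ (idx (fun i => f i x) k) x := rfl
      refine ⟨by rw [h3, h2], ?_⟩
      rw [h3, (hlev k hk.le _ x).1 (hidx k x), (hlev (k + 1) hk _ x).1 h1])
    (by
      intro k hk X h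
      set i := idx (fun i => g i X) k with hi
      have h0 : level g k X = g i X := rfl
      have h1 : level g (k + 1) X = g i X := by rw [← h, h0]
      have e : θ i ((θ i).symm X) = X := OrderIso.apply_symm_apply _ _
      have h2 : level f k ((θ i).symm X) = f i ((θ i).symm X) := by
        rw [hlev k hk.le, e]; exact h0
      have h3 : level f (k + 1) ((θ i).symm X) = f i ((θ i).symm X) := by
        rw [hlev (k + 1) hk, e]; exact h1
      refine ⟨(θ i).symm X, ?_, ?_, ?_⟩
      · rw [hφ k i _ h2, e]
      · rw [hφ (k + 1) i _ h3, e]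
      · rw [h2, h3])
  refine ⟨Φ, fun i => ?_⟩
  have key : ∀ x, Φ (x, f i x) = (θ i x, g i (θ i x)) := by
    intro x
    have hk : ∃ k ≤ m, level f k x = f i x := by
      refine ⟨(univ.filter fun j => f i x < f j x).card, ?_, ?_⟩
      · have h1 : (univ.filter fun j => f i x < f j x) ⊆ univ.erase i := by
          intro j hj
          rw [mem_filter] at hj
          rw [mem_erase]
          refine ⟨?_, mem_univ _⟩
          rintro rfl
          exact lt_irrefl _ hj.2
        have h2 := card_le_card h1
        rw [card_erase_of_mem (mem_univ _), card_univ, Fintype.card_fin] at h2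
        exact h2
      · unfold level
        have h1 : (univ.filter fun j => f i x < f j x) ⊆ univ.erase i := by
          intro j hj
          rw [mem_filter] at hj
          rw [mem_erase]
          refine ⟨?_, mem_univ _⟩
          rintro rfl
          exact lt_irrefl _ hj.2
        have h2 := card_le_card h1
        rw [card_erase_of_mem (mem_univ _), card_univ, Fintype.card_fin] at h2
        rw [lvl_eq_iff _ h2]
        refine ⟨le_rfl, ?_⟩
        refine card_lt_card ?_
        rw [Finset.ssubset_iff_of_subset (by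
          intro j hj
          rw [mem_filter] at hj ⊢
          exact ⟨mem_univ _, hj.2.le⟩)]
        refine ⟨i, ?_, ?_⟩
        · rw [mem_filter]; exact ⟨mem_univ _, le_rfl⟩
        · rw [mem_filter]; exact fun hh => lt_irrefl _ hh.2
    obtain ⟨k, hk, h⟩ := hk
    have h1 := hΦ k hk x
    rw [h, hφ k i x h, (hlev k hk i x).1 h] at h1
    exact h1
  ext ⟨X, Y⟩
  constructor
  · rintro ⟨⟨x, y⟩, hxy, h⟩
    have h1 : y = f i x := hxy
    subst h1
    rw [key] at h
    show Y = g i X
    have h2 := congrArg Prod.fst h
    have h3 := congrArg Prod.snd h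
    simp only at h2 h3
    rw [← h2, ← h3]
  · intro hXY
    have h1 : Y = g i X := hXY
    refine ⟨((θ i).symm X, f i ((θ i).symm X)), rfl, ?_⟩
    rw [key, OrderIso.apply_symm_apply, ← h1]

end Pool.Agent.W_be22fd_h39
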