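import Mathlib

/-!
# Order statistics of a finite family of reals, and extension of finite order isomorphisms
-/

set_option autoImplicit false

namespace Pool.Agent.W_be22fd_h39

open Finset

variable {m : ℕ}

/-- the index of the `k`-th largest value (`k = 0, ..., m`) -/
noncomputable def idx (u : Fin (m + 1) → ℝ) (k : ℕ) : Fin (m + 1) :=
  Tuple.sort (fun i => -u i) ⟨min k m, by omega⟩

/-- the `k`-th largest value (`k = 0, ..., m`) -/
noncomputable def lvl (u : Fin (m + 1) → ℝ) (k : ℕ) : ℝ := u (idx u k)

theorem card_gt_le (u : Fin (m + 1) → ℝ) (k : ℕ) :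
    (univ.filter fun i => lvl u k < u i).card ≤ min k m := by
  classical
  set σ := Tuple.sort (fun i => -u i) with hσ
  have hmono : Monotone ((fun i => -u i) ∘ σ) := Tuple.monotone_sort _
  have hsub : (univ.filter fun i => lvl u k < u i) ⊆
      ((univ : Finset (Fin (m + 1))).filter fun j => j.1 < min k m).image σ := by
    intro i hi
    rw [mem_filter] at hi
    rw [mem_image]
    refine ⟨σ.symm i, ?_, by simp⟩
    rw [mem_filter]
    refine ⟨mem_univ _, ?_⟩
    by_contra hcon
    have h1 : (⟨min k m, by omega⟩ : Fin (m + 1)) ≤ σ.symm i := by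
      rw [Fin.le_def]; exact not_lt.1 hcon
    have h2 := hmono h1
    simp only [Function.comp, Equiv.apply_symm_apply] at h2
    have h3 : lvl u k = u (σ ⟨min k m, by omega⟩) := rfl
    have h4 := hi.2
    rw [h3] at h4
    linarith
  refine (card_le_card hsub).trans (card_image_le.trans ?_)
  have : ((univ : Finset (Fin (m + 1))).filter fun j => j.1 < min k m).card ≤
      (range (min k m)).card := by
    refine card_le_card_of_injOn (fun j => j.1) ?_ ?_
    · intro j hj
      have := (mem_filter.1 (mem_coe.1 hj)).2
      simpa using this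
    · intro a _ b _ hab
      exact Fin.ext hab
  simpa using this

theorem lt_card_ge (u : Fin (m + 1) → ℝ) (k : ℕ) :
    min k m < (univ.filter fun i => lvl u k ≤ u i).card := by
  classical
  set σ := Tuple.sort (fun i => -u i) with hσ
  have hmono : Monotone ((fun i => -u i) ∘ σ) := Tuple.monotone_sort _
  have hsub : ((univ : Finset (Fin (m + 1))).filter fun j => j.1 ≤ min k m).image σ ⊆
      (univ.filter fun i => lvl u k ≤ u i) := by
    intro i hi
    rw [mem_image] at hi
    obtain ⟨j, hj, rfl⟩ := hi
    rw [mem_filter]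
    refine ⟨mem_univ _, ?_⟩
    have h1 : j ≤ (⟨min k m, by omega⟩ : Fin (m + 1)) := by
      rw [Fin.le_def]; exact (mem_filter.1 hj).2
    have h2 := hmono h1
    simp only [Function.comp] at h2
    have h3 : lvl u k = u (σ ⟨min k m, by omega⟩) := rfl
    rw [h3]
    linarith
  refine lt_of_lt_of_le ?_ (card_le_card hsub)
  rw [card_image_of_injective _ σ.injective]
  have : (range (min k m + 1)).card ≤
      ((univ : Finset (Fin (m + 1))).filter fun j => j.1 ≤ min k m).card := by
    refine card_le_card_of_injOn (fun j => if h : j < m + 1 then ⟨j, h⟩ else 0) ?_ ?_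
    · intro j hj
      have hj' : j < min k m + 1 := by simpa using hj
      have hjm : j < m + 1 := by omega
      simp only [hjm, dif_pos]
      refine mem_coe.2 (mem_filter.2 ⟨mem_univ _, ?_⟩)
      show j ≤ min k m
      omega
    · intro a ha b hb hab
      have ha' : a < min k m + 1 := by simpa using ha
      have hb' : b < min k m + 1 := by simpa using hb
      have ha2 : a < m + 1 := by omega
      have hb2 : b < m + 1 := by omega
      simp only [ha2, hb2, dif_pos] at hab
      exact congrArg Fin.val hab
  rw [card_range] at this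
  omega

/-- characterisation of the `k`-th largest value -/
theorem lvl_eq_iff (u : Fin (m + 1) → ℝ) {k : ℕ} (hk : k ≤ m) (v : ℝ) :
    lvl u k = v ↔ (univ.filter fun i => v < u i).card ≤ k ∧
      k < (univ.filter fun i => v ≤ u i).card := by
  have hmin : min k m = k := by omega
  have h1 := card_gt_le u k
  have h2 := lt_card_ge u k
  rw [hmin] at h1 h2
  constructor
  · rintro rfl
    exact ⟨h1, h2⟩
  · rintro ⟨h3, h4⟩
    rcases lt_trichotomy (lvl u k) v with h | h | h
    · exfalso
      have hsub : (univ.filter fun i => v ≤ u i) ⊆ (univ.filter fun i => lvl u k < u i) := by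
        intro i hi
        rw [mem_filter] at hi ⊢
        exact ⟨mem_univ _, lt_of_lt_of_le h hi.2⟩
      have := card_le_card hsub
      omega
    · exact h
    · exfalso
      have hsub : (univ.filter fun i => lvl u k ≤ u i) ⊆ (univ.filter fun i => v < u i) := by
        intro i hi
        rw [mem_filter] at hi ⊢
        exact ⟨mem_univ _, lt_of_lt_of_le h hi.2⟩
      have := card_le_card hsub
      omega

theorem lvl_antitone_succ (u : Fin (m + 1) → ℝ) (k : ℕ) : lvl u (k + 1) ≤ lvl u k := by
  have hmono : Monotone ((fun i => -u i) ∘ Tuple.sort (fun i => -u i)) := Tuple.monotone_sort _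
  have h1 : (⟨min k m, by omega⟩ : Fin (m + 1)) ≤ ⟨min (k + 1) m, by omega⟩ := by
    rw [Fin.le_def]; show min k m ≤ min (k + 1) m; omega
  have h2 := hmono h1
  simp only [Function.comp] at h2
  show u (Tuple.sort (fun i => -u i) ⟨min (k + 1) m, by omega⟩) ≤
    u (Tuple.sort (fun i => -u i) ⟨min k m, by omega⟩)
  linarith

theorem lvl_lipschitz (u v : Fin (m + 1) → ℝ) (k : ℕ) (ε : ℝ) (h : ∀ i, |u i - v i| ≤ ε) :
    lvl u k ≤ lvl v k + ε := by
  by_contra hcon
  rw [not_le] at hcon
  have h1 := card_gt_le v k
  have h2 := lt_card_ge u k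
  have hsub : (univ.filter fun i => lvl u k ≤ u i) ⊆ (univ.filter fun i => lvl v k < v i) := by
    intro i hi
    rw [mem_filter] at hi ⊢
    refine ⟨mem_univ _, ?_⟩
    have h3 := abs_le.1 (h i)
    linarith [hi.2]
  have := card_le_card hsub
  omega

theorem lvl_continuous {f : Fin (m + 1) → ℝ → ℝ} (hf : ∀ i, Continuous (f i)) (k : ℕ) :
    Continuous fun x => lvl (fun i => f i x) k := by
  rw [Metric.continuous_iff]
  intro x0 ε hε
  have h1 : ∀ i, ∃ δ > 0, ∀ x, dist x x0 < δ → dist (f i x) (f i x0) < ε / 2 := fun i =>
    Metric.continuous_iff.1 (hf i) x0 (ε / 2) (by positivity)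
  choose δ hδ hd using h1
  refine ⟨univ.inf' univ_nonempty δ, ?_, ?_⟩
  · rw [gt_iff_lt, lt_inf'_iff]
    intro i _; exact hδ i
  · intro x hx
    have h2 : ∀ i, |f i x - f i x0| ≤ ε / 2 := by
      intro i
      have := hd i x (lt_of_lt_of_le hx (inf'_le _ (mem_univ i)))
      rw [Real.dist_eq] at this
      exact this.le
    have h3 := lvl_lipschitz (fun i => f i x) (fun i => f i x0) k (ε / 2) h2
    have h4 := lvl_lipschitz (fun i => f i x0) (fun i => f i x) k (ε / 2)
      (fun i => by rw [abs_sub_comm]; exact h2 i)
    rw [Real.dist_eq, abs_lt]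
    constructor <;> linarith

/-! ### finite order isomorphisms of the line -/

/-- change an order isomorphism to the right of `c` into a line of slope `s` -/
theorem exists_glue (θ : ℝ ≃o ℝ) (c s : ℝ) (hs : 0 < s) :
    ∃ θ' : ℝ ≃o ℝ, (∀ x ≤ c, θ' x = θ x) ∧ ∀ x, c ≤ x → θ' x = θ c + s * (x - c) := by
  have hmono : StrictMono (fun x : ℝ => if x ≤ c then θ x else θ c + s * (x - c)) := by
    intro x y hxy
    show (if x ≤ c then θ x else θ c + s * (x - c)) < (if y ≤ c then θ y else θ c + s * (y - c))
    by_cases hy : y ≤ c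
    · rw [if_pos hy, if_pos (hxy.le.trans hy)]
      exact θ.strictMono hxy
    · rw [if_neg hy]
      rw [not_le] at hy
      by_cases hx : x ≤ c
      · rw [if_pos hx]
        have h1 : θ x ≤ θ c := θ.monotone hx
        have h2 : 0 < s * (y - c) := mul_pos hs (by linarith)
        linarith
      · rw [if_neg hx]
        have : s * (x - c) < s * (y - c) := mul_lt_mul_of_pos_left (by linarith) hs
        linarith
  have hsurj : Function.Surjective (fun x : ℝ => if x ≤ c then θ x else θ c + s * (x - c)) := by
    intro y
    by_cases hy : y ≤ θ c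
    · refine ⟨θ.symm y, ?_⟩
      have h1 : θ.symm y ≤ c := by rw [OrderIso.symm_apply_le]; exact hy
      show (if θ.symm y ≤ c then θ (θ.symm y) else _) = y
      rw [if_pos h1, OrderIso.apply_symm_apply]
    · rw [not_le] at hy
      have hp : 0 < (y - θ c) / s := div_pos (by linarith) hs
      refine ⟨c + (y - θ c) / s, ?_⟩
      show (if c + (y - θ c) / s ≤ c then _ else θ c + s * (c + (y - θ c) / s - c)) = y
      rw [if_neg (by linarith)]
      field_simp
      ring
  refine ⟨hmono.orderIsoOfSurjective _ hsurj, ?_, ?_⟩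
  · intro x hx
    show (if x ≤ c then θ x else _) = θ x
    rw [if_pos hx]
  · intro x hx
    show (if x ≤ c then θ x else θ c + s * (x - c)) = _
    by_cases h : x ≤ c
    · rw [if_pos h]
      have : x = c := le_antisymm h hx
      rw [this]; ring
    · rw [if_neg h]

/-- A finite order isomorphism between subsets of the line extends to the line. -/
theorem exists_orderIso {ι : Type*} (S : Finset ι) (a b : ι → ℝ)
    (h : ∀ i ∈ S, ∀ j ∈ S, a i < a j ↔ b i < b j) :
    ∃ θ : ℝ ≃o ℝ, ∀ i ∈ S, θ (a i) = b i := by
  classical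
  induction S using Finset.induction_on_max_value a with
  | empty => exact ⟨OrderIso.refl ℝ, fun i hi => absurd hi (notMem_empty i)⟩
  | insert i0 S hi0 hmax ih =>
    obtain ⟨θ, hθ⟩ := ih (fun i hi j hj =>
      h i (mem_insert_of_mem hi) j (mem_insert_of_mem hj))
    rcases S.eq_empty_or_nonempty with rfl | hne
    · refine ⟨OrderIso.addRight (b i0 - a i0), ?_⟩
      intro i hi
      rw [mem_insert] at hi
      rcases hi with rfl | hi
      · simp
      · exact absurd hi (notMem_empty i)
    · obtain ⟨i1, hi1, hmax1⟩ := exists_max_image S a hne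
      by_cases heq : a i1 = a i0
      · refine ⟨θ, ?_⟩
        intro i hi
        rw [mem_insert] at hi
        rcases hi with rfl | hi
        · have h1 := h i1 (mem_insert_of_mem hi1) i (mem_insert_self _ _)
          have h2 := h i (mem_insert_self _ _) i1 (mem_insert_of_mem hi1)
          rw [heq] at h1 h2
          have h3 : ¬ b i1 < b i := fun hh => lt_irrefl _ (h1.2 hh)
          have h4 : ¬ b i < b i1 := fun hh => lt_irrefl _ (h2.2 hh)
          rw [← heq, hθ i1 hi1]
          exact le_antisymm (not_lt.1 h4) (not_lt.1 h3)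
        · exact hθ i hi
      · have hlt : a i1 < a i0 := lt_of_le_of_ne (hmax i1 hi1) heq
        have hblt : b i1 < b i0 := (h i1 (mem_insert_of_mem hi1) i0 (mem_insert_self _ _)).1 hlt
        obtain ⟨θ', h1, h2⟩ := exists_glue θ (a i1) ((b i0 - b i1) / (a i0 - a i1))
          (div_pos (by linarith) (by linarith))
        refine ⟨θ', ?_⟩
        intro i hi
        rw [mem_insert] at hi
        rcases hi with rfl | hi
        · rw [h2 _ hlt.le, hθ i1 hi1]
          have : a i - a i1 ≠ 0 := by intro hh; linarith
          field_simp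
          ring
        · rw [h1 _ (hmax1 i hi), hθ i hi]

end Pool.Agent.W_be22fd_h39
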