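import Mathlib

/-!
# Small perturbations of a polynomial with one simple real zero
-/

namespace Pool.Agent.W_be22fd_h39

open Finset Topology Filter Polynomial

theorem pos_box {F : ℝ × ℝ → ℝ} (hF : Continuous F) {y : ℝ} (h : 0 < F (0, y)) :
    ∃ δ > 0, ∀ᶠ ε in 𝓝 (0 : ℝ), ∀ t, |t - y| < δ → 0 < F (ε, t) := by
  have h1 : ∀ᶠ z in 𝓝 ((0 : ℝ), y), 0 < F z := hF.continuousAt.eventually (lt_mem_nhds h)
  rw [nhds_prod_eq] at h1
  obtain ⟨p, hp, q, hq, hpq⟩ := eventually_prod_iff.1 h1
  obtain ⟨δ, hδ, hδq⟩ := Metric.eventually_nhds_iff.1 hq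
  refine ⟨δ, hδ, hp.mono fun ε hε t ht => hpq hε (hδq ?_)⟩
  rwa [Real.dist_eq]

theorem pos_compact {F : ℝ × ℝ → ℝ} (hF : Continuous F) {K : Set ℝ} (hK : IsCompact K)
    (h : ∀ x ∈ K, 0 < F (0, x)) : ∀ᶠ ε in 𝓝 (0 : ℝ), ∀ x ∈ K, 0 < F (ε, x) := by
  apply hK.eventually_forall_of_forall_eventually
  intro x hx
  exact hF.continuousAt.eventually (lt_mem_nhds (h x hx))

theorem cont_pair (u w : ℝ[X]) : Continuous fun z : ℝ × ℝ => u.eval z.2 + z.1 * w.eval z.2 :=
  (u.continuous.comp continuous_snd).add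
    (continuous_fst.mul (w.continuous.comp continuous_snd))

/-- a polynomial with one real zero, which is simple and with the signs of `x - y`, keeps these
properties under a small perturbation with the right signs near infinity -/
theorem zero_perturb (u w : ℝ[X]) (y : ℝ)
    (hul : ∀ x, x < y → u.eval x < 0) (hur : ∀ x, y < x → 0 < u.eval x)
    (hd : 0 < u.derivative.eval y) (R : ℝ) (hwr : ∀ x, R ≤ x → 0 < w.eval x)
    (hwl : ∀ x, x ≤ -R → w.eval x < 0) (δ : ℝ) (hδ : 0 < δ) :
    ∀ᶠ ε in 𝓝[>] (0 : ℝ), ∃ t, |t - y| < δ ∧ u.eval t + ε * w.eval t = 0 ∧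
      (∀ x, x < t → u.eval x + ε * w.eval x < 0) ∧
      (∀ x, t < x → 0 < u.eval x + ε * w.eval x) := by
  -- the derivative is positive near `y`
  obtain ⟨r, hr, hrd, hrδ⟩ : ∃ r > 0, (∀ x, |x - y| ≤ r → 0 < u.derivative.eval x) ∧ r < δ := by
    have h1 : ∀ᶠ x in 𝓝 y, 0 < u.derivative.eval x :=
      u.derivative.continuous.continuousAt.eventually (lt_mem_nhds hd)
    obtain ⟨r, hr, h⟩ := Metric.eventually_nhds_iff.1 h1
    refine ⟨min r δ / 2, by positivity, fun x hx => h ?_, ?_⟩
    · rw [Real.dist_eq]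
      have := min_le_left r δ
      linarith
    · have := min_le_right r δ
      linarith
  set R' := max R (|y| + r + 1) with hR'
  have hR1 : R ≤ R' := le_max_left _ _
  have hR2 : |y| + r + 1 ≤ R' := le_max_right _ _
  have hy1 := le_abs_self y
  have hy2 := neg_abs_le y
  have e1 := pos_compact (cont_pair u.derivative w.derivative) (K := Set.Icc (y - r) (y + r))
    isCompact_Icc (by
      intro x hx
      simp only [zero_mul, add_zero]
      apply hrd
      rw [abs_le]
      constructor <;> [linarith [hx.1]; linarith [hx.2]])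
  have e2 := pos_compact (cont_pair (-u) (-w)) (K := Set.Icc (-R') (y - r))
    isCompact_Icc (by
      intro x hx
      simp only [zero_mul, add_zero, eval_neg]
      have := hul x (by linarith [hx.2])
      linarith)
  have e3 := pos_compact (cont_pair u w) (K := Set.Icc (y + r) R')
    isCompact_Icc (by
      intro x hx
      simp only [zero_mul, add_zero]
      exact hur x (by linarith [hx.1]))
  filter_upwards [nhdsWithin_le_nhds e1, nhdsWithin_le_nhds e2, nhdsWithin_le_nhds e3,
    self_mem_nhdsWithin] with ε h1 h2 h3 hε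
  have hε0 : 0 < ε := hε
  set F : ℝ → ℝ := fun x => u.eval x + ε * w.eval x with hF
  have hFe : ∀ x, F x = (u + C ε * w).eval x := by
    intro x
    simp [hF]
  have hFe' : F = fun x => (u + C ε * w).eval x := funext hFe
  have hFc : Continuous F := by
    rw [hFe']
    exact (u + C ε * w).continuous
  have hFm : StrictMonoOn F (Set.Icc (y - r) (y + r)) := by
    apply strictMonoOn_of_deriv_pos (convex_Icc _ _) hFc.continuousOn
    intro x hx
    rw [interior_Icc] at hx
    have h4 := h1 x ⟨hx.1.le, hx.2.le⟩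
    rw [hFe', Polynomial.deriv]
    simpa using h4
  have hneg : ∀ x, x ≤ y - r → F x < 0 := by
    intro x hx
    by_cases h : -R' ≤ x
    · have h4 := h2 x ⟨h, hx⟩
      simp only [eval_neg] at h4
      simp only [hF]
      linarith
    · rw [not_le] at h
      have h4 := hul x (by linarith)
      have h5 := hwl x (by linarith)
      have h6 := mul_neg_of_pos_of_neg hε0 h5
      simp only [hF]
      linarith
  have hpos : ∀ x, y + r ≤ x → 0 < F x := by
    intro x hx
    by_cases h : x ≤ R'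
    · exact h3 x ⟨hx, h⟩
    · rw [not_le] at h
      have h4 := hur x (by linarith)
      have h5 := hwr x (by linarith)
      have h6 := mul_pos hε0 h5
      simp only [hF]
      linarith
  obtain ⟨t, ht, ht0⟩ : (0 : ℝ) ∈ F '' Set.Icc (y - r) (y + r) := by
    apply intermediate_value_Icc (by linarith) hFc.continuousOn
    exact ⟨(hneg _ le_rfl).le, (hpos _ le_rfl).le⟩
  refine ⟨t, ?_, ht0, ?_, ?_⟩
  · have : |t - y| ≤ r := by
      rw [abs_le]
      constructor <;> [linarith [ht.1]; linarith [ht.2]]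
    linarith
  · intro x hx
    by_cases h : y - r ≤ x
    · have h4 := hFm ⟨h, hx.le.trans ht.2⟩ ht hx
      rw [ht0] at h4
      exact h4
    · rw [not_le] at h
      exact hneg x h.le
  · intro x hx
    by_cases h : x ≤ y + r
    · have h4 := hFm ht ⟨ht.1.trans hx.le, h⟩ hx
      rw [ht0] at h4
      exact h4
    · rw [not_le] at h
      exact hpos x h.le

/-- polynomials of odd degree with positive leading coefficient -/
theorem exists_R (P : ℝ[X]) (hodd : Odd P.natDegree) (hlc : 0 < P.leadingCoeff) :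
    ∃ R, (∀ x, R ≤ x → 0 < P.eval x) ∧ (∀ x, x ≤ -R → P.eval x < 0) := by
  have hd : 0 < P.degree := natDegree_pos_iff_degree_pos.1 hodd.pos
  have h1 := P.tendsto_atTop_of_leadingCoeff_nonneg hd hlc.le
  have h2 : Tendsto (fun x => eval x (-(P.comp (-X)))) atTop atTop := by
    apply Polynomial.tendsto_atTop_of_leadingCoeff_nonneg
    · rw [degree_neg, degree_comp_neg_X]
      exact hd
    · rw [leadingCoeff_neg, comp_neg_X_leadingCoeff_eq, hodd.neg_one_pow]
      linarith
  obtain ⟨R1, hR1⟩ := eventually_atTop.1 (h1.eventually_gt_atTop 0)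
  obtain ⟨R2, hR2⟩ := eventually_atTop.1 (h2.eventually_gt_atTop 0)
  refine ⟨max R1 R2, fun x hx => hR1 x ((le_max_left _ _).trans hx), fun x hx => ?_⟩
  have h3 := hR2 (-x) (by linarith [le_max_right R1 R2])
  simp only [eval_neg, eval_comp, eval_X, neg_neg] at h3
  linarith

/-- factor out the zero -/
theorem factor (u : ℝ[X]) (y : ℝ) (h : u.eval y = 0) :
    ∃ U : ℝ[X], (∀ x, u.eval x = (x - y) * U.eval x) ∧ U.eval y = u.derivative.eval y := by
  obtain ⟨U, hU⟩ := (dvd_iff_isRoot (p := u) (a := y)).2 h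
  refine ⟨U, fun x => ?_, ?_⟩
  · rw [hU]
    simp
  · rw [hU]
    simp

theorem deriv_nonneg_of_signs (u : ℝ[X]) (y : ℝ) (h : u.eval y = 0)
    (hur : ∀ x, y < x → 0 < u.eval x) : 0 ≤ u.derivative.eval y := by
  obtain ⟨U, hU, hUy⟩ := factor u y h
  rw [← hUy]
  by_contra hcon
  rw [not_le] at hcon
  have h1 : ∀ᶠ x in 𝓝 y, U.eval x < 0 := U.continuous.continuousAt.eventually (gt_mem_nhds hcon)
  obtain ⟨r, hr, h2⟩ := Metric.eventually_nhds_iff.1 h1
  have h3 := h2 (y := y + r / 2) (by
    rw [Real.dist_eq]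
    rw [abs_lt]
    constructor <;> linarith)
  have h4 := hur (y + r / 2) (by linarith)
  rw [hU] at h4
  have h5 : (y + r / 2 - y) * U.eval (y + r / 2) < 0 := by
    apply mul_neg_of_pos_of_neg
    · linarith
    · exact h3
  linarith

/-- sign of the third curve at the moved crossing, non-concurrent case -/
theorem side_away (u w : ℝ[X]) (y : ℝ) (h : u.eval y ≠ 0) :
    ∃ δ > 0, ∀ᶠ ε in 𝓝[>] (0 : ℝ), ∀ t, |t - y| < δ →
      u.eval t + ε * w.eval t ≠ 0 ∧ (0 < u.eval t + ε * w.eval t ↔ 0 < u.eval y) := by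
  rcases lt_or_gt_of_ne h with h | h
  · obtain ⟨δ, hδ, h1⟩ := pos_box (cont_pair (-u) (-w)) (y := y) (by
      simp only [zero_mul, add_zero, eval_neg]
      linarith)
    refine ⟨δ, hδ, ?_⟩
    filter_upwards [nhdsWithin_le_nhds h1] with ε hε t ht
    have h2 := hε t ht
    simp only [eval_neg] at h2
    refine ⟨by intro h3; linarith, ⟨fun h3 => by linarith, fun h3 => by linarith⟩⟩
  · obtain ⟨δ, hδ, h1⟩ := pos_box (cont_pair u w) (y := y) (by
      simp only [zero_mul, add_zero]
      exact h)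
    refine ⟨δ, hδ, ?_⟩
    filter_upwards [nhdsWithin_le_nhds h1] with ε hε t ht
    have h2 := hε t ht
    refine ⟨by intro h3; linarith, ⟨fun _ => h, fun _ => h2⟩⟩

/-- sign of the third curve at the moved crossing, concurrent case -/
theorem side_at (u v wu wv : ℝ[X]) (y : ℝ) (hu : u.eval y = 0) (hv : v.eval y = 0)
    (hvd : 0 < v.derivative.eval y)
    (hE : v.derivative.eval y * wu.eval y - u.derivative.eval y * wv.eval y ≠ 0) :
    ∃ δ > 0, ∀ᶠ ε in 𝓝[>] (0 : ℝ), ∀ t, |t - y| < δ → v.eval t + ε * wv.eval t = 0 →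
      u.eval t + ε * wu.eval t ≠ 0 ∧ (0 < u.eval t + ε * wu.eval t ↔
        0 < v.derivative.eval y * wu.eval y - u.derivative.eval y * wv.eval y) := by
  obtain ⟨U, hU, hUy⟩ := factor u y hu
  obtain ⟨V, hV, hVy⟩ := factor v y hv
  set E : ℝ[X] := V * wu - U * wv with hEdef
  have hEy : E.eval y = v.derivative.eval y * wu.eval y - u.derivative.eval y * wv.eval y := by
    simp [hEdef, hUy, hVy]
  rw [← hEy] at hE ⊢
  obtain ⟨δ1, hδ1, h1⟩ := side_away E 0 y hE
  obtain ⟨δ2, hδ2, h2⟩ := side_away V 0 y (by rw [hVy]; exact hvd.ne')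
  refine ⟨min δ1 δ2, lt_min hδ1 hδ2, ?_⟩
  filter_upwards [h1, h2, self_mem_nhdsWithin] with ε h3 h4 hε t ht hz
  have hε0 : 0 < ε := hε
  obtain ⟨h5, h6⟩ := h3 t (ht.trans_le (min_le_left _ _))
  obtain ⟨-, h7⟩ := h4 t (ht.trans_le (min_le_right _ _))
  simp only [eval_zero, mul_zero, add_zero] at h5 h6 h7
  have hVt : 0 < V.eval t := h7.2 (by rw [hVy]; exact hvd)
  have key : V.eval t * (u.eval t + ε * wu.eval t) = ε * E.eval t := by
    have e1 := hU t
    have e2 := hV t
    have e3 : E.eval t = V.eval t * wu.eval t - U.eval t * wv.eval t := by simp [hEdef]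
    rw [e3]
    have e4 : V.eval t * u.eval t = U.eval t * v.eval t := by
      rw [e1, e2]
      ring
    have e5 : v.eval t = - (ε * wv.eval t) := by linarith
    rw [mul_add, e4, e5]
    ring
  constructor
  · intro h8
    rw [h8, mul_zero] at key
    have := (mul_eq_zero.1 key.symm)
    rcases this with h9 | h9
    · exact hε0.ne' h9
    · exact h5 h9
  · rw [← h6]
    constructor
    · intro h8
      have h9 := mul_pos hVt h8
      rw [key] at h9
      exact pos_of_mul_pos_of_pos_left' h9 hε0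
    · intro h8
      have h9 := mul_pos hε0 h8
      rw [← key] at h9
      exact pos_of_mul_pos_of_pos_left' h9 hVt
where
  pos_of_mul_pos_of_pos_left' {a b : ℝ} (h : 0 < a * b) (ha : 0 < a) : 0 < b := by
    by_contra hcon
    rw [not_lt] at hcon
    have := mul_nonpos_of_nonneg_of_nonpos ha.le hcon
    linarith

end Pool.Agent.W_be22fd_h39
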