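import Pool.Agent.W_be22fd_h39.Iso
import Pool.Agent.W_be22fd_h39.Perturb
import Pool.Agent.W_be22fd_h39.ClassDefs

/-!
# Resolving the multiple points of an arrangement of graphs of polynomials
-/

namespace Pool.Agent.W_be22fd_h39

open Finset Topology Filter Polynomial
open Pool.Agent.W_MP_be22fd_co

/-- crossing data without simplicity -/
structure PreCross {n : ℕ} (g : Fin n → ℝ → ℝ) (Y : Fin n → Fin n → ℝ) : Prop where
  symm : ∀ i j, Y i j = Y j i
  left : ∀ i j, i < j → ∀ x, x < Y i j → g j x < g i x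
  meet : ∀ i j, i ≠ j → g i (Y i j) = g j (Y i j)
  right : ∀ i j, i < j → ∀ x, Y i j < x → g i x < g j x

theorem PreCross.of_lt {n : ℕ} {g : Fin n → ℝ → ℝ} {T : Fin n → Fin n → ℝ}
    (h0 : ∀ i j, i < j → g i (T i j) = g j (T i j))
    (h1 : ∀ i j, i < j → ∀ x, x < T i j → g j x < g i x)
    (h2 : ∀ i j, i < j → ∀ x, T i j < x → g i x < g j x) :
    PreCross g (fun i j => if i < j then T i j else T j i) := by
  refine ⟨?_, ?_, ?_, ?_⟩
  · intro i j
    rcases lt_trichotomy i j with h | h | h
    · simp only [if_pos h, if_neg (not_lt.2 h.le)]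
    · subst h
      rfl
    · simp only [if_pos h, if_neg (not_lt.2 h.le)]
  · intro i j hij x hx
    simp only [if_pos hij] at hx
    exact h1 i j hij x hx
  · intro i j hij
    rcases lt_or_gt_of_ne hij with h | h
    · simp only [if_pos h]
      exact h0 i j h
    · simp only [if_neg (not_lt.2 h.le)]
      exact (h0 j i h).symm
  · intro i j hij x hx
    simp only [if_pos hij] at hx
    exact h2 i j hij x hx

theorem exists_preCross {n : ℕ} {f : Fin n → ℝ → ℝ} (hf : IsArrangement f) (hl : Labelled f) :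
    ∃ a, PreCross f a := by
  have T : ∀ i j, i < j → ∃ t, f i t = f j t ∧ (∀ x, x < t → f j x < f i x) ∧
      (∀ x, t < x → f i x < f j x) := by
    intro i j hij
    obtain ⟨t, h0, h | h⟩ := hf.cross i j hij.ne
    · exfalso
      obtain ⟨x, hx1, hx2⟩ := ((hl i j hij).and (eventually_lt_atBot t)).exists
      have := h.1 x hx2
      linarith
    · exact ⟨t, h0, h.1, h.2⟩
  choose! T0 h0 h1 h2 using T
  exact ⟨_, PreCross.of_lt h0 h1 h2⟩

variable {n : ℕ} {g : Fin n → ℝ → ℝ} {Y : Fin n → Fin n → ℝ}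

theorem PreCross.eq_iff (hg : PreCross g Y) {i j : Fin n} (hij : i ≠ j) (x : ℝ) :
    g i x = g j x ↔ x = Y i j := by
  constructor
  · intro h
    rcases lt_or_gt_of_ne hij with h1 | h1
    · rcases lt_trichotomy x (Y i j) with h2 | h2 | h2
      · exact absurd h (hg.left i j h1 x h2).ne'
      · exact h2
      · exact absurd h (hg.right i j h1 x h2).ne
    · rw [hg.symm]
      rcases lt_trichotomy x (Y j i) with h2 | h2 | h2
      · exact absurd h (hg.left j i h1 x h2).ne
      · exact h2
      · exact absurd h (hg.right j i h1 x h2).ne'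
  · rintro rfl
    exact hg.meet i j hij

/-- simplicity only has to be checked on sorted triples -/
theorem PreCross.simple (hg : PreCross g Y)
    (h : ∀ i j k, i < j → j < k → g i (Y i k) ≠ g j (Y i k)) (i j k : Fin n)
    (hij : i ≠ j) (hjk : j ≠ k) (hik : i ≠ k) (x : ℝ) : ¬ (g i x = g j x ∧ g j x = g k x) := by
  have key : ∀ i j k, i < j → j < k → ∀ x, ¬ (g i x = g j x ∧ g j x = g k x) := by
    rintro i j k hij hjk x ⟨h1, h2⟩
    have h3 := (hg.eq_iff (hij.trans hjk).ne x).1 (h1.trans h2)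
    rw [h3] at h1
    exact h i j k hij hjk h1
  rintro ⟨h1, h2⟩
  rcases lt_or_gt_of_ne hij with a1 | a1 <;> rcases lt_or_gt_of_ne hjk with a2 | a2 <;>
    rcases lt_or_gt_of_ne hik with a3 | a3
  · exact key i j k a1 a2 x ⟨h1, h2⟩
  · exact absurd (a1.trans a2) (not_lt.2 a3.le)
  · exact key i k j a3 a2 x ⟨h1.trans h2, h2.symm⟩
  · exact key k i j a3 a1 x ⟨(h1.trans h2).symm, h1⟩
  · exact key j i k a1 a3 x ⟨h1.symm, h1.trans h2⟩
  · exact key j k i a2 a3 x ⟨h2, (h1.trans h2).symm⟩
  · exact absurd (a2.trans a1) (not_lt.2 a3.le)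
  · exact key k j i a2 a1 x ⟨h2.symm, h1.symm⟩

theorem Cross.mid_iff {f : Fin n → ℝ → ℝ} {a : Fin n → Fin n → ℝ} (hf : Cross f a)
    {i j k : Fin n} (hij : i < j) (hjk : j < k) :
    f i (a i k) < f j (a i k) ↔ a i j < a j k := by
  rw [hf.lt_iff hij]
  rcases hf.tri hij hjk with ⟨h1, h2, h3⟩ | ⟨h1, h2, h3⟩
  · exact ⟨fun _ => h3, fun _ => h1⟩
  · exact ⟨fun h => by linarith, fun h => by linarith⟩

/-- the perturbed curves -/
theorem resolve {m : ℕ} {f : Fin (m + 1) → ℝ → ℝ} {a : Fin (m + 1) → Fin (m + 1) → ℝ}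
    (hf : Cross f a) (g w : Fin (m + 1) → ℝ[X]) {Y : Fin (m + 1) → Fin (m + 1) → ℝ}
    (hY : PreCross (ev g) Y)
    (hd : ∀ i j, i < j → 0 < (g j - g i).derivative.eval (Y i j))
    (hw : ∀ i j, i < j → ∃ R, (∀ x, R ≤ x → 0 < (w j - w i).eval x) ∧
      (∀ x, x ≤ -R → (w j - w i).eval x < 0))
    (h1 : ∀ i j k, i < j → j < k → (g j).eval (Y i k) ≠ (g i).eval (Y i k) →
      (0 < (g j - g i).eval (Y i k) ↔ f i (a i k) < f j (a i k)))
    (h2 : ∀ i j k, i < j → j < k → (g j).eval (Y i k) = (g i).eval (Y i k) →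
      (g k - g i).derivative.eval (Y i k) * (w j - w i).eval (Y i k) -
        (g j - g i).derivative.eval (Y i k) * (w k - w i).eval (Y i k) ≠ 0 ∧
      (0 < (g k - g i).derivative.eval (Y i k) * (w j - w i).eval (Y i k) -
        (g j - g i).derivative.eval (Y i k) * (w k - w i).eval (Y i k) ↔
          f i (a i k) < f j (a i k))) :
    ∃ ε : ℝ, IsArrangement (fun i x => (g i + C ε * w i).eval x) ∧
      Isomorphic f (fun i x => (g i + C ε * w i).eval x) := by
  -- the zeros of the differences of the unperturbed curves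
  have hzero : ∀ i j, i < j → (g j - g i).eval (Y i j) = 0 := by
    intro i j hij
    have : (g i).eval (Y i j) = (g j).eval (Y i j) := hY.meet i j hij.ne
    rw [eval_sub, this, sub_self]
  have hneg : ∀ i j, i < j → ∀ x, x < Y i j → (g j - g i).eval x < 0 := by
    intro i j hij x hx
    have : (g j).eval x < (g i).eval x := hY.left i j hij x hx
    rw [eval_sub]
    linarith
  have hpos : ∀ i j, i < j → ∀ x, Y i j < x → 0 < (g j - g i).eval x := by
    intro i j hij x hx
    have : (g i).eval x < (g j).eval x := hY.right i j hij x hx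
    rw [eval_sub]
    linarith
  -- pairs
  have E1 : ∀ᶠ ε in 𝓝[>] (0 : ℝ), ∀ i j, i < j → ∃ t,
      (g j - g i).eval t + ε * (w j - w i).eval t = 0 ∧
      (∀ x, x < t → (g j - g i).eval x + ε * (w j - w i).eval x < 0) ∧
      (∀ x, t < x → 0 < (g j - g i).eval x + ε * (w j - w i).eval x) := by
    refine eventually_all.2 fun i => eventually_all.2 fun j => ?_
    rw [eventually_imp_distrib_left]
    intro hij
    obtain ⟨R, hR1, hR2⟩ := hw i j hij
    filter_upwards [zero_perturb (g j - g i) (w j - w i) (Y i j) (hneg i j hij) (hpos i j hij)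
      (hd i j hij) R hR1 hR2 1 one_pos] with ε ⟨t, _, ht⟩
    exact ⟨t, ht⟩
  -- triples
  have E2 : ∀ᶠ ε in 𝓝[>] (0 : ℝ), ∀ i j k, i < j → j < k → ∃ t,
      (g k - g i).eval t + ε * (w k - w i).eval t = 0 ∧
      (g j - g i).eval t + ε * (w j - w i).eval t ≠ 0 ∧
      (0 < (g j - g i).eval t + ε * (w j - w i).eval t ↔ f i (a i k) < f j (a i k)) := by
    refine eventually_all.2 fun i => eventually_all.2 fun j => eventually_all.2 fun k => ?_
    rw [eventually_imp_distrib_left]
    intro hij
    rw [eventually_imp_distrib_left]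
    intro hjk
    have hik := hij.trans hjk
    obtain ⟨R, hR1, hR2⟩ := hw i k hik
    by_cases hc : (g j).eval (Y i k) = (g i).eval (Y i k)
    · obtain ⟨e1, e2⟩ := h2 i j k hij hjk hc
      obtain ⟨δ, hδ, h3⟩ := side_at (g j - g i) (g k - g i) (w j - w i) (w k - w i) (Y i k)
        (by rw [eval_sub, hc, sub_self]) (hzero i k hik) (hd i k hik) e1
      filter_upwards [h3, zero_perturb (g k - g i) (w k - w i) (Y i k) (hneg i k hik)
        (hpos i k hik) (hd i k hik) R hR1 hR2 δ hδ] with ε h4 ⟨t, ht, ht0, _⟩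
      obtain ⟨h5, h6⟩ := h4 t ht ht0
      exact ⟨t, ht0, h5, h6.trans e2⟩
    · have e1 := h1 i j k hij hjk hc
      obtain ⟨δ, hδ, h3⟩ := side_away (g j - g i) (w j - w i) (Y i k)
        (by rw [eval_sub]; exact sub_ne_zero.2 hc)
      filter_upwards [h3, zero_perturb (g k - g i) (w k - w i) (Y i k) (hneg i k hik)
        (hpos i k hik) (hd i k hik) R hR1 hR2 δ hδ] with ε h4 ⟨t, ht, ht0, _⟩
      obtain ⟨h5, h6⟩ := h4 t ht
      exact ⟨t, ht0, h5, h6.trans e1⟩
  obtain ⟨ε, hE1, hE2⟩ := (E1.and E2).exists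
  refine ⟨ε, ?_⟩
  set p : Fin (m + 1) → ℝ → ℝ := fun i x => (g i + C ε * w i).eval x with hp
  have hsub : ∀ i j x, (g j - g i).eval x + ε * (w j - w i).eval x = p j x - p i x := by
    intro i j x
    simp only [hp, eval_sub, eval_add, eval_mul, eval_C]
    ring
  simp only [hsub] at hE1 hE2
  choose! T t0 t1 t2 using hE1
  have hP : PreCross p (fun i j => if i < j then T i j else T j i) := by
    apply PreCross.of_lt
    · intro i j hij
      have := t0 i j hij
      linarith
    · intro i j hij x hx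
      have := t1 i j hij x hx
      linarith
    · intro i j hij x hx
      have := t2 i j hij x hx
      linarith
  set b : Fin (m + 1) → Fin (m + 1) → ℝ := fun i j => if i < j then T i j else T j i with hb
  have hside : ∀ i j k, i < j → j < k → p i (b i k) ≠ p j (b i k) ∧
      (p i (b i k) < p j (b i k) ↔ f i (a i k) < f j (a i k)) := by
    intro i j k hij hjk
    obtain ⟨t, h3, h4, h5⟩ := hE2 i j k hij hjk
    have h6 : t = b i k := (hP.eq_iff (hij.trans hjk).ne t).1 (by linarith)
    rw [← h6]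
    refine ⟨fun h7 => h4 (by linarith), ?_⟩
    rw [← h5, sub_pos]
  have hcont : ∀ i, Continuous (p i) := fun i => (g i + C ε * w i).continuous
  have hC : Cross p b := ⟨hcont, hP.symm, hP.left, hP.meet, hP.right,
    hP.simple fun i j k hij hjk => (hside i j k hij hjk).1⟩
  constructor
  · refine ⟨hcont, fun i j hij => ?_⟩
    refine ⟨b i j, hP.meet i j hij, ?_⟩
    rcases lt_or_gt_of_ne hij with h | h
    · exact Or.inr ⟨hP.left i j h, hP.right i j h⟩
    · left
      rw [hP.symm]
      exact ⟨hP.left j i h, hP.right j i h⟩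
  · obtain ⟨Φ, hΦ⟩ := exists_homeo_of_orientation hf hC (by
      intro i j k hij hjk
      rw [← hf.mid_iff hij hjk, ← hC.mid_iff hij hjk]
      exact (hside i j k hij hjk).2.symm)
    exact ⟨Φ, Equiv.refl _, hΦ⟩

/-- the perturbing polynomials -/
theorem exists_w {n : ℕ} (S : Fin n → Finset ℝ) (K : ℕ) (hS : ∀ i, (S i).card ≤ K) (hK : Odd K)
    (α : Fin n → ℝ → ℝ) :
    ∃ w : Fin n → ℝ[X], (∀ i, (w i).natDegree ≤ K) ∧
      (∀ i, ∀ y ∈ S i, (w i).eval y = α i y) ∧
      ∀ i j, i < j → ∃ R, (∀ x, R ≤ x → 0 < (w j - w i).eval x) ∧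
        (∀ x, x ≤ -R → (w j - w i).eval x < 0) := by
  set q : Fin n → ℝ[X] := fun i => Lagrange.interpolate (S i) id
    (fun y => α i y - ((i : ℕ) : ℝ) * y ^ K) with hq
  have hqd : ∀ i, (q i).degree < K := by
    intro i
    refine (Lagrange.degree_interpolate_lt _ (Set.injOn_id _)).trans_le ?_
    exact_mod_cast hS i
  refine ⟨fun i => C ((i : ℕ) : ℝ) * X ^ K + q i, ?_, ?_, ?_⟩
  · intro i
    refine (natDegree_add_le _ _).trans (max_le (natDegree_C_mul_X_pow_le _ _) ?_)
    exact natDegree_le_of_degree_le (hqd i).le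
  · intro i y hy
    have h1 : (q i).eval y = α i y - ((i : ℕ) : ℝ) * y ^ K := by
      have := Lagrange.eval_interpolate_at_node (s := S i) (v := (id : ℝ → ℝ))
        (r := fun y => α i y - ((i : ℕ) : ℝ) * y ^ K) (i := y) (Set.injOn_id _) hy
      exact this
    simp only [eval_add, eval_mul, eval_C, eval_pow, eval_X, h1]
    ring
  · intro i j hij
    have hc : (0 : ℝ) < ((j : ℕ) : ℝ) - ((i : ℕ) : ℝ) := by
      have : (i : ℕ) < (j : ℕ) := hij
      have h2 : ((i : ℕ) : ℝ) < ((j : ℕ) : ℝ) := by exact_mod_cast this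
      linarith
    have e : C ((j : ℕ) : ℝ) * X ^ K + q j - (C ((i : ℕ) : ℝ) * X ^ K + q i) =
        C (((j : ℕ) : ℝ) - ((i : ℕ) : ℝ)) * X ^ K + (q j - q i) := by
      rw [C_sub]
      ring
    simp only [e]
    have hdeg : (C (((j : ℕ) : ℝ) - ((i : ℕ) : ℝ)) * X ^ K : ℝ[X]).degree = (K : WithBot ℕ) :=
      degree_C_mul_X_pow _ hc.ne'
    have hlt : (q j - q i).degree < (C (((j : ℕ) : ℝ) - ((i : ℕ) : ℝ)) * X ^ K).degree := by
      rw [hdeg]
      exact (degree_sub_le _ _).trans_lt (max_lt (hqd j) (hqd i))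
    apply exists_R
    · have : (C (((j : ℕ) : ℝ) - ((i : ℕ) : ℝ)) * X ^ K + (q j - q i)).degree =
          (K : WithBot ℕ) := by
        rw [degree_add_eq_left_of_degree_lt hlt, hdeg]
      rw [natDegree_eq_of_degree_eq_some this]
      exact hK
    · rw [leadingCoeff_add_of_degree_lt' hlt, leadingCoeff_C_mul_X_pow]
      exact hc

/-- the multiple points on a curve are among the crossings of the curve -/
theorem multi_subset {n : ℕ} {g : Fin n → ℝ → ℝ} {Y : Fin n → Fin n → ℝ} (hY : PreCross g Y)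
    (i : Fin n) : multi g i ⊆ ((univ.erase i).image (Y i) : Finset ℝ) := by
  rintro y ⟨j, k, hj, hk, hjk, h1, h2⟩
  simp only [coe_image, Set.mem_image, mem_coe, mem_erase, mem_univ, and_true]
  exact ⟨j, hj, ((hY.eq_iff hj.symm y).1 h1).symm⟩

theorem multi_finite {n : ℕ} {g : Fin n → ℝ → ℝ} {Y : Fin n → Fin n → ℝ} (hY : PreCross g Y)
    (i : Fin n) : (multi g i).Finite :=
  (Finset.finite_toSet _).subset (multi_subset hY i)

/-- a curve carries at most `(n - 1) / 2` multiple points -/
theorem two_mul_multi_le {n : ℕ} {g : Fin n → ℝ → ℝ} {Y : Fin n → Fin n → ℝ}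
    (hY : PreCross g Y) (i : Fin n) : 2 * (multi g i).ncard ≤ n - 1 := by
  classical
  rw [Set.ncard_eq_toFinset_card _ (multi_finite hY i)]
  set S := (multi_finite hY i).toFinset with hS
  have h1 : ∀ y ∈ S, 2 ≤ (((univ.erase i).filter fun j => Y i j = y)).card := by
    intro y hy
    rw [hS, Set.Finite.mem_toFinset] at hy
    obtain ⟨j, k, hj, hk, hjk, h1, h2⟩ := hy
    have e1 := ((hY.eq_iff hj.symm y).1 h1).symm
    have e2 := ((hY.eq_iff hk.symm y).1 h2).symm
    have : ({j, k} : Finset (Fin n)) ⊆ (univ.erase i).filter fun j => Y i j = y := by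
      intro l hl
      rw [mem_insert, mem_singleton] at hl
      rw [mem_filter, mem_erase]
      rcases hl with rfl | rfl
      · exact ⟨⟨hj, mem_univ _⟩, e1⟩
      · exact ⟨⟨hk, mem_univ _⟩, e2⟩
    calc 2 = ({j, k} : Finset (Fin n)).card := (card_pair hjk).symm
      _ ≤ _ := card_le_card this
  calc 2 * S.card = ∑ _y ∈ S, 2 := by rw [sum_const, smul_eq_mul, mul_comm]
    _ ≤ ∑ y ∈ S, ((univ.erase i).filter fun j => Y i j = y).card := sum_le_sum h1
    _ = (S.biUnion fun y => (univ.erase i).filter fun j => Y i j = y).card := by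
        rw [card_biUnion]
        intro y _ z _ hyz
        rw [Function.onFun, disjoint_filter]
        intro j _ h3 h4
        exact hyz (h3.symm.trans h4)
    _ ≤ (univ.erase i).card := by
        apply card_le_card
        intro j hj
        rw [mem_biUnion] at hj
        obtain ⟨y, _, hj⟩ := hj
        exact (mem_filter.1 hj).1
    _ = n - 1 := by rw [card_erase_of_mem (mem_univ i), card_univ, Fintype.card_fin]

theorem main_of_offsets {n D M : ℕ} (f : Fin n → ℝ → ℝ) (g : Fin n → ℝ[X])
    (hf : IsArrangement f) (hs : IsSimple f) (hfl : Labelled f)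
    (hD : ∀ i, (g i).natDegree ≤ D) (hg : IsArrangement (ev g))
    (hgl : Labelled (ev g))
    (ht : ∀ i j, i ≠ j → ∀ y, (g i).eval y = (g j).eval y →
      (g i).derivative.eval y ≠ (g j).derivative.eval y)
    (hr : ∀ i j k, i < j → j < k → (∀ y, ¬ Meet (ev g) i j k y) →
      SameSide f (ev g) i j k)
    (α : Fin n → ℝ → ℝ) (hα : LocalLines f g α)
    (hM : ∀ i, (multi (ev g) i).ncard ≤ M) :
    Stretchable (max D (2 * (M / 2) + 1)) f := by
  rcases n with _ | m
  · refine ⟨fun i => i.elim0, fun i => i.elim0, ⟨fun i => i.elim0, fun i => i.elim0⟩,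
      Homeomorph.refl _, Equiv.refl _, fun i => i.elim0⟩
  obtain ⟨a, ha⟩ := exists_preCross hf hfl
  obtain ⟨Y, hY⟩ := exists_preCross hg hgl
  have hC : Cross f a := ⟨hf.cont, ha.symm, ha.left, ha.meet, ha.right, hs⟩
  set S : Fin (m + 1) → Finset ℝ := fun i => (multi_finite hY i).toFinset with hS
  obtain ⟨w, hw1, hw2, hw3⟩ := exists_w S (2 * (M / 2) + 1) (by
    intro i
    have h1 := hM i
    rw [Set.ncard_eq_toFinset_card _ (multi_finite hY i)] at h1
    simp only [hS]
    omega) ⟨M / 2, rfl⟩ α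
  have hzero : ∀ i j, i < j → (g j - g i).eval (Y i j) = 0 := by
    intro i j hij
    have : (g i).eval (Y i j) = (g j).eval (Y i j) := hY.meet i j hij.ne
    rw [eval_sub, this, sub_self]
  have hd : ∀ i j, i < j → 0 < (g j - g i).derivative.eval (Y i j) := by
    intro i j hij
    have h1 := deriv_nonneg_of_signs (g j - g i) (Y i j) (hzero i j hij) (by
      intro x hx
      have : (g i).eval x < (g j).eval x := hY.right i j hij x hx
      rw [eval_sub]
      linarith)
    have h2 := ht i j hij.ne (Y i j) (hY.meet i j hij.ne)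
    rcases h1.lt_or_eq with h3 | h3
    · exact h3
    · exfalso
      apply h2
      rw [derivative_sub, eval_sub] at h3
      linarith
  have hor : ∀ i j k, i < j → j < k →
      f i (a i k) = f k (a i k) ∧ f i (a i k) ≠ f j (a i k) := by
    intro i j k hij hjk
    have hik := hij.trans hjk
    refine ⟨hC.meet i k hik.ne, fun h => ?_⟩
    exact hC.simple i j k hij.ne hjk.ne hik.ne (a i k) ⟨h, h.symm.trans (hC.meet i k hik.ne)⟩
  obtain ⟨ε, hA, hI⟩ := resolve hC g w hY hd hw3 (by
    intro i j k hij hjk hne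
    have hik := hij.trans hjk
    obtain ⟨e1, e2⟩ := hor i j k hij hjk
    have hme : (g i).eval (Y i k) = (g k).eval (Y i k) := hY.meet i k hik.ne
    have h1 := hr i j k hij hjk (by
      rintro y ⟨h2, h3⟩
      have h4 : y = Y i k := (hY.eq_iff hik.ne y).1 (h2.trans h3)
      subst h4
      exact hne h2.symm) (a i k) (Y i k) e1 hme
    rw [eval_sub, sub_pos]
    constructor
    · intro h2
      rcases lt_or_gt_of_ne e2 with h3 | h3
      · exact h3
      · have h4 : (g j).eval (Y i k) < (g i).eval (Y i k) := h1.2 h3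
        linarith
    · exact h1.1) (by
    intro i j k hij hjk hc
    have hik := hij.trans hjk
    obtain ⟨e1, e2⟩ := hor i j k hij hjk
    have hme : (g i).eval (Y i k) = (g k).eval (Y i k) := hY.meet i k hik.ne
    have hm : Meet (ev g) i j k (Y i k) := ⟨hc.symm, hc.trans hme⟩
    -- the nodes
    have hSi : Y i k ∈ S i := by
      simp only [hS, Set.Finite.mem_toFinset]
      exact ⟨j, k, hij.ne', hik.ne', hjk.ne, hc.symm, hme⟩
    have hSj : Y i k ∈ S j := by
      simp only [hS, Set.Finite.mem_toFinset]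
      exact ⟨i, k, hij.ne, hjk.ne', hik.ne, hc, hc.trans hme⟩
    have hSk : Y i k ∈ S k := by
      simp only [hS, Set.Finite.mem_toFinset]
      exact ⟨i, j, hik.ne, hjk.ne, hij.ne, hme.symm, hme.symm.trans hc.symm⟩
    rw [eval_sub (w j), eval_sub (w k), hw2 i _ hSi, hw2 j _ hSj, hw2 k _ hSk]
    set y := Y i k with hy
    have hdk : 0 < (g k - g i).derivative.eval y := hd i k hik
    rw [derivative_sub, eval_sub] at hdk ⊢
    rw [derivative_sub, eval_sub]
    set si := (g i).derivative.eval y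
    set sj := (g j).derivative.eval y
    set sk := (g k).derivative.eval y
    set u0 := (α i y - α k y) / (sk - si) with hu0
    have hu1 : (sk - si) * u0 = α i y - α k y := by
      rw [hu0]
      field_simp
    have h1 := hα i j k hij hjk y hm (a i k) u0 e1 (by
      show si * u0 + α i y = sk * u0 + α k y
      linarith)
    have key : (sk - si) * (α j y - α i y) - (sj - si) * (α k y - α i y) =
        (sk - si) * ((sj * u0 + α j y) - (si * u0 + α i y)) := by
      have : (sj - si) * (α k y - α i y) = - ((sj - si) * ((sk - si) * u0)) := by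
        rw [hu1]
        ring
      rw [this]
      ring
    rw [key]
    rcases lt_or_gt_of_ne e2 with h3 | h3
    · have h4 : si * u0 + α i y < sj * u0 + α j y := h1.1 h3
      have h5 := mul_pos hdk (sub_pos.2 h4)
      exact ⟨h5.ne', ⟨fun _ => h3, fun _ => h5⟩⟩
    · have h4 : sj * u0 + α j y < si * u0 + α i y := h1.2 h3
      have h5 := mul_neg_of_pos_of_neg hdk (sub_neg.2 h4)
      exact ⟨h5.ne, ⟨fun h6 => by linarith, fun h6 => by linarith⟩⟩)
  refine ⟨fun i => g i + C ε * w i, fun i => ?_, hA, hI⟩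
  refine (natDegree_add_le _ _).trans (max_le ((hD i).trans (le_max_left _ _)) ?_)
  exact (natDegree_C_mul_le _ _).trans ((hw1 i).trans (le_max_right _ _))

open Classical in
/-- at triple points the offsets exist -/
theorem exists_offsets {n : ℕ} (f : Fin n → ℝ → ℝ) (g : Fin n → ℝ[X])
    (hfm : ∀ i k, i ≠ k → ∃ t, ∀ x, f i x = f k x → x = t)
    (hfour : NoFour (ev g))
    (ht : ∀ i j, i ≠ j → ∀ y, (g i).eval y = (g j).eval y →
      (g i).derivative.eval y ≠ (g j).derivative.eval y) :
    ∃ α, LocalLines f g α := by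
  let P : Fin n → ℝ → Fin n × Fin n → Prop := fun j y q =>
    q.1 < j ∧ j < q.2 ∧ Meet (ev g) q.1 j q.2 y
  let α : Fin n → ℝ → ℝ := fun j y =>
    if h : ∃ q, P j y q then
      (if ∃ x, f h.choose.1 x = f h.choose.2 x ∧ f h.choose.1 x < f j x then 1 else -1)
    else 0
  refine ⟨α, ?_⟩
  intro i j k hij hjk y hm x u hx hu
  have hik := hij.trans hjk
  obtain ⟨m1, m2⟩ := hm
  -- the two outer curves are not moved
  have hαi : α i y = 0 := by
    have : ¬ ∃ q, P i y q := by
      rintro ⟨⟨p, q⟩, h1, h2, h3, h4⟩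
      simp only at h1 h2 h3 h4
      have hpi : p ≠ i := h1.ne
      have hpj : p ≠ j := (h1.trans hij).ne
      have hpk : p ≠ k := (h1.trans hik).ne
      exact hfour p i j k hpi hpj hpk hij.ne hik.ne hjk.ne y
        ⟨h3, h3.trans m1, h3.trans (m1.trans m2)⟩
    exact dif_neg this
  have hαk : α k y = 0 := by
    have : ¬ ∃ q, P k y q := by
      rintro ⟨⟨p, q⟩, h1, h2, h3, h4⟩
      simp only at h1 h2 h3 h4
      have hqi : i ≠ q := (hik.trans h2).ne
      have hqj : j ≠ q := (hjk.trans h2).ne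
      have hqk : k ≠ q := h2.ne
      exact hfour i j k q hij.ne hik.ne hqi hjk.ne hqj hqk y
        ⟨m1, m1.trans m2, (m1.trans m2).trans h4⟩
    exact dif_neg this
  have hex : ∃ q, P j y q := ⟨(i, k), hij, hjk, m1, m2⟩
  have hch : hex.choose = (i, k) := by
    obtain ⟨h1, h2, h3, h4⟩ := hex.choose_spec
    set p := hex.choose with hp
    have e1 : p.1 = i := by
      by_contra hne
      exact hfour p.1 i j k hne h1.ne (h1.trans hjk).ne hij.ne hik.ne hjk.ne y
        ⟨h3.trans m1.symm, h3, h3.trans m2⟩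
    have e2 : p.2 = k := by
      by_contra hne
      exact hfour i j k p.2 hij.ne hik.ne (hij.trans h2).ne hjk.ne h2.ne (Ne.symm hne) y
        ⟨m1, m1.trans m2, m1.trans h4⟩
    exact Prod.ext e1 e2
  have hαj : α j y = if ∃ x, f i x = f k x ∧ f i x < f j x then 1 else -1 := by
    have : α j y = (if ∃ x, f hex.choose.1 x = f hex.choose.2 x ∧ f hex.choose.1 x < f j x
        then 1 else -1) := dif_pos hex
    rw [this, hch]
  have hu0 : u = 0 := by
    have h1 : (g i).derivative.eval y * u + α i y = (g k).derivative.eval y * u + α k y := hu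
    rw [hαi, hαk] at h1
    have h2 := ht i k hik.ne y (m1.trans m2)
    have h3 : ((g i).derivative.eval y - (g k).derivative.eval y) * u = 0 := by linarith
    rcases mul_eq_zero.1 h3 with h4 | h4
    · exact absurd (sub_eq_zero.1 h4) h2
    · exact h4
  show (f i x < f j x → (g i).derivative.eval y * u + α i y <
      (g j).derivative.eval y * u + α j y) ∧ (f j x < f i x →
      (g j).derivative.eval y * u + α j y < (g i).derivative.eval y * u + α i y)
  rw [hu0, hαi, hαj]
  simp only [mul_zero, zero_add]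
  constructor
  · intro h1
    rw [if_pos ⟨x, hx, h1⟩]
    exact one_pos
  · intro h1
    rw [if_neg]
    · norm_num
    · rintro ⟨z, hz1, hz2⟩
      obtain ⟨t, ht⟩ := hfm i k hik.ne
      have e1 := ht x hx
      have e2 := ht z hz1
      rw [e2, ← e1] at hz2
      linarith

end Pool.Agent.W_be22fd_h39
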