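import Pool.Agent.W_be22fd_h78.Stmts2

/-!
MP_be22fd_co, lower bound, real line potential argument: local integrability of the densities and
the summation of test functions.

`PP_continuous`: for an admissible `f` the function `PP h f` is continuous (dominated convergence,
`pk h (x - t) ≤ C / (1 + t ^ 2)` for bounded `x`).
`sum_core`: finitely many test functions `p k`, potentials `v k ≤ u` which equal `u` on the source
of `p k`, mass at least `N` of `v k` in a set where `p k ≥ κ`; the sum of the `p k` is at most `M`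
on `S` and vanishes outside `S`: then `κ N |I| ≤ M mu h u S`.
-/

set_option autoImplicit false

namespace Pool.Agent.W_be22fd_h39

open MeasureTheory Filter Topology Pool.Agent.W_be22fd_h78

theorem pk_le {h R x t : ℝ} (hh : 0 < h) (hx : |x| ≤ R) :
    pk h (x - t) ≤ (h / Real.pi * (2 + (1 + 2 * R ^ 2) / h ^ 2)) / (1 + t ^ 2) := by
  have hpi := Real.pi_pos
  have hh2 : 0 < h ^ 2 := by positivity
  have hx2 : x ^ 2 ≤ R ^ 2 := by
    rw [← sq_abs x]
    exact pow_le_pow_left₀ (abs_nonneg x) hx 2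
  have h1 : 1 + t ^ 2 ≤ (2 + (1 + 2 * R ^ 2) / h ^ 2) * ((x - t) ^ 2 + h ^ 2) := by
    have h2 : (1 + 2 * R ^ 2) / h ^ 2 * ((x - t) ^ 2 + h ^ 2) ≥ 1 + 2 * R ^ 2 := by
      have h3 : (1 + 2 * R ^ 2) / h ^ 2 * ((x - t) ^ 2 + h ^ 2) =
          (1 + 2 * R ^ 2) / h ^ 2 * (x - t) ^ 2 + (1 + 2 * R ^ 2) := by
        field_simp
      rw [h3]
      have : 0 ≤ (1 + 2 * R ^ 2) / h ^ 2 * (x - t) ^ 2 := by positivity
      linarith
    nlinarith [sq_nonneg (x - t), sq_nonneg (2 * x - t), sq_nonneg (x + (x - t))]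
  unfold pk
  rw [div_le_div_iff₀ (by positivity) (by positivity)]
  have h4 : h / Real.pi * (2 + (1 + 2 * R ^ 2) / h ^ 2) * (Real.pi * ((x - t) ^ 2 + h ^ 2)) =
      h * ((2 + (1 + 2 * R ^ 2) / h ^ 2) * ((x - t) ^ 2 + h ^ 2)) := by
    field_simp
  rw [h4]
  exact mul_le_mul_of_nonneg_left h1 hh.le

theorem pk_nonneg {h s : ℝ} (hh : 0 < h) : 0 ≤ pk h s := by
  unfold pk
  have := Real.pi_pos
  positivity

theorem pk_continuous {h : ℝ} (hh : 0 < h) : Continuous (pk h) := by
  unfold pk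
  refine continuous_const.div (by fun_prop) fun s => ?_
  have := Real.pi_pos
  positivity

theorem adm_aesm {f : ℝ → ℝ} (hf : Adm f) : AEStronglyMeasurable f volume := by
  have h1 : f = fun t => (f t / (1 + t ^ 2)) * (1 + t ^ 2) := by
    funext t
    have : (1 + t ^ 2) ≠ 0 := by positivity
    field_simp
  rw [h1]
  exact hf.aestronglyMeasurable.mul (by fun_prop : Continuous fun t : ℝ => 1 + t ^ 2).aestronglyMeasurable

theorem PP_continuous {h : ℝ} {f : ℝ → ℝ} (hh : 0 < h) (hf : Adm f) : Continuous (PP h f) := by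
  rw [continuous_iff_continuousAt]
  intro x₀
  unfold PP
  set R : ℝ := |x₀| + 1 with hR
  refine continuousAt_of_dominated (bound := fun t =>
    (h / Real.pi * (2 + (1 + 2 * R ^ 2) / h ^ 2)) * |f t / (1 + t ^ 2)|) ?_ ?_ ?_ ?_
  · refine Eventually.of_forall fun x => ?_
    exact ((pk_continuous hh).comp (continuous_const.sub continuous_id)).aestronglyMeasurable.mul
      (adm_aesm hf)
  · have hball : ∀ᶠ x in 𝓝 x₀, |x| ≤ R := by
      filter_upwards [Metric.ball_mem_nhds x₀ one_pos] with x hx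
      rw [Metric.mem_ball, Real.dist_eq] at hx
      have := abs_sub_abs_le_abs_sub x x₀
      linarith
    filter_upwards [hball] with x hx
    refine Eventually.of_forall fun t => ?_
    rw [norm_mul, Real.norm_of_nonneg (pk_nonneg hh), Real.norm_eq_abs, abs_div,
      abs_of_pos (by positivity : (0 : ℝ) < 1 + t ^ 2)]
    calc pk h (x - t) * |f t| ≤
        ((h / Real.pi * (2 + (1 + 2 * R ^ 2) / h ^ 2)) / (1 + t ^ 2)) * |f t| :=
          mul_le_mul_of_nonneg_right (pk_le hh hx) (abs_nonneg _)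
      _ = _ := by ring
  · exact hf.abs.const_mul _
  · refine Eventually.of_forall fun t => ?_
    exact (((pk_continuous hh).comp (continuous_id.sub continuous_const)).mul
      continuous_const).continuousAt

theorem adm_intOn {f : ℝ → ℝ} (hf : Adm f) (a b : ℝ) : IntegrableOn f (Set.Icc a b) := by
  have h1 : f = fun t => (1 + t ^ 2) * (f t / (1 + t ^ 2)) := by
    funext t
    have : (1 + t ^ 2) ≠ 0 := by positivity
    field_simp
  rw [h1]
  refine IntegrableOn.continuousOn_mul (by fun_prop) hf.integrableOn isCompact_Icc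

theorem dens_intOn {h : ℝ} {u : ℝ → ℝ} (hh : 0 < h) (hu : Adm u) (a b : ℝ) :
    IntegrableOn (dens h u) (Set.Icc a b) := by
  unfold dens
  exact ((PP_continuous hh hu).continuousOn.integrableOn_compact isCompact_Icc).sub
    (adm_intOn hu a b)

theorem dens_intOn_bdd {h : ℝ} {u : ℝ → ℝ} (hh : 0 < h) (hu : Adm u) {S : Set ℝ}
    (hS : Bornology.IsBounded S) : IntegrableOn (dens h u) S := by
  obtain ⟨R, hR⟩ := hS.subset_closedBall 0
  rw [Real.closedBall_eq_Icc] at hR
  exact (dens_intOn hh hu _ _).mono_set hR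

theorem mul_dens_int {h C : ℝ} {u p : ℝ → ℝ} {T : Set ℝ} (hh : 0 < h) (hu : Adm u)
    (hp : IsTest h p T C) : Integrable fun t => p t * dens h u t := by
  obtain ⟨R, hR⟩ := hp.comp
  have h1 : IntegrableOn (fun t => p t * dens h u t) (Set.Icc (-R) R) := by
    refine Integrable.bdd_mul (c := C) (dens_intOn hh hu _ _) hp.meas.aestronglyMeasurable ?_
    refine Eventually.of_forall fun t => ?_
    rw [Real.norm_of_nonneg (hp.nonneg t)]
    exact hp.le t
  have h2 : (fun t => p t * dens h u t) =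
      (Set.Icc (-R) R).indicator fun t => p t * dens h u t := by
    funext t
    by_cases ht : t ∈ Set.Icc (-R) R
    · rw [Set.indicator_of_mem ht]
    · rw [Set.indicator_of_notMem ht, hR t, zero_mul]
      by_contra hc
      exact ht (abs_le.1 (not_lt.1 hc))
  rw [h2]
  exact h1.integrable_indicator measurableSet_Icc

/-- One test function. -/
theorem one_core (hTr : T_transfer) {h C κ N : ℝ} {u v p : ℝ → ℝ} {T S : Set ℝ} (hh : 0 < h)
    (hu : Pot u) (hv : Pot v) (hle : ∀ᵐ t, v t ≤ u t) (heq : ∀ᵐ t, t ∈ T → v t = u t)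
    (hp : IsTest h p T C) (hSm : MeasurableSet S) (hSb : Bornology.IsBounded S)
    (hN : N ≤ mu h v S) (hκ : 0 ≤ κ) (hpκ : ∀ t ∈ S, κ ≤ p t) :
    κ * N * (Real.pi * h) ≤ ∫ t, p t * dens h u t := by
  have hpi := Real.pi_pos
  have h1 : κ * N * (Real.pi * h) ≤ κ * ∫ t in S, dens h v t := by
    unfold mu at hN
    rw [le_div_iff₀ (by positivity)] at hN
    rw [mul_assoc]
    exact mul_le_mul_of_nonneg_left hN hκ
  have hint := dens_intOn_bdd hh hv.adm hSb
  have hpint := mul_dens_int hh hv.adm hp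
  have h2 : κ * ∫ t in S, dens h v t ≤ ∫ t in S, p t * dens h v t := by
    rw [← integral_const_mul]
    refine setIntegral_mono_on_ae (hint.const_mul κ) hpint.integrableOn hSm ?_
    filter_upwards [hv.dens_nonneg h hh] with t ht hts
    exact mul_le_mul_of_nonneg_right (hpκ t hts) ht
  have h3 : ∫ t in S, p t * dens h v t ≤ ∫ t, p t * dens h v t := by
    refine setIntegral_le_integral hpint ?_
    filter_upwards [hv.dens_nonneg h hh] with t ht
    exact mul_nonneg (hp.nonneg t) ht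
  exact h1.trans (h2.trans (h3.trans (hTr h C p u v T hh hu.adm hv.adm hp hle heq)))

/-- Summation of test functions. -/
theorem sum_core (hTr : T_transfer) {I : Finset ℕ} {h C κ N M : ℝ} {u : ℝ → ℝ}
    {v p : ℕ → ℝ → ℝ} {T Sk : ℕ → Set ℝ} {S : Set ℝ} (hh : 0 < h) (hu : Pot u)
    (hv : ∀ k ∈ I, Pot (v k)) (hle : ∀ k ∈ I, ∀ᵐ t, v k t ≤ u t)
    (heq : ∀ k ∈ I, ∀ᵐ t, t ∈ T k → v k t = u t) (hp : ∀ k ∈ I, IsTest h (p k) (T k) C)
    (hSm : ∀ k ∈ I, MeasurableSet (Sk k)) (hSb : ∀ k ∈ I, Bornology.IsBounded (Sk k))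
    (hN : ∀ k ∈ I, N ≤ mu h (v k) (Sk k)) (hκ : 0 ≤ κ) (hpκ : ∀ k ∈ I, ∀ t ∈ Sk k, κ ≤ p k t)
    (hSM : MeasurableSet S) (hSB : Bornology.IsBounded S)
    (hM : ∀ t, ∑ k ∈ I, p k t ≤ M) (hoff : ∀ t, t ∉ S → ∀ k ∈ I, p k t = 0) :
    κ * N * I.card ≤ M * mu h u S := by
  have hpi := Real.pi_pos
  have h1 : ∑ k ∈ I, κ * N * (Real.pi * h) ≤ ∑ k ∈ I, ∫ t, p k t * dens h u t :=
    Finset.sum_le_sum fun k hk => one_core hTr hh hu (hv k hk) (hle k hk) (heq k hk) (hp k hk)
      (hSm k hk) (hSb k hk) (hN k hk) hκ (hpκ k hk)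
  have hint : ∀ k ∈ I, Integrable fun t => p k t * dens h u t := fun k hk =>
    mul_dens_int hh hu.adm (hp k hk)
  rw [← integral_finsetSum I hint, Finset.sum_const, nsmul_eq_mul] at h1
  have hS := dens_intOn_bdd hh hu.adm hSB
  have h2 : ∫ t, ∑ k ∈ I, p k t * dens h u t ≤ ∫ t in S, M * dens h u t := by
    rw [← integral_indicator hSM]
    refine integral_mono_ae (integrable_finsetSum I hint)
      ((integrable_indicator_iff hSM).2 (hS.const_mul M)) ?_
    filter_upwards [hu.dens_nonneg h hh] with t ht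
    rw [← Finset.sum_mul]
    by_cases hts : t ∈ S
    · rw [Set.indicator_of_mem hts]
      exact mul_le_mul_of_nonneg_right (hM t) ht
    · rw [Set.indicator_of_notMem hts, Finset.sum_eq_zero (hoff t hts), zero_mul]
  rw [integral_const_mul] at h2
  unfold mu
  rw [mul_div_assoc', le_div_iff₀ (by positivity)]
  calc κ * N * I.card * (Real.pi * h) = I.card * (κ * N * (Real.pi * h)) := by ring
    _ ≤ _ := h1.trans h2

end Pool.Agent.W_be22fd_h39
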